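import Pool.Agent.Lib.MP_06b9d2_trp.RelS

/-!
Module TRP-Aff. The diagonal entries of `T` are affine functions of the position.

`cl r ↔ key N j r = z`. First for even `s ≤ s'` in the class: `uu N s' - uu N s = 2 (s' - s)` (`uu_even`), divisible by `3 ^ j` (`key_iff`), so `3 ^ j ∣ g = s' - s` (`Nat.Coprime`; even), and `s' < c 3 ^ R + a = N + 1 - a` since `s'` is even and `N` is odd (`s' ≤ N - 1`, `a ≤ 1`): `relS`.
By symmetry (`dvd_neg`) for all even `s`, `s'`. In general replace an odd `s` by `N - s` (even as `N` is odd; the same `uu`: `uu_sym`; in the class by `key_iff`; `relJ`: `T (N - s) (N - s) ≡ T s s` modulo `3`, so `3 ^ j T` modulo `3 ^ (j + 1)`).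
-/

namespace Pool.Agent.Lib.MP_06b9d2_trp

variable {N R a c : ℕ} {M : ℕ → ℕ → ℤ} {S : Set (Matrix (Fin (N + 1)) (Fin (N + 1)) Z3)}

private theorem aff_le (C : Ctx N R a c M S) {j : ℕ} (hj : j ≤ R + 1) {z : ℤ}
    {E T : Matrix (Fin (N + 1)) (Fin (N + 1)) Z3} {h : Z3}
    (P : Pc S (MX N M) j (fun r => key N j r = z) E T h) (s s' : Fin (N + 1))
    (hs : key N j s = z) (hs' : key N j s' = z) (he : (s : ℕ) % 2 = 0) (he' : (s' : ℕ) % 2 = 0)
    (hle : (s : ℕ) ≤ s') :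
    (3 : Z3) ^ (j + 1) ∣ 3 ^ j * (T s' s' - T s s) - ((uu N s' - uu N s : ℤ) : Z3) := by
  obtain ⟨g, hg⟩ : ∃ g : ℕ, (s' : ℕ) = s + g := ⟨s' - s, by omega⟩
  have hN := C.fct.hN
  have ha := C.fct.ha
  have hodd := C.fct.odd
  have h1 : uu N s' - uu N s = 2 * (g : ℤ) := by
    rw [uu_even N s' he', uu_even N s he, hg]
    push_cast
    ring
  have h2 : (3 : ℤ) ^ j ∣ uu N s' - uu N s := (key_iff N j s' s).mp (by rw [hs, hs'])
  rw [h1] at h2
  have h3 : 3 ^ j ∣ g := by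
    have h4 : ((3 ^ j : ℕ) : ℤ) ∣ ((2 * g : ℕ) : ℤ) := by
      push_cast
      exact h2
    rw [Int.natCast_dvd_natCast] at h4
    exact (Nat.Coprime.pow_left j (by norm_num : Nat.Coprime 3 2)).dvd_of_dvd_mul_left h4
  have h5 := relS C hj P s s' hs hs' g hg h3 (by omega) he (by
    have := s'.2
    generalize c * 3 ^ R = X at hN ⊢
    omega)
  rw [h1]
  exact h5

private theorem aff_even (C : Ctx N R a c M S) {j : ℕ} (hj : j ≤ R + 1) {z : ℤ}
    {E T : Matrix (Fin (N + 1)) (Fin (N + 1)) Z3} {h : Z3}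
    (P : Pc S (MX N M) j (fun r => key N j r = z) E T h) (s s' : Fin (N + 1))
    (hs : key N j s = z) (hs' : key N j s' = z) (he : (s : ℕ) % 2 = 0) (he' : (s' : ℕ) % 2 = 0) :
    (3 : Z3) ^ (j + 1) ∣ 3 ^ j * (T s' s' - T s s) - ((uu N s' - uu N s : ℤ) : Z3) := by
  rcases le_total (s : ℕ) s' with h1 | h1
  · exact aff_le C hj P s s' hs hs' he he' h1
  · have h2 := aff_le C hj P s' s hs' hs he' he h1
    rw [← dvd_neg] at h2
    have e : (3 : Z3) ^ j * (T s' s' - T s s) - ((uu N s' - uu N s : ℤ) : Z3) =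
        -(3 ^ j * (T s s - T s' s') - ((uu N s - uu N s' : ℤ) : Z3)) := by
      push_cast
      ring
    rw [e]
    exact h2

private theorem aff_red (C : Ctx N R a c M S) {j : ℕ} {z : ℤ}
    {E T : Matrix (Fin (N + 1)) (Fin (N + 1)) Z3} {h : Z3}
    (P : Pc S (MX N M) j (fun r => key N j r = z) E T h) (s : Fin (N + 1))
    (hs : key N j s = z) : ∃ s1 : Fin (N + 1), key N j s1 = z ∧ (s1 : ℕ) % 2 = 0 ∧
      uu N s1 = uu N s ∧ (3 : Z3) ∣ T s1 s1 - T s s := by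
  have hodd := C.fct.odd
  rcases Nat.mod_two_eq_zero_or_one (s : ℕ) with h1 | h1
  · exact ⟨s, hs, h1, rfl, by rw [sub_self]; exact dvd_zero _⟩
  · have hsN : (s : ℕ) ≤ N := Nat.lt_succ_iff.mp s.2
    have h2 : uu N (N - s) = uu N s := uu_sym N s hodd hsN
    have h3 : key N j ⟨N - s, by omega⟩ = z := by
      rw [← hs]
      unfold key
      rw [h2]
    refine ⟨⟨N - s, by omega⟩, h3, ?_, h2, ?_⟩
    · change (N - (s : ℕ)) % 2 = 0
      omega
    · refine relJ C P s ⟨N - s, by omega⟩ hs h3 ?_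
      change (s : ℕ) + (N - s) = N
      omega

theorem aff (C : Ctx N R a c M S) {j : ℕ} (hj : j ≤ R + 1) {z : ℤ} {E T : Matrix (Fin (N + 1)) (Fin (N + 1)) Z3} {h : Z3}
    (P : Pc S (MX N M) j (fun r => key N j r = z) E T h) (s s' : Fin (N + 1)) (hs : key N j s = z) (hs' : key N j s' = z) :
    (3 : Z3) ^ (j + 1) ∣ 3 ^ j * (T s' s' - T s s) - ((uu N s' - uu N s : ℤ) : Z3) := by
  obtain ⟨s1, h1, h2, h3, h4⟩ := aff_red C P s hs
  obtain ⟨s2, h5, h6, h7, h8⟩ := aff_red C P s' hs'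
  have h9 := aff_even C hj P s1 s2 h1 h5 h2 h6
  rw [h3, h7] at h9
  have h10 : (3 : Z3) ^ (j + 1) ∣ 3 ^ j * ((T s1 s1 - T s s) - (T s2 s2 - T s' s')) := by
    rw [pow_succ]
    exact mul_dvd_mul_left _ (dvd_sub h4 h8)
  have e : (3 : Z3) ^ j * (T s' s' - T s s) - ((uu N s' - uu N s : ℤ) : Z3) =
      (3 ^ j * (T s2 s2 - T s1 s1) - ((uu N s' - uu N s : ℤ) : Z3)) +
        3 ^ j * ((T s1 s1 - T s s) - (T s2 s2 - T s' s')) := by
    ring
  rw [e]
  exact dvd_add h9 h10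

end Pool.Agent.Lib.MP_06b9d2_trp
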