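import Pool.Agent.Lib.MP_06b9d2_trp.Defs
import Mathlib

/-!
Module TRP-AlgS. The algebra `S`.

`S = {X | (∀ C, A * C = C * A → X * C = C * X) ∧ X * Y = Y * (Z * X * Y)}`.
- `A ∈ S`: clear (`hAY`). `comm`: if `X, X' ∈ S` then `X'` commutes with `A` (take `C = A` for `X'`: `X' * A = A * X'`), so `X * X' = X' * X` (`C = X'`). `one`: `Y = Y * (Z * Y)`, `hZY`.
- `add`, `smul` (`Matrix.smul_mul`, `Matrix.mul_smul`), `mul`: `X X' Y = X Y (Z X' Y) = Y (Z X Y) (Z X' Y)` and `Z X X' Y = Z X Y (Z X' Y)`. `div`: `3 • (X * C - C * X) = 0` entrywise gives `X * C = C * X` (`ℤ_[3]` is a domain of characteristic `0`; `smul_right_injective` or `mul_left_cancel₀`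
  on entries), the same for the second condition.
- `closed`: intersection of the closed sets `{X | X * C = C * X}` and `{X | X * Y = Y * (Z * X * Y)}` (`isClosed_eq` with `continuity` / `Continuous.matrix_mul`; `isClosed_iInter`; write `S` as an intersection with `Set.setOf_and`, `Set.setOf_forall`).
-/

namespace Pool.Agent.Lib.MP_06b9d2_trp

theorem algS {ι : Type} [Fintype ι] [DecidableEq ι] {d : ℕ} (A : Matrix ι ι Z3) (Y : Matrix ι (Fin d) Z3) (Z : Matrix (Fin d) ι Z3)
    (hZY : Z * Y = 1) (hAY : A * Y = Y * (Z * A * Y)) :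
    ∃ S : Set (Matrix ι ι Z3), Alg S ∧ A ∈ S ∧ ∀ X ∈ S, X * Y = Y * (Z * X * Y) := by
  have h3 : ∀ {m n : Type} (P Q : Matrix m n Z3), (3 : Z3) • P = (3 : Z3) • Q → P = Q := by
    intro m n P Q h
    have h30 : (3 : Z3) ≠ 0 := by norm_num
    ext i j
    have h' : (3 : Z3) * P i j = (3 : Z3) * Q i j := by
      have h2 := congrFun (congrFun h i) j
      simpa only [Matrix.smul_apply, smul_eq_mul] using h2
    exact mul_left_cancel₀ h30 h'
  refine ⟨{X | (∀ C, A * C = C * A → X * C = C * X) ∧ X * Y = Y * (Z * X * Y)}, ?_, ⟨fun C h => h, hAY⟩, fun X hX => hX.2⟩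
  refine ⟨?_, ?_, ?_, ?_, ?_, ?_, ?_⟩
  · have hset : {X : Matrix ι ι Z3 | (∀ C, A * C = C * A → X * C = C * X) ∧ X * Y = Y * (Z * X * Y)} =
        (⋂ C : Matrix ι ι Z3, ⋂ _ : A * C = C * A, {X : Matrix ι ι Z3 | X * C = C * X}) ∩ {X | X * Y = Y * (Z * X * Y)} := by
      ext X
      simp only [Set.mem_setOf_eq, Set.mem_inter_iff, Set.mem_iInter]
    rw [hset]
    refine IsClosed.inter ?_ ?_
    · refine isClosed_iInter fun C => isClosed_iInter fun _ => ?_
      exact isClosed_eq (continuous_id.matrix_mul continuous_const) (continuous_const.matrix_mul continuous_id)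
    · exact isClosed_eq (continuous_id.matrix_mul continuous_const)
        (continuous_const.matrix_mul ((continuous_const.matrix_mul continuous_id).matrix_mul continuous_const))
  · refine ⟨fun C _ => by rw [one_mul, mul_one], ?_⟩
    rw [Matrix.one_mul, Matrix.mul_one, hZY, Matrix.mul_one]
  · intro X hX X' hX'
    refine ⟨fun C hC => ?_, ?_⟩
    · rw [Matrix.add_mul, Matrix.mul_add, hX.1 C hC, hX'.1 C hC]
    · rw [Matrix.add_mul, Matrix.mul_add, Matrix.add_mul, Matrix.mul_add, ← hX.2, ← hX'.2]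
  · intro X hX X' hX'
    refine ⟨fun C hC => ?_, ?_⟩
    · rw [Matrix.mul_assoc, hX'.1 C hC, ← Matrix.mul_assoc, hX.1 C hC, Matrix.mul_assoc]
    · have e1 : X * X' * Y = Y * ((Z * X * Y) * (Z * X' * Y)) := by
        calc X * X' * Y = X * (X' * Y) := Matrix.mul_assoc _ _ _
          _ = X * (Y * (Z * X' * Y)) := by rw [← hX'.2]
          _ = (X * Y) * (Z * X' * Y) := (Matrix.mul_assoc _ _ _).symm
          _ = (Y * (Z * X * Y)) * (Z * X' * Y) := by rw [← hX.2]
          _ = Y * ((Z * X * Y) * (Z * X' * Y)) := Matrix.mul_assoc _ _ _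
      have e2 : Z * (X * X') * Y = (Z * X * Y) * (Z * X' * Y) := by
        calc Z * (X * X') * Y = Z * (X * X' * Y) := Matrix.mul_assoc _ _ _
          _ = Z * (Y * ((Z * X * Y) * (Z * X' * Y))) := by rw [e1]
          _ = (Z * Y) * ((Z * X * Y) * (Z * X' * Y)) := (Matrix.mul_assoc _ _ _).symm
          _ = (Z * X * Y) * (Z * X' * Y) := by rw [hZY, Matrix.one_mul]
      rw [e1, e2]
  · intro r X hX
    refine ⟨fun C hC => ?_, ?_⟩
    · rw [Matrix.smul_mul, Matrix.mul_smul, hX.1 C hC]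
    · rw [Matrix.smul_mul, Matrix.mul_smul, Matrix.smul_mul, Matrix.mul_smul, ← hX.2]
  · intro X hX
    refine ⟨fun C hC => ?_, ?_⟩
    · have h := hX.1 C hC
      rw [Matrix.smul_mul, Matrix.mul_smul] at h
      exact h3 _ _ h
    · have h := hX.2
      rw [Matrix.smul_mul, Matrix.mul_smul, Matrix.smul_mul, Matrix.mul_smul] at h
      exact h3 _ _ h
  · intro X hX X' hX'
    exact hX.1 X' (hX'.1 A rfl).symm

end Pool.Agent.Lib.MP_06b9d2_trp
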