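import Pool.Agent.Lib.MP_06b9d2_trp.Defs

/-!
Module TRP-Bin. Binomial coefficients and powers of `3`.

`bin1`: `i * C(h, i) = h * C(h - 1, i - 1)` (`Nat.succ_mul_choose_eq` with `h = h' + 1`, `i = i' + 1`; `h = 0`: `C(0, i) = 0`), so `3 ^ j ∣ i * C(h, i)`. Write
`i = 3 ^ v * u`, `¬ 3 ∣ u` (`Nat.exists_eq_pow_mul_and_not_dvd`): `3 ^ j ∣ 3 ^ v * C(h, i)` (`Nat.Coprime.dvd_of_dvd_mul_left`, `3 ^ j` and `u` are coprime). General form
(private): if `v + t ≤ i - 1` then `3 ^ (j + t) ∣ 3 ^ (t + v) * C(h, i) ∣ 3 ^ (i - 1) * C(h, i)`. `t = 0`: `v < 3 ^ v ≤ i`. `t = 1`, `i ≥ 2`: `v = 0` clear, `v ≥ 1`: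
`v + 2 ≤ 3 ^ v ≤ i` (induction on `v`). `t = 2`, `i ≥ 4`: `v = 0` clear; `v = 1`: `3 ∣ i`, so `i ≥ 6`; `v ≥ 2`: `v + 3 ≤ 3 ^ v ≤ i`.
`binA`, `binB`, `binC`, `binD`: Vandermonde (`Nat.add_choose_eq`): `C(h + y, m) = ∑_{(i, l), i + l = m} C(h, i) C(y, l)` (sum over `antidiagonal m`). `3 ^ (m - 1) C(h, i) C(y, l) = 3 ^ l (3 ^ (i - 1) C(h, i)) C(y, l)` for
`i ≥ 1`. `binA` (`y < m`): the term `i = 0` has `C(y, m) = 0`; `i = 1`: `3 ^ l h`, `l = m - 1 ≥ 1`: divisible by `3 ^ (j + 1)`; `i ≥ 2`: `bin2`. `binB` (`m ≥ 4`): `i = 1`: `3 ^ l h`, `l ≥ 3`; `i = 2, 3`: `bin2` and `l ≥ 1`;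
`i ≥ 4`: `bin4`. `binC`: the term `i = 0` is `3 ^ m C(y, m)`, the others are `3 * 3 ^ l (3 ^ (i - 1) C(h, i)) C(y, l)` (`bin1`). `binD`: the term `i = 0` is `3 ^ (m - 1) C(y, m)`, the others as in `binA`.
(For `binC`, `binD` split the sum: `Finset.sum_eq_add_sum_diff_singleton` or `Finset.Nat.antidiagonal_succ`.)
-/

namespace Pool.Agent.Lib.MP_06b9d2_trp

private theorem bin_gen (j h i t v u : ℕ) (hh : 3 ^ j ∣ h) (hi : 1 ≤ i) (hu : ¬ 3 ∣ u)
    (hiv : i = 3 ^ v * u) (hv : v + t ≤ i - 1) : 3 ^ (j + t) ∣ 3 ^ (i - 1) * h.choose i := by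
  have h1 : 3 ^ j ∣ i * h.choose i := by
    rcases Nat.eq_zero_or_pos h with h0 | h0
    · subst h0
      rw [Nat.choose_eq_zero_of_lt hi]
      simp
    · obtain ⟨h', rfl⟩ : ∃ h', h = h' + 1 := ⟨h - 1, by omega⟩
      obtain ⟨i', rfl⟩ : ∃ i', i = i' + 1 := ⟨i - 1, by omega⟩
      have e := Nat.add_one_mul_choose_eq h' i'
      rw [mul_comm (i' + 1), ← e]
      exact hh.mul_right _
  have h2 : 3 ^ j ∣ 3 ^ v * h.choose i := by
    have h3 : i * h.choose i = u * (3 ^ v * h.choose i) := by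
      generalize h.choose i = c
      rw [hiv]
      ring
    rw [h3] at h1
    refine Nat.Coprime.dvd_of_dvd_mul_left ?_ h1
    exact Nat.Coprime.pow_left _ ((Nat.Prime.coprime_iff_not_dvd Nat.prime_three).mpr hu)
  calc 3 ^ (j + t) = 3 ^ t * 3 ^ j := by ring
    _ ∣ 3 ^ t * (3 ^ v * h.choose i) := mul_dvd_mul_left _ h2
    _ = 3 ^ (v + t) * h.choose i := by ring
    _ ∣ 3 ^ (i - 1) * h.choose i := mul_dvd_mul_right (pow_dvd_pow _ hv) _

private theorem bin_pow (v : ℕ) : v + 1 ≤ 3 ^ v := by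
  induction v with
  | zero => simp
  | succ n ih => rw [pow_succ]; omega

private theorem bin_pow1 (v : ℕ) (hv : 1 ≤ v) : v + 2 ≤ 3 ^ v := by
  induction v, hv using Nat.le_induction with
  | base => norm_num
  | succ n _ ih => rw [pow_succ]; omega

private theorem bin_pow2 (v : ℕ) (hv : 2 ≤ v) : v + 3 ≤ 3 ^ v := by
  induction v, hv using Nat.le_induction with
  | base => norm_num
  | succ n _ ih => rw [pow_succ]; omega

private theorem bin_fac (i : ℕ) (hi : 1 ≤ i) : ∃ v u, ¬ 3 ∣ u ∧ i = 3 ^ v * u ∧ 3 ^ v ≤ i := by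
  obtain ⟨v, u, hu, he⟩ := Nat.exists_eq_pow_mul_and_not_dvd (by omega : i ≠ 0) 3 (by norm_num)
  refine ⟨v, u, hu, he, ?_⟩
  have : 1 ≤ u := Nat.pos_of_ne_zero (by rintro rfl; simp at hu)
  calc 3 ^ v = 3 ^ v * 1 := by ring
    _ ≤ 3 ^ v * u := Nat.mul_le_mul_left _ this
    _ = i := he.symm

theorem bin1 (j h i : ℕ) (hh : 3 ^ j ∣ h) (hi : 1 ≤ i) : 3 ^ j ∣ 3 ^ (i - 1) * h.choose i := by
  obtain ⟨v, u, hu, he, hle⟩ := bin_fac i hi
  have := bin_pow v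
  exact bin_gen j h i 0 v u hh hi hu he (by omega)

theorem bin2 (j h i : ℕ) (hh : 3 ^ j ∣ h) (hi : 2 ≤ i) : 3 ^ (j + 1) ∣ 3 ^ (i - 1) * h.choose i := by
  obtain ⟨v, u, hu, he, hle⟩ := bin_fac i (by omega)
  refine bin_gen j h i 1 v u hh (by omega) hu he ?_
  rcases Nat.eq_zero_or_pos v with hv | hv
  · omega
  · have := bin_pow1 v hv
    omega

theorem bin4 (j h i : ℕ) (hh : 3 ^ j ∣ h) (hi : 4 ≤ i) : 3 ^ (j + 2) ∣ 3 ^ (i - 1) * h.choose i := by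
  obtain ⟨v, u, hu, he, hle⟩ := bin_fac i (by omega)
  refine bin_gen j h i 2 v u hh (by omega) hu he ?_
  rcases Nat.lt_or_ge v 2 with hv | hv
  · interval_cases v
    · omega
    · omega
  · have := bin_pow2 v hv
    omega

private theorem bin_term (m i l : ℕ) (hil : i + l = m) (hi : 1 ≤ i) (a b : ℕ) :
    3 ^ (m - 1) * (a * b) = 3 ^ l * (3 ^ (i - 1) * a) * b := by
  have : m - 1 = l + (i - 1) := by omega
  rw [this, pow_add]
  ring

theorem binA (j h y m : ℕ) (hh : 3 ^ j ∣ h) (hm : 2 ≤ m) (hy : y < m) :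
    3 ^ (j + 1) ∣ 3 ^ (m - 1) * (h + y).choose m := by
  rw [Nat.add_choose_eq, Finset.mul_sum]
  refine Finset.dvd_sum fun p hp => ?_
  obtain ⟨i, l⟩ := p
  have hil : i + l = m := Finset.HasAntidiagonal.mem_antidiagonal.mp hp
  show 3 ^ (j + 1) ∣ 3 ^ (m - 1) * (h.choose i * y.choose l)
  rcases Nat.lt_or_ge i 1 with h1 | h1
  · have hl : l = m := by omega
    rw [hl, Nat.choose_eq_zero_of_lt hy]
    simp
  · rw [bin_term m i l hil h1]
    refine Dvd.dvd.mul_right ?_ _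
    rcases Nat.lt_or_ge i 2 with h2 | h2
    · have hi : i = 1 := by omega
      subst hi
      have hl : l = (l - 1) + 1 := by omega
      rw [hl, pow_succ 3 j, pow_succ 3 (l - 1)]
      simp only [Nat.sub_self, pow_zero, one_mul, Nat.choose_one_right]
      calc 3 ^ j * 3 ∣ h * 3 := mul_dvd_mul_right hh _
        _ ∣ 3 ^ (l - 1) * 3 * h := ⟨3 ^ (l - 1), by ring⟩
    · exact (bin2 j h i hh h2).mul_left _

theorem binB (j h y m : ℕ) (hh : 3 ^ j ∣ h) (hm : 4 ≤ m) (hy : y < m) :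
    3 ^ (j + 2) ∣ 3 ^ (m - 1) * (h + y).choose m := by
  rw [Nat.add_choose_eq, Finset.mul_sum]
  refine Finset.dvd_sum fun p hp => ?_
  obtain ⟨i, l⟩ := p
  have hil : i + l = m := Finset.HasAntidiagonal.mem_antidiagonal.mp hp
  show 3 ^ (j + 2) ∣ 3 ^ (m - 1) * (h.choose i * y.choose l)
  rcases Nat.lt_or_ge i 1 with h1 | h1
  · have hl : l = m := by omega
    rw [hl, Nat.choose_eq_zero_of_lt hy]
    simp
  · rw [bin_term m i l hil h1]
    refine Dvd.dvd.mul_right ?_ _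
    rcases Nat.lt_or_ge i 2 with h2 | h2
    · have hi : i = 1 := by omega
      subst hi
      have hl : l = (l - 2) + 2 := by omega
      rw [hl, pow_add 3 j, pow_add 3 (l - 2)]
      simp only [Nat.sub_self, pow_zero, one_mul, Nat.choose_one_right]
      calc 3 ^ j * 3 ^ 2 ∣ h * 3 ^ 2 := mul_dvd_mul_right hh _
        _ ∣ 3 ^ (l - 2) * 3 ^ 2 * h := ⟨3 ^ (l - 2), by ring⟩
    · rcases Nat.lt_or_ge i 4 with h4 | h4
      · have hl : l = (l - 1) + 1 := by omega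
        rw [hl, pow_succ 3 (l - 1)]
        calc 3 ^ (j + 2) = 3 * 3 ^ (j + 1) := by ring
          _ ∣ 3 * (3 ^ (i - 1) * h.choose i) := mul_dvd_mul_left _ (bin2 j h i hh h2)
          _ ∣ 3 ^ (l - 1) * 3 * (3 ^ (i - 1) * h.choose i) := ⟨3 ^ (l - 1), by ring⟩
      · exact (bin4 j h i hh h4).mul_left _

private theorem bin_split (h y m : ℕ) : ((h + y).choose m : ℤ) - (y.choose m : ℤ) =
    ∑ p ∈ (Finset.HasAntidiagonal.antidiagonal m).erase (0, m), ((h.choose p.1 * y.choose p.2 : ℕ) : ℤ) := by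
  have h0 : ((0, m) : ℕ × ℕ) ∈ Finset.HasAntidiagonal.antidiagonal m := by simp
  rw [Nat.add_choose_eq, ← Finset.add_sum_erase _ _ h0]
  push_cast
  simp

theorem binC (j h y m : ℕ) (hh : 3 ^ j ∣ h) :
    (3 : ℤ) ^ (j + 1) ∣ 3 ^ m * ((h + y).choose m : ℤ) - 3 ^ m * (y.choose m : ℤ) := by
  rw [← mul_sub, bin_split, Finset.mul_sum]
  refine Finset.dvd_sum fun p hp => ?_
  obtain ⟨i, l⟩ := p
  rw [Finset.mem_erase, Finset.HasAntidiagonal.mem_antidiagonal] at hp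
  obtain ⟨hne, hil⟩ := hp
  have hil : i + l = m := hil
  have h1 : 1 ≤ i := by
    by_contra hc
    have hi : i = 0 := by omega
    subst hi
    apply hne
    simp at hil
    simp [hil]
  have key : 3 ^ (j + 1) ∣ 3 ^ m * (h.choose i * y.choose l) := by
    have hm : m = (m - 1) + 1 := by omega
    rw [hm, pow_succ 3 (m - 1), mul_right_comm, bin_term m i l hil h1]
    calc 3 ^ (j + 1) = 3 ^ j * 3 := by ring
      _ ∣ (3 ^ (i - 1) * h.choose i) * 3 := mul_dvd_mul_right (bin1 j h i hh h1) _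
      _ ∣ 3 ^ l * (3 ^ (i - 1) * h.choose i) * y.choose l * 3 := ⟨3 ^ l * y.choose l, by ring⟩
  show (3 : ℤ) ^ (j + 1) ∣ 3 ^ m * ((h.choose i * y.choose l : ℕ) : ℤ)
  exact_mod_cast key

theorem binD (j h y m : ℕ) (hh : 3 ^ j ∣ h) (hm : 2 ≤ m) :
    (3 : ℤ) ^ (j + 1) ∣ 3 ^ (m - 1) * ((h + y).choose m : ℤ) - 3 ^ (m - 1) * (y.choose m : ℤ) := by
  rw [← mul_sub, bin_split, Finset.mul_sum]
  refine Finset.dvd_sum fun p hp => ?_
  obtain ⟨i, l⟩ := p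
  rw [Finset.mem_erase, Finset.HasAntidiagonal.mem_antidiagonal] at hp
  obtain ⟨hne, hil⟩ := hp
  have hil : i + l = m := hil
  have h1 : 1 ≤ i := by
    by_contra hc
    have hi : i = 0 := by omega
    subst hi
    apply hne
    simp at hil
    simp [hil]
  have key : 3 ^ (j + 1) ∣ 3 ^ (m - 1) * (h.choose i * y.choose l) := by
    rw [bin_term m i l hil h1]
    refine Dvd.dvd.mul_right ?_ _
    rcases Nat.lt_or_ge i 2 with h2 | h2
    · have hi : i = 1 := by omega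
      subst hi
      have hl : l = (l - 1) + 1 := by omega
      rw [hl, pow_succ 3 j, pow_succ 3 (l - 1)]
      simp only [Nat.sub_self, pow_zero, one_mul, Nat.choose_one_right]
      calc 3 ^ j * 3 ∣ h * 3 := mul_dvd_mul_right hh _
        _ ∣ 3 ^ (l - 1) * 3 * h := ⟨3 ^ (l - 1), by ring⟩
    · exact (bin2 j h i hh h2).mul_left _
  show (3 : ℤ) ^ (j + 1) ∣ 3 ^ (m - 1) * ((h.choose i * y.choose l : ℕ) : ℤ)
  exact_mod_cast key

end Pool.Agent.Lib.MP_06b9d2_trp
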