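import Pool.Agent.Lib.MP_06b9d2_trp.Stp

/-!
Module TRP-Blk. Block diagonalization of `B = Z A Y` over `ℤ_[3]`.

`ι` finite, `emb : Fin d → ι` injective, `Z i r = [r = emb i]`, `Y (emb i) j = [i = j]`, the other entries of `Y` are divisible by `3`; `X Y = Y (Z X Y)` for `X ∈ S`. For `X ∈ S` put `w X = Z X Y` (`d × d`). Then `w X w X' = w (X X')` (`Z X Y Z X' Y = Z X X' Y`), `w 1 = 1`
(`Z Y = 1`: from the entries), and modulo `3`: `(w X) i j ≡ X (emb i) (emb j)` (`(Z X Y) i j = ∑_r X (emb i) r Y r j`; `r = emb l` gives `X (emb i) (emb l) [l = j]`, the other `r` give multiples of `3`; split the sum over `r` by `r ∈ Set.range emb`, or compare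
`Y` with `Y1 r j = [r = emb j]` : `Y - Y1` has entries divisible by `3`, `(Z X Y1) i j = X (emb i) (emb j)`).
Let `κ s = key (emb s)`, `E_s = w (E (κ s))` etc.
(1) `E_s` is idempotent, `E_s i j ≡ [i = j ∧ κ j = κ s]`. For `κ r ≠ κ s`: `E_r E_s = 0`: `F = E_r E_s` is idempotent (the `E`'s commute, `hS.comm`), `F ≡ 0`, so `F = F ^ n` has all entries divisible by `3 ^ n` for all `n`, so `F = 0` (`F = 3 F1`, `F = F F = 9 F1 F1`..: show by induction `∀ n, ∃ G, F = 3 ^ n • G`;
an element of `ℤ_[3]` divisible by all `3 ^ n` is `0`: norm `≤ 3 ^ (-n)`).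
(2) `G` = the matrix with column `s` equal to column `s` of `E_s`: `G i s = E_s i s`. `G ≡ 1` modulo `3`, so `det G ≡ 1`, `det G` is a unit (`PadicInt.isUnit_iff`, or `¬ 3 ∣ det G`; use `RingHom.map_det` with `PadicInt.toZMod`), `G` is invertible (`Matrix.mul_nonsing_inv`): `G' = G⁻¹`, `D = G' * B * G`.
(3) `D r s = 0` for `κ r ≠ κ s`: `G D = B G`; column `s`: `v = B G e_s = B E_s e_s = E_s B e_s` (`B = w A` commutes with `E_s`), so `E_s v = v`, and `E_r' v = E_r' E_s v = 0` for `κ r' ≠ κ s`. Let `x = D e_s` (so `G x = v`). For a class `κ0 ≠ κ s`, with `E0 = w (E κ0)`: `0 = E0 v = E0 G x = ∑_t x_t E0 E_t e_t = ∑_{κ t = κ0} x_t E0 e_t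
= ∑_{κ t = κ0} x_t G e_t = G (x restricted to κ0)`, so `x` restricted to `κ0` is `0` (`G` invertible). Take `κ0 = κ r`.
(4) `κ r = κ s`: `B G e_s = B E_s e_s = h E_s e_s + 3 ^ J (w T) e_s` (apply `w` to `(A - h) E = 3 ^ J T`), so `D e_s = h e_s + 3 ^ J G⁻¹ (w T) e_s`, and `G⁻¹ ≡ 1`, `(w T) r s ≡ T (emb r) (emb s)`: `D r s = h [r = s] + 3 ^ J (T (emb r) (emb s) + 3 ·)`.
-/

namespace Pool.Agent.Lib.MP_06b9d2_trp

private theorem Blk_dvd (x : Z3) : (3 : Z3) ∣ x ↔ PadicInt.toZMod x = 0 := by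
  have h1 : x ∈ RingHom.ker (PadicInt.toZMod (p := 3)) ↔ x ∈ Ideal.span {((3 : ℕ) : Z3)} := by
    rw [PadicInt.ker_toZMod, PadicInt.maximalIdeal_eq_span_p]
  rw [RingHom.mem_ker, Ideal.mem_span_singleton] at h1
  rw [h1]
  norm_num

private theorem Blk_unit {d : ℕ} (M : Matrix (Fin d) (Fin d) Z3)
    (hM : (PadicInt.toZMod (p := 3)).mapMatrix M = 1) : IsUnit M.det := by
  have h1 : PadicInt.toZMod (p := 3) M.det = 1 := by
    rw [RingHom.map_det, hM, Matrix.det_one]
  rw [← IsLocalRing.notMem_maximalIdeal, ← PadicInt.ker_toZMod, RingHom.mem_ker, h1]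
  exact one_ne_zero

theorem blk {ι : Type} [Fintype ι] [DecidableEq ι] {S : Set (Matrix ι ι Z3)} (hS : Alg S) {A : Matrix ι ι Z3} (hA : A ∈ S) {d : ℕ}
    (emb : Fin d → ι) (hemb : Function.Injective emb) (Y : Matrix ι (Fin d) Z3) (Z : Matrix (Fin d) ι Z3)
    (hZ : ∀ i r, Z i r = if r = emb i then 1 else 0) (hY1 : ∀ i j, Y (emb i) j = if i = j then 1 else 0)
    (hY0 : ∀ r, (∀ i, r ≠ emb i) → ∀ j, (3 : Z3) ∣ Y r j) (hXY : ∀ X ∈ S, X * Y = Y * (Z * X * Y))
    (key : ι → ℤ) (J : ℕ) (E T : ℤ → Matrix ι ι Z3) (h : ℤ → Z3)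
    (hP : ∀ s : Fin d, Pc S A J (fun r => key r = key (emb s)) (E (key (emb s))) (T (key (emb s))) (h (key (emb s)))) :
    ∃ D G G' : Matrix (Fin d) (Fin d) Z3, G * G' = 1 ∧ G' * G = 1 ∧ D = G' * (Z * A * Y) * G ∧
      (∀ r s, key (emb r) ≠ key (emb s) → D r s = 0) ∧
      ∀ r s, key (emb r) = key (emb s) → (3 : Z3) ^ (J + 1) ∣
        D r s - (if r = s then h (key (emb s)) else 0) - 3 ^ J * T (key (emb s)) (emb r) (emb s) := by
  classical
  set π := (PadicInt.toZMod (p := 3)) with hπ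
  set w : Matrix ι ι Z3 → Matrix (Fin d) (Fin d) Z3 := fun X => Z * X * Y with hw
  set κ : Fin d → ℤ := fun s => key (emb s) with hκ
  -- the elementary properties of `w`
  have hZY : Z * Y = 1 := by
    ext i j
    rw [Matrix.mul_apply, Matrix.one_apply]
    simp only [hZ, ite_mul, one_mul, zero_mul, Finset.sum_ite_eq', Finset.mem_univ, if_true]
    exact hY1 i j
  have hwm : ∀ X X', X' ∈ S → w (X * X') = w X * w X' := by
    intro X X' hX'
    have h1 := hXY X' hX'
    simp only [hw]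
    calc Z * (X * X') * Y = Z * X * (X' * Y) := by simp only [Matrix.mul_assoc]
      _ = Z * X * (Y * (Z * X' * Y)) := by rw [← h1]
      _ = Z * X * Y * (Z * X' * Y) := by simp only [Matrix.mul_assoc]
  have hw1 : w 1 = 1 := by
    simp only [hw, Matrix.mul_one]
    exact hZY
  have hYc : ∀ r j, π (Y r j) = if r = emb j then 1 else 0 := by
    intro r j
    by_cases hr : ∃ i, r = emb i
    · obtain ⟨i, rfl⟩ := hr
      rw [hY1]
      by_cases hij : i = j
      · rw [if_pos hij, if_pos (by rw [hij]), map_one]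
      · rw [if_neg hij, if_neg (fun h => hij (hemb h)), map_zero]
    · push Not at hr
      rw [if_neg (hr j)]
      exact (Blk_dvd _).1 (hY0 r hr j)
  have hwe : ∀ X i j, π (w X i j) = π (X (emb i) (emb j)) := by
    intro X i j
    have h1 : w X i j = ∑ r, X (emb i) r * Y r j := by
      simp only [hw]
      rw [Matrix.mul_apply]
      refine Finset.sum_congr rfl fun r _ => ?_
      rw [Matrix.mul_apply]
      simp only [hZ, ite_mul, one_mul, zero_mul, Finset.sum_ite_eq', Finset.mem_univ, if_true]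
    rw [h1, map_sum]
    simp only [map_mul, hYc, mul_ite, mul_one, mul_zero, Finset.sum_ite_eq', Finset.mem_univ, if_true]
  -- the idempotents
  have hEm : ∀ s, E (κ s) ∈ S := fun s => (hP s).mem
  have hEi : ∀ s, w (E (κ s)) * w (E (κ s)) = w (E (κ s)) := by
    intro s
    rw [← hwm _ _ (hEm s), (hP s).idem]
  have hEπ : ∀ s, π.mapMatrix (w (E (κ s))) = Matrix.diagonal fun j => if κ j = κ s then 1 else 0 := by
    intro s
    ext i j
    rw [RingHom.mapMatrix_apply, Matrix.map_apply, hwe, Matrix.diagonal_apply]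
    by_cases hj : κ j = κ s
    · have h1 := (Blk_dvd _).1 ((hP s).red (emb i) (emb j) hj)
      rw [map_sub, sub_eq_zero] at h1
      rw [h1]
      by_cases hij : i = j
      · rw [if_pos (by rw [hij]), if_pos hij, if_pos (by rw [hij]; exact hj), map_one]
      · rw [if_neg (fun h => hij (hemb h)), if_neg hij, map_zero]
    · have h1 := (Blk_dvd _).1 ((hP s).red0 (emb i) (emb j) hj)
      rw [h1]
      by_cases hij : i = j
      · rw [if_pos hij, if_neg (by rw [hij]; exact hj)]
      · rw [if_neg hij]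
  have hcom : ∀ r s, w (E (κ r)) * w (E (κ s)) = w (E (κ s)) * w (E (κ r)) := by
    intro r s
    rw [← hwm _ _ (hEm s), ← hwm _ _ (hEm r), hS.comm _ (hEm r) _ (hEm s)]
  have horth : ∀ r s, κ r ≠ κ s → w (E (κ r)) * w (E (κ s)) = 0 := by
    intro r s hrs
    set F := w (E (κ r)) * w (E (κ s)) with hF
    have hFF : F * F = F := by
      rw [hF]
      calc w (E (κ r)) * w (E (κ s)) * (w (E (κ r)) * w (E (κ s)))
          = w (E (κ r)) * (w (E (κ s)) * w (E (κ r))) * w (E (κ s)) := by simp only [Matrix.mul_assoc]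
        _ = w (E (κ r)) * (w (E (κ r)) * w (E (κ s))) * w (E (κ s)) := by rw [hcom s r]
        _ = (w (E (κ r)) * w (E (κ r))) * (w (E (κ s)) * w (E (κ s))) := by simp only [Matrix.mul_assoc]
        _ = _ := by rw [hEi, hEi]
    have hFπ : π.mapMatrix F = 0 := by
      rw [hF, map_mul, hEπ, hEπ, Matrix.diagonal_mul_diagonal]
      rw [← Matrix.diagonal_zero]
      congr 1
      funext j
      by_cases h1 : κ j = κ r
      · rw [if_pos h1, if_neg (fun h2 => hrs (h1.symm.trans h2)), mul_zero]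
      · rw [if_neg h1, zero_mul]
    have hu : IsUnit (1 - F).det := by
      apply Blk_unit
      rw [map_sub, map_one]
      rw [show (PadicInt.toZMod (p := 3)).mapMatrix F = 0 from hFπ, sub_zero]
    have h0 : F * (1 - F) = 0 := by
      rw [mul_sub, mul_one, hFF, sub_self]
    calc F = F * ((1 - F) * (1 - F)⁻¹) := by rw [Matrix.mul_nonsing_inv _ hu, Matrix.mul_one]
      _ = (F * (1 - F)) * (1 - F)⁻¹ := (Matrix.mul_assoc _ _ _).symm
      _ = 0 := by rw [h0, Matrix.zero_mul]
  -- the matrix `G`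
  set G : Matrix (Fin d) (Fin d) Z3 := Matrix.of fun i s => w (E (κ s)) i s with hG
  have hGπ : π.mapMatrix G = 1 := by
    ext i s
    rw [RingHom.mapMatrix_apply, Matrix.map_apply, hG, Matrix.of_apply]
    have h1 := congrFun (congrFun (hEπ s) i) s
    rw [RingHom.mapMatrix_apply, Matrix.map_apply, Matrix.diagonal_apply] at h1
    rw [h1, Matrix.one_apply]
    by_cases his : i = s
    · rw [if_pos his, if_pos his, if_pos (by rw [his])]
    · rw [if_neg his, if_neg his]
  have hGu : IsUnit G.det := Blk_unit G hGπ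
  have hGG : G * G⁻¹ = 1 := Matrix.mul_nonsing_inv _ hGu
  have hGG' : G⁻¹ * G = 1 := Matrix.nonsing_inv_mul _ hGu
  have hG'π : π.mapMatrix G⁻¹ = 1 := by
    have h1 := congrArg π.mapMatrix hGG
    rw [map_mul, hGπ, one_mul, map_one] at h1
    exact h1
  have hwA : Z * A * Y = w A := rfl
  refine ⟨G⁻¹ * (Z * A * Y) * G, G, G⁻¹, hGG, hGG', rfl, ?_, ?_⟩
  · intro r s hrs
    have hrs' : ¬ κ s = κ r := fun h1 => hrs h1.symm
    set D := G⁻¹ * (Z * A * Y) * G with hD
    have hGD : G * D = w A * G := by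
      rw [hD, hwA]
      calc G * (G⁻¹ * w A * G) = (G * G⁻¹) * (w A * G) := by simp only [Matrix.mul_assoc]
        _ = w A * G := by rw [hGG, Matrix.one_mul]
    set P0 : Matrix (Fin d) (Fin d) Z3 := Matrix.diagonal fun t => if κ t = κ r then 1 else 0 with hP0
    have hEG : w (E (κ r)) * G = G * P0 := by
      ext i t
      have h1 : (w (E (κ r)) * G) i t = (w (E (κ r)) * w (E (κ t))) i t := by
        rw [Matrix.mul_apply, Matrix.mul_apply]
        rfl
      rw [h1, hP0, Matrix.mul_diagonal]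
      by_cases ht : κ t = κ r
      · rw [if_pos ht, mul_one, ht, hEi]
        change _ = w (E (κ t)) i t
        rw [ht]
      · rw [if_neg ht, mul_zero, horth r t (fun h2 => ht h2.symm)]
        rfl
    have hcA : w (E (κ r)) * w A = w A * w (E (κ r)) := by
      rw [← hwm _ _ hA, ← hwm _ _ (hEm r), hS.comm _ (hEm r) _ hA]
    have hfin : G * (P0 * D) = G * (D * P0) := by
      calc G * (P0 * D) = (G * P0) * D := by rw [Matrix.mul_assoc]
        _ = w (E (κ r)) * (G * D) := by rw [← hEG, Matrix.mul_assoc]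
        _ = w (E (κ r)) * w A * G := by rw [hGD]; exact (Matrix.mul_assoc (w (E (κ r))) (w A) G).symm
        _ = w A * (w (E (κ r)) * G) := by rw [hcA]; exact Matrix.mul_assoc (w A) (w (E (κ r))) G
        _ = (w A * G) * P0 := by rw [hEG]; exact (Matrix.mul_assoc (w A) G P0).symm
        _ = (G * D) * P0 := by rw [hGD]
        _ = G * (D * P0) := by rw [Matrix.mul_assoc]
    have hfin2 : P0 * D = D * P0 := by
      have h1 := congrArg (fun X => G⁻¹ * X) hfin
      simp only [← Matrix.mul_assoc] at h1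
      rw [hGG', Matrix.one_mul, Matrix.one_mul] at h1
      exact h1
    have h2 := congrFun (congrFun hfin2 r) s
    rw [hP0, Matrix.diagonal_mul, Matrix.mul_diagonal, if_pos rfl, if_neg hrs', one_mul, mul_zero] at h2
    exact h2
  · intro r s _
    have h1 : w A * w (E (κ s)) = h (κ s) • w (E (κ s)) + (3 : Z3) ^ J • w (T (κ s)) := by
      have h2 := (hP s).eq
      have h3 : w ((A - h (key (emb s)) • 1) * E (key (emb s))) = w A * w (E (κ s)) - h (κ s) • w (E (κ s)) := by
        rw [hwm _ _ (hEm s)]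
        have h4 : w (A - h (key (emb s)) • 1) = w A - h (κ s) • 1 := by
          rw [← hw1]
          simp only [hw, Matrix.mul_sub, Matrix.sub_mul, Matrix.mul_smul, Matrix.smul_mul]
          rfl
        rw [h4, Matrix.sub_mul, Matrix.smul_mul, Matrix.one_mul]
      rw [h2] at h3
      have h5 : w ((3 : Z3) ^ J • T (key (emb s))) = (3 : Z3) ^ J • w (T (κ s)) := by
        simp only [hw, Matrix.mul_smul, Matrix.smul_mul]
        rfl
      rw [h5] at h3
      rw [h3]
      abel
    have h2 : ∀ i, (w A * G) i s = h (κ s) * G i s + 3 ^ J * w (T (κ s)) i s := by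
      intro i
      have h3 := congrFun (congrFun h1 i) s
      have h4 : (w A * G) i s = (w A * w (E (κ s))) i s := by
        rw [Matrix.mul_apply, Matrix.mul_apply]
        rfl
      rw [h4, h3]
      rfl
    have h3 : (G⁻¹ * (Z * A * Y) * G) r s = h (κ s) * (if r = s then 1 else 0) + 3 ^ J * (G⁻¹ * w (T (κ s))) r s := by
      rw [hwA, Matrix.mul_assoc, Matrix.mul_apply]
      simp only [h2, mul_add, Finset.sum_add_distrib]
      have h4 : ∑ x, G⁻¹ r x * (h (κ s) * G x s) = h (κ s) * (G⁻¹ * G) r s := by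
        rw [Matrix.mul_apply, Finset.mul_sum]
        exact Finset.sum_congr rfl fun x _ => by ring
      have h5 : ∑ x, G⁻¹ r x * (3 ^ J * w (T (κ s)) x s) = 3 ^ J * (G⁻¹ * w (T (κ s))) r s := by
        rw [Matrix.mul_apply, Finset.mul_sum]
        exact Finset.sum_congr rfl fun x _ => by ring
      rw [h4, h5, hGG', Matrix.one_apply]
    have h4 : (3 : Z3) ∣ (G⁻¹ * w (T (κ s))) r s - T (κ s) (emb r) (emb s) := by
      rw [Blk_dvd, map_sub, sub_eq_zero]
      have h5 : π.mapMatrix (G⁻¹ * w (T (κ s))) = π.mapMatrix (w (T (κ s))) := by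
        rw [map_mul, hG'π, one_mul]
      have h6 := congrFun (congrFun h5 r) s
      rw [RingHom.mapMatrix_apply, RingHom.mapMatrix_apply, Matrix.map_apply, Matrix.map_apply, hwe] at h6
      exact h6
    obtain ⟨z, hz⟩ := h4
    refine ⟨z, ?_⟩
    have h7 : (G⁻¹ * w (T (κ s))) r s = T (κ s) (emb r) (emb s) + 3 * z := by
      rw [← hz]; ring
    rw [h3, h7]
    change h (κ s) * (if r = s then 1 else 0) + 3 ^ J * (T (κ s) (emb r) (emb s) + 3 * z) -
      (if r = s then h (κ s) else 0) - 3 ^ J * T (κ s) (emb r) (emb s) = _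
    split_ifs <;> ring

end Pool.Agent.Lib.MP_06b9d2_trp
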