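import Pool.Agent.Lib.MP_06b9d2_trp.Defs
import Mathlib

/-!
Module TRP-CmbA. Positions.

`uu_even`, `uu_odd`, `uu_sym` (`N` odd: `s` and `N - s` have different parities): clear (`Even.neg_one_pow`, `Odd.neg_one_pow`).
`key_iff`: `Int.emod_emod_of_dvd` / `Int.emod_emod_eq..`: `a % m = b % m ↔ m ∣ a - b` (`Int.emod_eq_emod_iff_emod_sub_eq_zero`, `Int.dvd_iff_emod_eq_zero`).
`cut_ex`: `j ≤ R`, `s < s' ≤ N`, `3 ^ j ∣ uu N s - uu N s'`. If `s < a` take `i = 0` (`a ≤ 1`, `s = 0`, `a = 1 ≤ s'`). Otherwise let `s = a + 3 ^ j q + x`, `x < 3 ^ j` (division of `s - a`), and suppose (by contradiction, `i = q + 1`) `s' < a + 3 ^ j (q + 1)`: `s' = a + 3 ^ j q + x'` with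
`x < x' < 3 ^ j`. Same parity of `s`, `s'`: `uu N s - uu N s' = ± 2 (s' - s)`, so `3 ^ j ∣ s' - s = x' - x` (`3 ^ j` and `2` are coprime), impossible. Different parities: `uu N s - uu N s' = ± 2 (s + s' - N)`, so `3 ^ j ∣ s + s' - N`; `N = c 3 ^ R + 2 a - 1` and `3 ^ j ∣ 3 ^ R`:
`3 ^ j ∣ x + x' + 1` with `1 ≤ x + x' + 1 < 2 * 3 ^ j`, so `x + x' + 1 = 3 ^ j`, which is odd: `x + x'` is even, so `s' - s = x' - x` is even: contradiction.
-/

namespace Pool.Agent.Lib.MP_06b9d2_trp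

theorem uu_even (N s : ℕ) (h : s % 2 = 0) : uu N s = 2 * (s : ℤ) - N := by
  unfold uu
  rw [(Nat.even_iff.2 h).neg_one_pow, one_mul]

theorem uu_odd (N s : ℕ) (h : s % 2 = 1) : uu N s = N - 2 * (s : ℤ) := by
  unfold uu
  rw [(Nat.odd_iff.2 h).neg_one_pow]
  ring

theorem uu_sym (N s : ℕ) (h : N % 2 = 1) (hs : s ≤ N) : uu N (N - s) = uu N s := by
  rcases Nat.mod_two_eq_zero_or_one s with h1 | h1
  · rw [uu_even N s h1, uu_odd N (N - s) (by omega)]
    omega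
  · rw [uu_odd N s h1, uu_even N (N - s) (by omega)]
    omega

theorem key_iff (N j : ℕ) (r s : Fin (N + 1)) : key N j r = key N j s ↔ (3 : ℤ) ^ j ∣ uu N r - uu N s := by
  unfold key
  exact Int.emod_eq_emod_iff_emod_sub_eq_zero.trans (Int.dvd_iff_emod_eq_zero).symm

theorem cut_ex {N R a c : ℕ} (hN : N + 1 = c * 3 ^ R + 2 * a) (ha : a ≤ 1) (j : ℕ) (hj : j ≤ R)
    (s s' : ℕ) (h1 : s < s') (h2 : s' ≤ N) (hd : (3 : ℤ) ^ j ∣ uu N s - uu N s') :
    ∃ i, s < 3 ^ j * i + a ∧ 3 ^ j * i + a ≤ s' := by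
  rcases Nat.lt_or_ge s a with hsa | hsa
  · exact ⟨0, by omega, by omega⟩
  have hP0 : 0 < 3 ^ j := by positivity
  have hdiv := Nat.div_add_mod (s - a) (3 ^ j)
  have hmod := Nat.mod_lt (s - a) hP0
  have hPodd : 3 ^ j % 2 = 1 := Nat.odd_iff.1 (Odd.pow (by decide))
  have hcop : IsCoprime ((3 : ℤ) ^ j) 2 := by
    apply IsCoprime.pow_left
    exact ⟨1, -1, by norm_num⟩
  obtain ⟨e, he⟩ : ∃ e : ℕ, 3 ^ R = 3 ^ j * e := by
    obtain ⟨e, he⟩ := pow_dvd_pow 3 hj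
    exact ⟨e, he⟩
  generalize hq : (s - a) / 3 ^ j = q at hdiv
  generalize hx : (s - a) % 3 ^ j = x at hdiv hmod
  refine ⟨q + 1, ?_, ?_⟩
  · rw [Nat.mul_add, mul_one]
    omega
  · rw [Nat.mul_add, mul_one]
    by_contra hlt
    have hlt' : s' < 3 ^ j * q + 3 ^ j + a := by omega
    have hPz : (((3 ^ j : ℕ)) : ℤ) = (3 : ℤ) ^ j := by push_cast; rfl
    -- the same parity
    have hsame : ¬ (3 : ℤ) ^ j ∣ ((s' : ℤ) - s) := by
      intro hc
      have := Int.le_of_dvd (by omega) hc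
      rw [← hPz] at this
      omega
    -- different parities
    have hdiff : (s + s') % 2 = 1 → ¬ (3 : ℤ) ^ j ∣ ((s : ℤ) + s' - N) := by
      intro hpar hc
      obtain ⟨x', hx'⟩ : ∃ x' : ℕ, s' = a + 3 ^ j * q + x' := ⟨s' - (a + 3 ^ j * q), by omega⟩
      have hNz : (N : ℤ) + 1 = c * ((3 : ℤ) ^ j * e) + 2 * a := by
        have : (N : ℤ) + 1 = c * (3 : ℤ) ^ R + 2 * a := by exact_mod_cast hN
        rw [this]
        have h3 : (3 : ℤ) ^ R = (3 : ℤ) ^ j * e := by exact_mod_cast he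
        rw [h3]
      have hsz : (s : ℤ) = a + (3 : ℤ) ^ j * q + x := by
        have : s = a + 3 ^ j * q + x := by omega
        exact_mod_cast this
      have hsz' : (s' : ℤ) = a + (3 : ℤ) ^ j * q + x' := by exact_mod_cast hx'
      have hc' : (3 : ℤ) ^ j ∣ ((x : ℤ) + x' + 1) := by
        have e1 : ((x : ℤ) + x' + 1) = ((s : ℤ) + s' - N) + (3 : ℤ) ^ j * (c * e - 2 * q) := by
          linear_combination hNz - hsz - hsz'
        rw [e1]
        exact dvd_add hc (dvd_mul_right _ _)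
      obtain ⟨t, ht⟩ := hc'
      rw [← hPz] at ht
      have ht0 : 0 < t := by
        by_contra hcon
        have : (((3 ^ j : ℕ)) : ℤ) * t ≤ 0 := mul_nonpos_of_nonneg_of_nonpos (by positivity) (by omega)
        omega
      have ht2 : t < 2 := by
        by_contra hcon
        have : (((3 ^ j : ℕ)) : ℤ) * 2 ≤ ((3 ^ j : ℕ) : ℤ) * t :=
          mul_le_mul_of_nonneg_left (by omega) (by positivity)
        omega
      have ht1 : t = 1 := by omega
      rw [ht1, mul_one] at ht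
      omega
    rcases Nat.mod_two_eq_zero_or_one s with h3 | h3 <;> rcases Nat.mod_two_eq_zero_or_one s' with h4 | h4
    · rw [uu_even N s h3, uu_even N s' h4] at hd
      refine hsame (hcop.dvd_of_dvd_mul_right ?_)
      have e1 : ((s' : ℤ) - s) * 2 = -(2 * (s : ℤ) - N - (2 * s' - N)) := by ring
      rw [e1]
      exact (dvd_neg).2 hd
    · rw [uu_even N s h3, uu_odd N s' h4] at hd
      refine hdiff (by omega) (hcop.dvd_of_dvd_mul_right ?_)
      have e1 : ((s : ℤ) + s' - N) * 2 = 2 * (s : ℤ) - N - (N - 2 * s') := by ring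
      rw [e1]
      exact hd
    · rw [uu_odd N s h3, uu_even N s' h4] at hd
      refine hdiff (by omega) (hcop.dvd_of_dvd_mul_right ?_)
      have e1 : ((s : ℤ) + s' - N) * 2 = -(N - 2 * (s : ℤ) - (2 * s' - N)) := by ring
      rw [e1]
      exact (dvd_neg).2 hd
    · rw [uu_odd N s h3, uu_odd N s' h4] at hd
      refine hsame (hcop.dvd_of_dvd_mul_right ?_)
      have e1 : ((s' : ℤ) - s) * 2 = N - 2 * (s : ℤ) - (N - 2 * s') := by ring
      rw [e1]
      exact hd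

end Pool.Agent.Lib.MP_06b9d2_trp
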