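import Pool.Agent.Lib.MP_06b9d2_trp.CmbA

/-!
Module TRP-CmbB. Positions `s` with `1 ≤ s ≤ (N - 1) / 4` in the same class modulo `3 ^ (R + 1)`.

Put `q = 3 ^ R ≥ 3` (odd), `N = c q + 2 a - 1`, `c ≤ 16`, `s < s' ≤ (N - 1) / 4 ≤ 4 q` (`N - 1 ≤ 16 q`), `3 q ∣ uu N s - uu N s'`.
`pr_par`: if `s`, `s'` have the same parity then `3 q ∣ 2 (s' - s)`, `s' - s = 3 q t`, `t ≥ 1`, and `s' - s` is even and `3 q` odd so `t ≥ 2`: `s' - s ≥ 6 q > 4 q`, contradiction.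
Different parities: `3 q ∣ 2 (N - s - s')`, `N - s - s' = 3 q t` (an even number, as `N`, `s + s'` are odd, so `t = 2 t'`): `N - s - s' = 6 q t'` with `N / 2 < N - s - s' < N` (`s + s' ≤ 2 ((N - 1) / 4) ≤ (N - 1) / 2`, `s + s' ≥ 1`): `c q - 1 ≤ N < 12 q t'` and `6 q t' < N ≤ c q + 1`
so `c ≤ 12 t'` (`c q - 1 < 12 q t'`, so `c q ≤ 12 q t'`) and `6 t' ≤ c` (`6 q t' ≤ c q`): `c = 8, 10`: `t' = 1`; `c = 14, 16`: `t' = 2`. [`c = 8`: `8 ≤ 12 t'`, `6 t' ≤ 8`.] So `uu N s - uu N s' = ± 12 q t'` and `9 q ∣ 12 q t'` iff `3 ∣ 4 t'`: false: `pr_not`.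
`pr_adj`: `s' = s + 1`: `2 s' - 1 = N - 6 q t' = (c - 6 t') q + 2 a - 1`, `s' = ((c - 6 t') / 2) q + a`, and `(c - 6 t') / 2 = 1, 2, 1, 2` for `c = 8, 10, 14, 16`: `= i0 c`.
`res_pos`: `C = q i0 + a`, `2 ≤ C` (`q ≥ 3`) and `C ≤ (N - 1) / 4 = (c q + 2 a - 2) / 4`: `4 q i0 + 4 a ≤ c q + 2 a - 2`, i.e. `2 a + 2 ≤ (c - 4 i0) q`, true as `c - 4 i0 = 4, 2, 10, 8` and `q ≥ 3`. `res_key`: `C - 1` and `C` have different parities, `uu N (C - 1) - uu N C = ± 2 (2 C - 1 - N)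
= ± 2 (2 i0 - c) q` and `c - 2 i0 = 6, 6, 12, 12`.
`res_prod`: `c` is even, `i0 ≤ c`: the product of the signs is `(-1) ^ (3 ^ R i0 + 1 + 3 ^ R (c - i0) + 1) = (-1) ^ (3 ^ R c + 2) = 1` and `(c - i0) i0 = 7, 16, 13, 28 ≡ 1` modulo `3`.
Use `obtain ⟨q, hq⟩ : ∃ q, q = 3 ^ R`, `q % 2 = 1` (`Nat.pow_mod` / `Odd.pow`), `3 ≤ q`, case on `c`, and `omega` (linear in `q` for each `c`).
-/

namespace Pool.Agent.Lib.MP_06b9d2_trp

variable {N R a c : ℕ}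


private theorem qfacts (R : ℕ) (hR : 1 ≤ R) : ∃ q : ℕ, 3 ^ R = q ∧ 3 ≤ q ∧ q % 2 = 1 ∧ ((3 : ℤ) ^ (R + 1) = 3 * (q : ℤ)) ∧
    ((3 : ℤ) ^ (R + 2) = 9 * (q : ℤ)) := by
  refine ⟨3 ^ R, rfl, ?_, ?_, ?_, ?_⟩
  · calc 3 = 3 ^ 1 := by norm_num
      _ ≤ 3 ^ R := Nat.pow_le_pow_right (by norm_num) hR
  · rw [Nat.pow_mod]; norm_num
  · push_cast; ring
  · push_cast; ring

theorem pr_par (hN : N + 1 = c * 3 ^ R + 2 * a) (ha : a ≤ 1) (hR : 1 ≤ R) (hc : c = 8 ∨ c = 10 ∨ c = 14 ∨ c = 16) (s s' : ℕ)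
    (h0 : 1 ≤ s) (h1 : s < s') (h2 : s' ≤ (N - 1) / 4) (hd : (3 : ℤ) ^ (R + 1) ∣ uu N s - uu N s') : s % 2 ≠ s' % 2 := by
  obtain ⟨q, hq, hq3, hqo, hz1, hz2⟩ := qfacts R hR
  rw [hq] at hN
  rw [hz1] at hd
  intro hp
  obtain ⟨t, ht⟩ := hd
  have hle : s' ≤ 4 * q := by
    rcases hc with rfl | rfl | rfl | rfl <;> omega
  have hqz : (3 : ℤ) ≤ q := by exact_mod_cast hq3
  have hlez : (s' : ℤ) ≤ 4 * q := by exact_mod_cast hle
  have h1z : (s : ℤ) < s' := by exact_mod_cast h1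
  have h0z : (1 : ℤ) ≤ s := by exact_mod_cast h0
  rcases Nat.mod_two_eq_zero_or_one s with he | ho
  · rw [uu_even N s he, uu_even N s' (by omega)] at ht
    have ht1 : t < 3 := by
      by_contra hcon
      push Not at hcon
      nlinarith
    have ht2 : -3 < t := by
      by_contra hcon
      push Not at hcon
      nlinarith
    interval_cases t <;> omega
  · rw [uu_odd N s ho, uu_odd N s' (by omega)] at ht
    have ht1 : t < 3 := by
      by_contra hcon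
      push Not at hcon
      nlinarith
    have ht2 : -3 < t := by
      by_contra hcon
      push Not at hcon
      nlinarith
    interval_cases t <;> omega

theorem pr_not (hN : N + 1 = c * 3 ^ R + 2 * a) (ha : a ≤ 1) (hR : 1 ≤ R) (hc : c = 8 ∨ c = 10 ∨ c = 14 ∨ c = 16) (s s' : ℕ)
    (h0 : 1 ≤ s) (h1 : s < s') (h2 : s' ≤ (N - 1) / 4) (hd : (3 : ℤ) ^ (R + 1) ∣ uu N s - uu N s') :
    ¬ (3 : ℤ) ^ (R + 2) ∣ uu N s - uu N s' := by
  have hpar := pr_par hN ha hR hc s s' h0 h1 h2 hd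
  obtain ⟨q, hq, hq3, hqo, hz1, hz2⟩ := qfacts R hR
  rw [hq] at hN
  rw [hz2]
  rintro ⟨t, ht⟩
  have hqz : (3 : ℤ) ≤ q := by exact_mod_cast hq3
  have hNq : N ≤ 16 * q + 1 := by
    rcases hc with rfl | rfl | rfl | rfl <;> omega
  have hNz : (N : ℤ) ≤ 16 * q + 1 := by exact_mod_cast hNq
  have hNo : N % 2 = 1 := by
    rcases hc with rfl | rfl | rfl | rfl <;> omega
  have h1z : (s : ℤ) < s' := by exact_mod_cast h1
  have h0z : (1 : ℤ) ≤ s := by exact_mod_cast h0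
  have h3z : 2 * ((s : ℤ) + s') + 1 ≤ N := by omega
  rcases Nat.mod_two_eq_zero_or_one s with he | ho
  · rw [uu_even N s he, uu_odd N s' (by omega)] at ht
    have ht1 : t < 1 := by
      by_contra hcon
      push Not at hcon
      nlinarith
    have ht2 : -4 < t := by
      by_contra hcon
      push Not at hcon
      nlinarith
    interval_cases t <;> omega
  · rw [uu_odd N s ho, uu_even N s' (by omega)] at ht
    have ht1 : t < 4 := by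
      by_contra hcon
      push Not at hcon
      nlinarith
    have ht2 : -1 < t := by
      by_contra hcon
      push Not at hcon
      nlinarith
    interval_cases t <;> omega

theorem pr_adj (hN : N + 1 = c * 3 ^ R + 2 * a) (ha : a ≤ 1) (hR : 1 ≤ R) (hc : c = 8 ∨ c = 10 ∨ c = 14 ∨ c = 16) (s : ℕ)
    (h0 : 1 ≤ s) (h2 : s + 1 ≤ (N - 1) / 4) (hd : (3 : ℤ) ^ (R + 1) ∣ uu N s - uu N (s + 1)) : s + 1 = 3 ^ R * i0 c + a := by
  obtain ⟨q, hq, hq3, hqo, hz1, hz2⟩ := qfacts R hR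
  rw [hq] at hN
  rw [hz1] at hd
  rw [hq]
  obtain ⟨t, ht⟩ := hd
  have hqz : (3 : ℤ) ≤ q := by exact_mod_cast hq3
  have hNq : N ≤ 16 * q + 1 := by
    rcases hc with rfl | rfl | rfl | rfl <;> omega
  have hNz : (N : ℤ) ≤ 16 * q + 1 := by exact_mod_cast hNq
  have hNo : N % 2 = 1 := by
    rcases hc with rfl | rfl | rfl | rfl <;> omega
  have h0z : (1 : ℤ) ≤ s := by exact_mod_cast h0
  have h3z : 4 * (s : ℤ) + 3 ≤ N := by omega
  have hkey : ∃ u : ℤ, 0 ≤ u ∧ u ≤ 11 ∧ 2 * ((N : ℤ) - 2 * s - 1) = 3 * (q : ℤ) * u := by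
    rcases Nat.mod_two_eq_zero_or_one s with he | ho
    · rw [uu_even N s he, uu_odd N (s + 1) (by omega)] at ht
      push_cast at ht
      refine ⟨-t, ?_, ?_, by linarith⟩
      · by_contra hcon
        push Not at hcon
        nlinarith
      · by_contra hcon
        push Not at hcon
        nlinarith
    · rw [uu_odd N s ho, uu_even N (s + 1) (by omega)] at ht
      push_cast at ht
      refine ⟨t, ?_, ?_, by linarith⟩
      · by_contra hcon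
        push Not at hcon
        nlinarith
      · by_contra hcon
        push Not at hcon
        nlinarith
  obtain ⟨u, hu0, hu1, hu⟩ := hkey
  rcases hc with rfl | rfl | rfl | rfl
  · have : i0 8 = 1 := by simp [i0]
    rw [this]
    interval_cases u <;> omega
  · have : i0 10 = 2 := by simp [i0]
    rw [this]
    interval_cases u <;> omega
  · have : i0 14 = 1 := by simp [i0]
    rw [this]
    interval_cases u <;> omega
  · have : i0 16 = 2 := by simp [i0]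
    rw [this]
    interval_cases u <;> omega

theorem res_pos (hN : N + 1 = c * 3 ^ R + 2 * a) (ha : a ≤ 1) (hR : 1 ≤ R) (hc : c = 8 ∨ c = 10 ∨ c = 14 ∨ c = 16) :
    2 ≤ 3 ^ R * i0 c + a ∧ 3 ^ R * i0 c + a ≤ (N - 1) / 4 := by
  obtain ⟨q, hq, hq3, hqo, hz1, hz2⟩ := qfacts R hR
  rw [hq] at hN ⊢
  rcases hc with rfl | rfl | rfl | rfl
  · have : i0 8 = 1 := by simp [i0]
    rw [this]; omega
  · have : i0 10 = 2 := by simp [i0]
    rw [this]; omega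
  · have : i0 14 = 1 := by simp [i0]
    rw [this]; omega
  · have : i0 16 = 2 := by simp [i0]
    rw [this]; omega

theorem res_key (hN : N + 1 = c * 3 ^ R + 2 * a) (ha : a ≤ 1) (hR : 1 ≤ R) (hc : c = 8 ∨ c = 10 ∨ c = 14 ∨ c = 16) :
    (3 : ℤ) ^ (R + 1) ∣ uu N (3 ^ R * i0 c + a - 1) - uu N (3 ^ R * i0 c + a) := by
  have hpos := res_pos hN ha hR hc
  obtain ⟨q, hq, hq3, hqo, hz1, hz2⟩ := qfacts R hR
  rw [hq] at hN hpos ⊢
  rw [hz1]
  have hi : (c = 8 ∧ i0 c = 1) ∨ (c = 10 ∧ i0 c = 2) ∨ (c = 14 ∧ i0 c = 1) ∨ (c = 16 ∧ i0 c = 2) := by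
    rcases hc with rfl | rfl | rfl | rfl <;> simp [i0]
  obtain ⟨C, hC⟩ : ∃ C, C = q * i0 c + a := ⟨_, rfl⟩
  rw [← hC] at hpos ⊢
  have hcq : ∃ w : ℤ, 2 * ((N : ℤ) + 1 - 2 * C) = 3 * (q : ℤ) * w := by
    rcases hi with ⟨h1, h2⟩ | ⟨h1, h2⟩ | ⟨h1, h2⟩ | ⟨h1, h2⟩
    · rw [h2] at hC; rw [h1] at hN; exact ⟨4, by omega⟩
    · rw [h2] at hC; rw [h1] at hN; exact ⟨4, by omega⟩
    · rw [h2] at hC; rw [h1] at hN; exact ⟨8, by omega⟩
    · rw [h2] at hC; rw [h1] at hN; exact ⟨8, by omega⟩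
  obtain ⟨w, hw⟩ := hcq
  have hc1 : ((C - 1 : ℕ) : ℤ) = (C : ℤ) - 1 := by omega
  rcases Nat.mod_two_eq_zero_or_one C with he | ho
  · rw [uu_odd N (C - 1) (by omega), uu_even N C he, hc1]
    exact ⟨w, by linarith⟩
  · rw [uu_even N (C - 1) (by omega), uu_odd N C ho, hc1]
    exact ⟨-w, by linarith⟩

theorem res_prod (R : ℕ) (hc : c = 8 ∨ c = 10 ∨ c = 14 ∨ c = 16) :
    (3 : ℤ) ∣ ((-1) ^ (3 ^ R * i0 c + 1) * ((c : ℤ) - (i0 c : ℕ))) *
      ((-1) ^ (3 ^ R * (c - i0 c) + 1) * ((c : ℤ) - ((c - i0 c : ℕ) : ℤ))) - 1 := by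
  have hodd : Odd (3 ^ R) := Odd.pow (by decide)
  have ho : ∀ m : ℕ, m % 2 = 1 → ((-1 : ℤ)) ^ (3 ^ R * m + 1) = 1 := by
    intro m hm
    apply Even.neg_one_pow
    exact (hodd.mul (Nat.odd_iff.mpr hm)).add_odd odd_one
  have he : ∀ m : ℕ, m % 2 = 0 → ((-1 : ℤ)) ^ (3 ^ R * m + 1) = -1 := by
    intro m hm
    apply Odd.neg_one_pow
    exact ((Nat.even_iff.mpr hm).mul_left (3 ^ R)).add_odd odd_one
  rcases hc with rfl | rfl | rfl | rfl
  · have : i0 8 = 1 := by simp [i0]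
    rw [this, ho 1 rfl, ho (8 - 1) rfl]; norm_num
  · have : i0 10 = 2 := by simp [i0]
    rw [this, he 2 rfl, he (10 - 2) rfl]; norm_num
  · have : i0 14 = 1 := by simp [i0]
    rw [this, ho 1 rfl, ho (14 - 1) rfl]; norm_num
  · have : i0 16 = 2 := by simp [i0]
    rw [this, he 2 rfl, he (16 - 2) rfl]; norm_num

end Pool.Agent.Lib.MP_06b9d2_trp
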