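import Pool.Agent.Lib.MP_06b9d2_trp.Stp

/-!
Module TRP-Cmm. Commutators.

`T = T E = E T` (`Pc_T`). `3 ^ j • (T X E - E X T) = (A - h) E X E - E X (A - h) E = E (A - h) X E - E X (A - h) E = E (A X - X A) E = 3 ^ j • (E Q E)` (`E` commutes with `A`: `hS.comm`; note `(A - h • 1) * E = E * (A - h • 1)`; and `E * X * ((A - h • 1) * E)` etc.), so `T X E - E X T = E Q E` (cancel `3 ^ j`: entrywise,
`mul_left_cancel₀ (pow_ne_zero _ ..)`). Entries `(r, s)` with `cl r`, `cl s`, modulo `3`: for any `B`: `(B E) r s ≡ B r s` if `cl s` (`∑_k B r k E k s`, `red`), `(E B) r s ≡ B r s` if `cl r`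
(`E r k ≡ [r = k]` for all `k` if `cl r`: for `cl k` by `red`; for `¬ cl k` by `red0`, and then `r ≠ k`). So `(T X) r s - (X T) r s ≡ Q r s`.
`cmm'` is the scaled form: `(A X - X A) r s = 3 ^ j Q r s`: multiply by `3 ^ j`; the existence of `Q` from `hdiv` (`choose`).
-/

namespace Pool.Agent.Lib.MP_06b9d2_trp

variable {ι : Type} [Fintype ι] [DecidableEq ι] {S : Set (Matrix ι ι Z3)} {A : Matrix ι ι Z3} {j : ℕ} {cl : ι → Prop}
  {E T : Matrix ι ι Z3} {h : Z3}

private theorem cm_r (P : Pc S A j cl E T h) (B : Matrix ι ι Z3) (r s : ι) (hs : cl s) :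
    (3 : Z3) ∣ (B * E - B) r s := by
  have h1 : (B * E - B) r s = ∑ k, B r k * (E k s - if k = s then 1 else 0) := by
    rw [Matrix.sub_apply, Matrix.mul_apply]
    simp [mul_sub, Finset.sum_sub_distrib]
  rw [h1]
  exact Finset.dvd_sum fun k _ => Dvd.dvd.mul_left (P.red k s hs) _

private theorem cm_l (P : Pc S A j cl E T h) (B : Matrix ι ι Z3) (r s : ι) (hr : cl r) :
    (3 : Z3) ∣ (E * B - B) r s := by
  have h1 : (E * B - B) r s = ∑ k, (E r k - if r = k then 1 else 0) * B k s := by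
    rw [Matrix.sub_apply, Matrix.mul_apply]
    simp [sub_mul, Finset.sum_sub_distrib]
  rw [h1]
  refine Finset.dvd_sum fun k _ => Dvd.dvd.mul_right ?_ _
  by_cases hk : cl k
  · exact P.red r k hk
  · have hrk : r ≠ k := fun h => hk (h ▸ hr)
    rw [if_neg hrk, sub_zero]
    exact P.red0 r k hk

private theorem cm_eq (hS : Alg S) (hA : A ∈ S) (P : Pc S A j cl E T h) (X Q : Matrix ι ι Z3)
    (hQ : A * X - X * A = (3 : Z3) ^ j • Q) : T * X * E - E * X * T = E * Q * E := by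
  have hc : A * E = E * A := hS.comm A hA E P.mem
  have h1 : (3 : Z3) ^ j • (T * X * E - E * X * T) = (3 : Z3) ^ j • (E * Q * E) := by
    have e1 : (3 : Z3) ^ j • (T * X * E) = (A - h • 1) * E * X * E := by
      rw [P.eq, Matrix.smul_mul, Matrix.smul_mul]
    have e2 : (3 : Z3) ^ j • (E * X * T) = E * X * ((A - h • 1) * E) := by
      rw [P.eq, Matrix.mul_smul]
    have e3 : (3 : Z3) ^ j • (E * Q * E) = E * (A * X - X * A) * E := by
      rw [hQ, Matrix.mul_smul, Matrix.smul_mul]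
    have hc' : ∀ Y : Matrix ι ι Z3, A * (E * Y) = E * (A * Y) := fun Y => by
      rw [← mul_assoc, hc, mul_assoc]
    rw [smul_sub, e1, e2, e3]
    simp only [Matrix.smul_mul, Matrix.mul_smul, sub_mul, mul_sub, one_mul, mul_assoc, hc']
    abel
  have h3 : (3 : Z3) ^ j ≠ 0 := pow_ne_zero _ (by norm_num)
  ext r s
  have h2 := congrFun (congrFun h1 r) s
  simp only [Matrix.smul_apply, smul_eq_mul] at h2
  exact mul_left_cancel₀ h3 h2

theorem cmm (hS : Alg S) (hA : A ∈ S) (P : Pc S A j cl E T h) (X Q : Matrix ι ι Z3) (hQ : A * X - X * A = (3 : Z3) ^ j • Q)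
    (r s : ι) (hr : cl r) (hs : cl s) : (3 : Z3) ∣ (T * X - X * T - Q) r s := by
  have h0 := congrFun (congrFun (cm_eq hS hA P X Q hQ) r) s
  have h1 := cm_r P (T * X) r s hs
  have h2 := cm_l P (X * T) r s hr
  have h3 := cm_r P (E * Q) r s hs
  have h4 := cm_l P Q r s hr
  have h5 : (T * X - X * T - Q) r s = ((E * (X * T) - X * T) r s + (E * Q * E - E * Q) r s +
      (E * Q - Q) r s) - (T * X * E - T * X) r s := by
    simp only [Matrix.sub_apply, ← mul_assoc] at h0 ⊢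
    linear_combination h0
  rw [h5]
  exact dvd_sub (dvd_add (dvd_add h2 h3) h4) h1

theorem cmm' (hS : Alg S) (hA : A ∈ S) (P : Pc S A j cl E T h) (X : Matrix ι ι Z3)
    (hdiv : ∀ r s, (3 : Z3) ^ j ∣ (A * X - X * A) r s) (r s : ι) (hr : cl r) (hs : cl s) :
    (3 : Z3) ^ (j + 1) ∣ 3 ^ j * (T * X - X * T) r s - (A * X - X * A) r s := by
  choose Q hQ using hdiv
  have h1 : A * X - X * A = (3 : Z3) ^ j • (Matrix.of Q) := by
    ext r s
    rw [hQ r s, Matrix.smul_apply, Matrix.of_apply, smul_eq_mul]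
  have h2 := cmm hS hA P X (Matrix.of Q) h1 r s hr hs
  have h3 : (3 : Z3) ^ j * (T * X - X * T) r s - (A * X - X * A) r s =
      3 ^ j * (T * X - X * T - Matrix.of Q) r s := by
    rw [hQ r s, Matrix.sub_apply _ (Matrix.of Q), Matrix.of_apply]
    ring
  rw [h3, pow_succ]
  exact mul_dvd_mul_left _ h2

end Pool.Agent.Lib.MP_06b9d2_trp
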