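import Mathlib

/-!
Module TRP-Cnt. The number of roots of the characteristic polynomial of a block diagonal matrix with blocks of size at most two.

`K` a field with `2 ≠ 0`. `Matrix.BlockTriangular.charpoly`: `D` is block triangular for `key` (`Matrix.BlockTriangular D key`: `key j < key i → D i j = 0`), so `D.charpoly = ∏ a ∈ univ.image key, (D.toSquareBlock key a).charpoly`; all factors are monic, so nonzero: `Polynomial.roots_prod`, `Multiset.card_bind` (or by induction on the
finset with `Polynomial.roots_mul`), and `∑ a ∈ univ.image key, card {i // key i = a} = d` (`Finset.card_eq_sum_card_image`). So it is enough to show for each block (`a = key r`): number of roots of the block `+ (if a = key p then 2 else 0) = card {i // key i = a}`.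
Block of size one: `{i // key i = a}` is a `Unique` type (or `Fintype.card = 1`): `charpoly = X - C _` (`Matrix.charpoly_of_card_eq_one`, or via reindexing to `Fin 1`: `Matrix.charpoly_reindex`), one root; here `a ≠ key p` (since `p ≠ q` are both in the class of `p`).
Block of size two (`r ≠ s` with `key r = key s = a`; by `htw` these are all the elements): reindex to `Fin 2` (`Matrix.charpoly_reindex`, `Matrix.charpoly_fin_two`): `X ^ 2 - (D r r + D s s) X + (D r r D s s - D r s D s r)`, with the discriminant `δ = (D r r - D s s) ^ 2 + 4 D r s D s r`.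
If `δ = w ^ 2`: the polynomial is `(X - C x) (X - C y)` with `x, y = (D r r + D s s ± w) / 2`: `2` roots (`Polynomial.roots_mul`, `Polynomial.roots_X_sub_C`). If `δ` is not a square there is no root: `(2 x - (D r r + D s s)) ^ 2 = δ` for a root `x`. For `a = key p` the two elements are `p`, `q` (`htw`), `hns`; otherwise `hsq`.
(`δ` is symmetric in `r`, `s`.)
-/

namespace Pool.Agent.Lib.MP_06b9d2_trp

open Polynomial Matrix Finset

theorem cnt_two {K : Type} [Field K] [DecidableEq K] (h2 : (2 : K) ≠ 0)
    (M : Matrix (Fin 2) (Fin 2) K) :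
    (IsSquare ((M 0 0 - M 1 1) ^ 2 + 4 * M 0 1 * M 1 0) → Multiset.card M.charpoly.roots = 2) ∧
    (¬ IsSquare ((M 0 0 - M 1 1) ^ 2 + 4 * M 0 1 * M 1 0) → Multiset.card M.charpoly.roots = 0) := by
  have hc : M.charpoly = X ^ 2 - C (M 0 0 + M 1 1) * X + C (M 0 0 * M 1 1 - M 0 1 * M 1 0) := by
    rw [Matrix.charpoly_fin_two, Matrix.trace_fin_two, Matrix.det_fin_two]
  constructor
  · rintro ⟨w, hw⟩
    have h : M.charpoly = (X - C ((M 0 0 + M 1 1 + w) / 2)) * (X - C ((M 0 0 + M 1 1 - w) / 2)) := by
      rw [hc]
      have e1 : M 0 0 + M 1 1 = (M 0 0 + M 1 1 + w) / 2 + (M 0 0 + M 1 1 - w) / 2 := by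
        field_simp
        ring
      have e2 : M 0 0 * M 1 1 - M 0 1 * M 1 0 =
          (M 0 0 + M 1 1 + w) / 2 * ((M 0 0 + M 1 1 - w) / 2) := by
        have h4 : (4 : K) ≠ 0 := by
          have : (4 : K) = 2 * 2 := by norm_num
          rw [this]
          exact mul_ne_zero h2 h2
        apply mul_left_cancel₀ h4
        have : 4 * ((M 0 0 + M 1 1 + w) / 2 * ((M 0 0 + M 1 1 - w) / 2)) =
            (M 0 0 + M 1 1) ^ 2 - w * w := by
          field_simp
          ring
        rw [this, ← hw]
        ring
      have key : ∀ a b : K, X ^ 2 - C (a + b) * X + C (a * b) = (X - C a) * (X - C b) := by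
        intro a b
        rw [C_add, C_mul]
        ring
      rw [← key, ← e1, ← e2]
    rw [h, Polynomial.roots_mul (mul_ne_zero (X_sub_C_ne_zero _) (X_sub_C_ne_zero _)),
      Multiset.card_add, Polynomial.roots_X_sub_C, Polynomial.roots_X_sub_C]
    simp
  · intro h
    rw [Multiset.card_eq_zero]
    refine Multiset.eq_zero_of_forall_notMem fun x hx => h ?_
    have h1 := (Polynomial.mem_roots'.1 hx).2
    rw [Polynomial.IsRoot, hc] at h1
    simp only [eval_add, eval_sub, eval_mul, eval_pow, eval_X, eval_C] at h1
    refine ⟨2 * x - (M 0 0 + M 1 1), ?_⟩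
    linear_combination (-4) * h1

theorem cnt_block {K : Type} [Field K] [DecidableEq K] (h2 : (2 : K) ≠ 0) {d : ℕ}
    (D : Matrix (Fin d) (Fin d) K) (key : Fin d → ℤ) (p q : Fin d) (hpq : p ≠ q) (hk : key p = key q)
    (htw : ∀ r s t, key r = key s → key s = key t → r = s ∨ s = t ∨ r = t)
    (hsq : ∀ r s, r ≠ s → key r = key s → key r ≠ key p → IsSquare ((D r r - D s s) ^ 2 + 4 * D r s * D s r))
    (hns : ¬ IsSquare ((D p p - D q q) ^ 2 + 4 * D p q * D q p)) (r : Fin d) :
    Multiset.card (D.toSquareBlock key (key r)).charpoly.roots + (if key r = key p then 2 else 0) =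
      Fintype.card {i // key i = key r} := by
  by_cases hs : ∃ s, s ≠ r ∧ key s = key r
  · obtain ⟨r', s, hrs, hkr, hks, hsquare⟩ : ∃ r' s : Fin d, r' ≠ s ∧ key r' = key r ∧ key s = key r ∧
        ((key r ≠ key p → IsSquare ((D r' r' - D s s) ^ 2 + 4 * D r' s * D s r')) ∧
        (key r = key p → ¬ IsSquare ((D r' r' - D s s) ^ 2 + 4 * D r' s * D s r'))) := by
      by_cases hrp : key r = key p
      · exact ⟨p, q, hpq, hrp.symm, by rw [← hk, hrp], fun h => absurd hrp h, fun _ => hns⟩
      · obtain ⟨s, h1, h3⟩ := hs
        exact ⟨r, s, h1.symm, rfl, h3, fun _ => hsq r s h1.symm h3.symm hrp, fun h => absurd h hrp⟩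
    have hall : ∀ t, key t = key r → t = r' ∨ t = s := by
      intro t ht
      rcases htw r' s t (by rw [hkr, hks]) (by rw [hks, ht]) with h | h | h
      · exact absurd h hrs
      · exact Or.inr h.symm
      · exact Or.inl h.symm
    let f : Fin 2 → {i // key i = key r} := ![⟨r', hkr⟩, ⟨s, hks⟩]
    have hf : Function.Bijective f := by
      constructor
      · intro a b hab
        fin_cases a <;> fin_cases b
        · rfl
        · exact absurd (congrArg Subtype.val hab) hrs
        · exact absurd (congrArg Subtype.val hab).symm hrs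
        · rfl
      · rintro ⟨t, ht⟩
        rcases hall t ht with h | h
        · exact ⟨0, Subtype.ext h.symm⟩
        · exact ⟨1, Subtype.ext h.symm⟩
    let e : Fin 2 ≃ {i // key i = key r} := Equiv.ofBijective f hf
    have hcard : Fintype.card {i // key i = key r} = 2 := by
      rw [← Fintype.card_congr e, Fintype.card_fin]
    have hch : (D.toSquareBlock key (key r)).charpoly =
        (Matrix.reindex e.symm e.symm (D.toSquareBlock key (key r))).charpoly :=
      (Matrix.charpoly_reindex _ _).symm
    have h00 : (Matrix.reindex e.symm e.symm (D.toSquareBlock key (key r))) 0 0 = D r' r' := rfl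
    have h01 : (Matrix.reindex e.symm e.symm (D.toSquareBlock key (key r))) 0 1 = D r' s := rfl
    have h10 : (Matrix.reindex e.symm e.symm (D.toSquareBlock key (key r))) 1 0 = D s r' := rfl
    have h11 : (Matrix.reindex e.symm e.symm (D.toSquareBlock key (key r))) 1 1 = D s s := rfl
    have ht := cnt_two h2 (Matrix.reindex e.symm e.symm (D.toSquareBlock key (key r)))
    rw [h00, h01, h10, h11] at ht
    rw [hcard, hch]
    by_cases hrp : key r = key p
    · rw [ht.2 (hsquare.2 hrp), if_pos hrp]
    · rw [ht.1 (hsquare.1 hrp), if_neg hrp]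
  · have hall : ∀ t, key t = key r → t = r := by
      intro t ht
      by_contra h
      exact hs ⟨t, h, ht⟩
    have hrp : key r ≠ key p := by
      intro h
      have e1 := hall p h.symm
      have e2 := hall q (by rw [← hk, h])
      exact hpq (e1.trans e2.symm)
    rw [if_neg hrp, add_zero]
    let u : Unique {i // key i = key r} := ⟨⟨⟨r, rfl⟩⟩, fun t => Subtype.ext (hall t.1 t.2)⟩
    have hcard : Fintype.card {i // key i = key r} = 1 := Fintype.card_eq_one_iff.2 ⟨⟨r, rfl⟩,
      fun t => Subtype.ext (hall t.1 t.2)⟩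
    have hc : (D.toSquareBlock key (key r)).charpoly = X - C (D r r) := by
      rw [Matrix.charpoly, Matrix.det_unique]
      simp [Matrix.toSquareBlock]
      rfl
    rw [hcard, hc, Polynomial.roots_X_sub_C]
    simp

theorem cnt {K : Type} [Field K] [DecidableEq K] (h2 : (2 : K) ≠ 0) {d : ℕ} (D : Matrix (Fin d) (Fin d) K) (key : Fin d → ℤ)
    (h0 : ∀ r s, key r ≠ key s → D r s = 0) (p q : Fin d) (hpq : p ≠ q) (hk : key p = key q)
    (htw : ∀ r s t, key r = key s → key s = key t → r = s ∨ s = t ∨ r = t)
    (hsq : ∀ r s, r ≠ s → key r = key s → key r ≠ key p → IsSquare ((D r r - D s s) ^ 2 + 4 * D r s * D s r))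
    (hns : ¬ IsSquare ((D p p - D q q) ^ 2 + 4 * D p q * D q p)) : Multiset.card D.charpoly.roots + 2 = d := by
  have hb : D.BlockTriangular key := fun i j hij => h0 i j (ne_of_gt hij)
  have hch := hb.charpoly
  have hne : (∏ a ∈ univ.image key, (D.toSquareBlock key a).charpoly) ≠ 0 := by
    rw [← hch]
    exact (Matrix.charpoly_monic D).ne_zero
  rw [hch, Polynomial.roots_prod _ _ hne, Multiset.card_bind]
  have hsum : ∑ a ∈ univ.image key, (Multiset.card (D.toSquareBlock key a).charpoly.roots +
      (if a = key p then 2 else 0)) = ∑ a ∈ univ.image key, Fintype.card {i // key i = a} := by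
    refine Finset.sum_congr rfl fun a ha => ?_
    obtain ⟨r, -, rfl⟩ := Finset.mem_image.1 ha
    exact cnt_block h2 D key p q hpq hk htw hsq hns r
  rw [Finset.sum_add_distrib, Finset.sum_ite_eq' (univ.image key) (key p) (fun _ => 2),
    if_pos (Finset.mem_image_of_mem key (Finset.mem_univ p))] at hsum
  have hd : ∑ a ∈ univ.image key, Fintype.card {i // key i = a} = d := by
    have := Finset.card_eq_sum_card_image key (univ : Finset (Fin d))
    rw [Finset.card_univ, Fintype.card_fin] at this
    refine Eq.trans (Finset.sum_congr rfl fun a _ => ?_) this.symm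
    rw [Fintype.card_subtype]
  exact hsum.trans hd

end Pool.Agent.Lib.MP_06b9d2_trp
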