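import Pool.Agent.Lib.MP_06b9d2_ssp.Defs

/-!
MP_06b9d2_nt, board TRP: a transposition in the Galois group of the characteristic polynomial of `T_n`. Definitions.

`N + 1 = c 3 ^ R + 2 a`, `a ≤ 1`, `k = 3 N + 1`. Paper: `/team-store/TRP_paper_helper97.md`.
-/

namespace Pool.Agent.Lib.MP_06b9d2_trp

open Finset Pool.Agent.Lib.MP_06b9d2_ssp

/-- the ring of 3-adic integers -/
abbrev Z3 : Type := ℤ_[3]

/-- the field of 3-adic numbers -/
abbrev Q3 : Type := ℚ_[3]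

/-- `4 ^ N / 3` times the matrix `Mt 1 N` of `T_2` (weight `3 N + 1`) -/
noncomputable def MZ (N j s : ℕ) : ℤ :=
  ∑ m ∈ range (N + 1), ∑ n ∈ range (N + 1),
    if s ≤ j + n ∧ 1 ≤ m + n then
      (-1) ^ s * ((N - s).choose m : ℤ) * (s.choose n : ℤ) * (-1) ^ m * 3 ^ (m + n - 1) * 2 ^ (2 * N - (m + n)) *
        (kap 1 m n).coeff (j + n - s)
    else 0

/-- the position `u_s = (-1) ^ s (2 s - N)` -/
def uu (N s : ℕ) : ℤ := (-1) ^ s * (2 * (s : ℤ) - (N : ℤ))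

/-- the congruences satisfied by the matrix `MZ N` -/
structure Fct (N R a c : ℕ) (M : ℕ → ℕ → ℤ) : Prop where
  hN : N + 1 = c * 3 ^ R + 2 * a
  ha : a ≤ 1
  hR : 1 ≤ R
  odd : N % 2 = 1
  dg : ∀ s ≤ N, ∀ s' ≤ N, (3 : ℤ) ∣ M s' s - if s' = s then uu N s else 0
  sym : ∀ s ≤ N, ∀ s' ≤ N, M (N - s') (N - s) = M s' s
  /-- entries which cross a cut upwards -/
  cut : ∀ j ≤ R, ∀ i s s', s < 3 ^ j * i + a → 3 ^ j * i + a ≤ s' → s' ≤ N → (3 : ℤ) ^ (j + 1) ∣ M s' s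
  /-- entries which cross a multiple of `3 ^ j` downwards -/
  low : ∀ j h s s', 3 ^ j ∣ h → s' < h → h ≤ s → s ≤ N → (3 : ℤ) ^ (j + 1) ∣ M s' s
  /-- translation by `h` -/
  sh : ∀ j h s s', 3 ^ j ∣ h → h % 2 = 0 → s + h ≤ N → s' + h ≤ N →
    (3 : ℤ) ^ (j + 1) ∣ M (s' + h) (s + h) - M s' s - if s' = s then (-1) ^ s * (2 * (h : ℤ)) else 0
  /-- entries which cross a cut of level `R`, not adjacent -/
  cutR : ∀ i s s', s < 3 ^ R * i + a → 3 ^ R * i + a ≤ s' → s' ≤ N → s + 1 ≠ s' → (3 : ℤ) ^ (R + 2) ∣ M s' s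
  /-- the adjacent entries -/
  adj : ∀ i, 1 ≤ 3 ^ R * i + a → 3 ^ R * i + a ≤ N →
    (3 : ℤ) ^ (R + 2) ∣ M (3 ^ R * i + a) (3 ^ R * i + a - 1) -
      3 ^ (R + 1) * ((-1) ^ (3 ^ R * i + 1) * ((c : ℤ) - i))

/-- the matrix of `M` over the 3-adic integers -/
noncomputable def MX (N : ℕ) (M : ℕ → ℕ → ℤ) : Matrix (Fin (N + 1)) (Fin (N + 1)) Z3 :=
  Matrix.of fun j s => ((M j s : ℤ) : Z3)

/-- a closed commutative algebra of 3-adic matrices, with division by `3` -/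
structure Alg {ι : Type} [Fintype ι] [DecidableEq ι] (S : Set (Matrix ι ι Z3)) : Prop where
  closed : IsClosed S
  one : 1 ∈ S
  add : ∀ X ∈ S, ∀ Y ∈ S, X + Y ∈ S
  mul : ∀ X ∈ S, ∀ Y ∈ S, X * Y ∈ S
  smul : ∀ (r : Z3), ∀ X ∈ S, r • X ∈ S
  div : ∀ X, (3 : Z3) • X ∈ S → X ∈ S
  comm : ∀ X ∈ S, ∀ Y ∈ S, X * Y = Y * X

/-- `E` is an idempotent in `S`, modulo `3` the projection to the indices in `cl`, and `T = (A - h) E / 3 ^ j` -/
structure Pc {ι : Type} [Fintype ι] [DecidableEq ι] (S : Set (Matrix ι ι Z3)) (A : Matrix ι ι Z3) (j : ℕ)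
    (cl : ι → Prop) (E T : Matrix ι ι Z3) (h : Z3) : Prop where
  mem : E ∈ S
  idem : E * E = E
  red : ∀ r s, cl s → (3 : Z3) ∣ E r s - if r = s then 1 else 0
  red0 : ∀ r s, ¬ cl s → (3 : Z3) ∣ E r s
  eq : (A - h • 1) * E = (3 : Z3) ^ j • T

/-- the class of `s` modulo `3 ^ j` -/
def key (N j : ℕ) (s : Fin (N + 1)) : ℤ := uu N s % 3 ^ j

/-- the index of the resonant cut: `C = 3 ^ R * i0 c + a` -/
def i0 (c : ℕ) : ℕ := if c = 8 ∨ c = 14 then 1 else 2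

/-- the standing assumptions -/
structure Ctx (N R a c : ℕ) (M : ℕ → ℕ → ℤ) (S : Set (Matrix (Fin (N + 1)) (Fin (N + 1)) Z3)) : Prop where
  fct : Fct N R a c M
  alg : Alg S
  mem : MX N M ∈ S

/-- coefficients of the level one forms in the basis of level three forms: column `j` is the form `Δ ^ (j + 1) ...` -/
noncomputable def Y0 (N s j : ℕ) : ℤ :=
  ((Polynomial.X : Polynomial ℤ) ^ (j + 1) * (1 + Polynomial.X) ^ ((N - 1) / 4 - (j + 1)) *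
    (1 + 9 * Polynomial.X) ^ (3 * ((N - 1) / 4 - (j + 1)) + 1) *
    (1 - 18 * Polynomial.X - 27 * Polynomial.X ^ 2) ^ ((N - 1) / 2 % 2)).coeff s

end Pool.Agent.Lib.MP_06b9d2_trp
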