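import Pool.Agent.Lib.MP_06b9d2_trp.Defs
import Pool.Agent.Lib.MP_06b9d2_ssp.Kap

/-!
Module TRP-KapD. The support of the polynomials `kap 1 m n` (checked numerically for `m, n ≤ 90`), and small cases.

`kap 1 m n = ce 1 (K m n) = 2 (y + X z)` for `K m n = th^[m] (th'^[n] (1, 0, 0)) = (x, y, z)`.
`kap_up`: call `v = (x, y, z)` bounded by `w : ℕ` if `x.coeff l = 0` for `2 l > w`, `y.coeff l = 0` for `2 l > w - 1`, i.e. `w < 2 l + 1`, and `z.coeff l = 0` for `w < 2 l + 2`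
(in this way `2 (y + X z)` has `coeff l = 0` for `2 l > w`; in fact for `w < 2 l`). Check: `th` maps bound `w` to bound `w + 1`: `2 (1 + X) y`: `coeff l` vanishes if
`w < 2 (l - 1) + 1 = 2 l - 1`, i.e. `w + 1 < 2 l` ✓.; `x - y - X z`: needs `coeff l = 0` for `w + 1 < 2 l + 1`, i.e. `w < 2 l`: `x` ✓, `y` ✓ (`w < 2 l + 1`), `X z`: `w < 2 (l - 1) + 2 = 2 l` ✓; `z - y`: needs
`coeff l = 0` for `w + 1 < 2 l + 2`, i.e. `w < 2 l + 1`: `z` ✓ (`w < 2 l + 2`), `y` ✓.
`th'` maps bound `w` to bound `w + 2`: `2 (1 + X) X z`: needs `w + 2 < 2 l` ⟹ `coeff = 0`: `X ^ 2 z`: `w < 2 (l - 2) + 2 = 2 l - 2` ✓; `X z - X y`: needs `w + 2 < 2 l + 1` (`w < 2 l - 1`): `X z`: `w < 2 l` ✓, `X y`: `w < 2 (l - 1) + 1 = 2 l - 1` ✓;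
`x + y + X z`: needs `w + 2 < 2 l + 2` (`w < 2 l`): `x` ✓ `y` ✓ `X z` ✓ (`w < 2 l`). `(1, 0, 0)` is bounded by `0`. So `K m n` is bounded by `2 n + m`.
`kap_lo`: lower supports. Say `v` is of order `w` if `x.coeff l = 0` for `2 l < w`, `y.coeff l = 0` for `2 l < w`, `z.coeff l = 0` for `2 l + 1 < w` (hence `2 (y + X z)`: `coeff l = 0` for `2 l < w` since `2 (l - 1) + 1 < w`).
`th'` maps order `w` to order `w + 1`: `2 (1 + X) X z`: needs `2 l < w + 1`, i.e. `2 (l - 1) + 1 < w` ✓ (for `X z`; for `X ^ 2 z` too); `X z - X y`: `2 l < w + 1`: `2 (l - 1) + 1 < w` ✓, `2 (l - 1) < w` ✓; `x + y + X z`: needs `2 l + 1 < w + 1`, i.e. `2 l < w` ✓.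
`th` maps order `w` to order `w`: `2 (1 + X) y` ✓; `x - y - X z`: `2 l < w` ✓ (`2 (l - 1) + 1 < w`); `z - y`: needs `2 l + 1 < w` ⟹: `z` ✓, `y` ✓. `(1, 0, 0)` has order `0`. So `K m n` has order `n`.
(Model: `Bd`, `Bd_th`, `Bd_th'`, `Bd_K` in `MP_06b9d2_ssp/Kap.lean`.) Small cases as in `kap1` there: `simp [kap, ce, K, th, th']; ring`.
-/

namespace Pool.Agent.Lib.MP_06b9d2_trp

open Pool.Agent.Lib.MP_06b9d2_ssp

/-- upper bound of the support of a triple -/
private def Bw (w : ℕ) (v : T3) : Prop := (∀ l, w < 2 * l → v.1.coeff l = 0) ∧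
    (∀ l, w < 2 * l + 1 → v.2.1.coeff l = 0) ∧ ∀ l, w < 2 * l + 2 → v.2.2.coeff l = 0

/-- lower bound of the support of a triple -/
private def Lw (w : ℕ) (v : T3) : Prop := (∀ l, 2 * l < w → v.1.coeff l = 0) ∧
    (∀ l, 2 * l < w → v.2.1.coeff l = 0) ∧ ∀ l, 2 * l + 1 < w → v.2.2.coeff l = 0

private theorem th1 (v : T3) : (th v).1 = 2 * v.2.1 + Polynomial.X * (2 * v.2.1) := by
  simp only [th]; ring

private theorem th'1 (v : T3) :
    (th' v).1 = Polynomial.X * (2 * v.2.2) + Polynomial.X * (Polynomial.X * (2 * v.2.2)) := by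
  simp only [th']; ring

private theorem Bw_th {w : ℕ} {v : T3} (h : Bw w v) : Bw (w + 1) (th v) := by
  obtain ⟨h1, h2, h3⟩ := h
  refine ⟨fun l hl => ?_, fun l hl => ?_, fun l hl => ?_⟩
  · obtain ⟨q, rfl⟩ : ∃ q, l = q + 1 := ⟨l - 1, by omega⟩
    rw [th1, Polynomial.coeff_add, Polynomial.coeff_X_mul, Polynomial.coeff_ofNat_mul,
      Polynomial.coeff_ofNat_mul, h2 _ (by omega), h2 _ (by omega)]
    simp
  · obtain ⟨q, rfl⟩ : ∃ q, l = q + 1 := ⟨l - 1, by omega⟩
    have e : (th v).2.1 = v.1 - v.2.1 - Polynomial.X * v.2.2 := rfl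
    rw [e, Polynomial.coeff_sub, Polynomial.coeff_sub, Polynomial.coeff_X_mul, h1 _ (by omega),
      h2 _ (by omega), h3 _ (by omega)]
    simp
  · have e : (th v).2.2 = v.2.2 - v.2.1 := rfl
    rw [e, Polynomial.coeff_sub, h2 _ (by omega), h3 _ (by omega)]
    simp

private theorem Bw_th' {w : ℕ} {v : T3} (h : Bw w v) : Bw (w + 2) (th' v) := by
  obtain ⟨h1, h2, h3⟩ := h
  refine ⟨fun l hl => ?_, fun l hl => ?_, fun l hl => ?_⟩
  · obtain ⟨q, rfl⟩ : ∃ q, l = q + 1 + 1 := ⟨l - 2, by omega⟩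
    rw [th'1, Polynomial.coeff_add, Polynomial.coeff_X_mul, Polynomial.coeff_X_mul,
      Polynomial.coeff_X_mul, Polynomial.coeff_ofNat_mul,
      Polynomial.coeff_ofNat_mul, h3 _ (by omega), h3 _ (by omega)]
    simp
  · obtain ⟨q, rfl⟩ : ∃ q, l = q + 1 := ⟨l - 1, by omega⟩
    have e : (th' v).2.1 = Polynomial.X * v.2.2 - Polynomial.X * v.2.1 := rfl
    rw [e, Polynomial.coeff_sub, Polynomial.coeff_X_mul, Polynomial.coeff_X_mul,
      h2 _ (by omega), h3 _ (by omega)]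
    simp
  · obtain ⟨q, rfl⟩ : ∃ q, l = q + 1 := ⟨l - 1, by omega⟩
    have e : (th' v).2.2 = v.1 + v.2.1 + Polynomial.X * v.2.2 := rfl
    rw [e, Polynomial.coeff_add, Polynomial.coeff_add, Polynomial.coeff_X_mul, h1 _ (by omega),
      h2 _ (by omega), h3 _ (by omega)]
    simp

private theorem Bw_one : Bw 0 ((1, 0, 0) : T3) := by
  refine ⟨fun l hl => ?_, fun l _ => ?_, fun l _ => ?_⟩
  · show (1 : Polynomial ℤ).coeff l = 0
    rw [Polynomial.coeff_one, if_neg (by omega)]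
  · show (0 : Polynomial ℤ).coeff l = 0
    simp
  · show (0 : Polynomial ℤ).coeff l = 0
    simp

private theorem Bw_K (m n : ℕ) : Bw (2 * n + m) (K m n) := by
  unfold K
  induction m with
  | zero =>
    induction n with
    | zero => exact Bw_one
    | succ n ih =>
      have h := Bw_th' ih
      rw [Function.iterate_zero, id] at h ⊢
      rw [Function.iterate_succ_apply', show 2 * (n + 1) + 0 = 2 * n + 0 + 2 by ring]
      exact h
  | succ m ih =>
    rw [Function.iterate_succ_apply', show 2 * n + (m + 1) = 2 * n + m + 1 by ring]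
    exact Bw_th ih

private theorem XM0 (p : Polynomial ℤ) : (Polynomial.X * p).coeff 0 = 0 := Polynomial.mul_coeff_zero _ _ |>.trans (by simp)

private theorem XMl (p : Polynomial ℤ) (l : ℕ) (h : ∀ q, l = q + 1 → p.coeff q = 0) :
    (Polynomial.X * p).coeff l = 0 := by
  rcases l with _ | q
  · exact XM0 p
  · rw [Polynomial.coeff_X_mul]
    exact h q rfl

private theorem Lw_th {w : ℕ} {v : T3} (h : Lw w v) : Lw w (th v) := by
  obtain ⟨h1, h2, h3⟩ := h
  refine ⟨fun l hl => ?_, fun l hl => ?_, fun l hl => ?_⟩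
  · rw [th1, Polynomial.coeff_add, Polynomial.coeff_ofNat_mul, h2 _ (by omega), XMl]
    · simp
    · intro q hq
      rw [Polynomial.coeff_ofNat_mul, h2 _ (by omega)]
      simp
  · have e : (th v).2.1 = v.1 - v.2.1 - Polynomial.X * v.2.2 := rfl
    rw [e, Polynomial.coeff_sub, Polynomial.coeff_sub, h1 _ (by omega),
      h2 _ (by omega), XMl _ _ (fun q hq => h3 _ (by omega))]
    simp
  · have e : (th v).2.2 = v.2.2 - v.2.1 := rfl
    rw [e, Polynomial.coeff_sub, h2 _ (by omega), h3 _ (by omega)]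
    simp

private theorem Lw_th' {w : ℕ} {v : T3} (h : Lw w v) : Lw (w + 1) (th' v) := by
  obtain ⟨h1, h2, h3⟩ := h
  refine ⟨fun l hl => ?_, fun l hl => ?_, fun l hl => ?_⟩
  · rw [th'1, Polynomial.coeff_add, XMl, XMl]
    · simp
    · intro q hq
      refine XMl _ _ fun r hr => ?_
      rw [Polynomial.coeff_ofNat_mul, h3 _ (by omega)]
      simp
    · intro q hq
      rw [Polynomial.coeff_ofNat_mul, h3 _ (by omega)]
      simp
  · have e : (th' v).2.1 = Polynomial.X * v.2.2 - Polynomial.X * v.2.1 := rfl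
    rw [e, Polynomial.coeff_sub, XMl _ _ (fun q hq => h3 _ (by omega)), XMl _ _ (fun q hq => h2 _ (by omega))]
    simp
  · have e : (th' v).2.2 = v.1 + v.2.1 + Polynomial.X * v.2.2 := rfl
    rw [e, Polynomial.coeff_add, Polynomial.coeff_add, h1 _ (by omega), h2 _ (by omega),
      XMl _ _ (fun q hq => h3 _ (by omega))]
    simp

private theorem Lw_K (m n : ℕ) : Lw n (K m n) := by
  unfold K
  induction m with
  | zero =>
    induction n with
    | zero => exact ⟨fun l hl => by omega, fun l hl => by omega, fun l hl => by omega⟩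
    | succ n ih =>
      have h := Lw_th' ih
      rw [Function.iterate_zero, id] at h ⊢
      rw [Function.iterate_succ_apply']
      exact h
  | succ m ih =>
    rw [Function.iterate_succ_apply']
    exact Lw_th ih

theorem kap_up (m n l : ℕ) (h : 2 * n + m < 2 * l) : (kap 1 m n).coeff l = 0 := by
  obtain ⟨-, h2, h3⟩ := Bw_K m n
  obtain ⟨q, rfl⟩ : ∃ q, l = q + 1 := ⟨l - 1, by omega⟩
  have e : kap 1 m n = 2 * ((K m n).2.1 + Polynomial.X * (K m n).2.2) := by
    simp [kap, ce]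
  rw [e, Polynomial.coeff_ofNat_mul, Polynomial.coeff_add, Polynomial.coeff_X_mul, h2 _ (by omega),
    h3 _ (by omega)]
  simp

theorem kap_lo (m n l : ℕ) (h : 2 * l < n) : (kap 1 m n).coeff l = 0 := by
  obtain ⟨-, h2, h3⟩ := Lw_K m n
  have e : kap 1 m n = 2 * ((K m n).2.1 + Polynomial.X * (K m n).2.2) := by
    simp [kap, ce]
  rw [e, Polynomial.coeff_ofNat_mul, Polynomial.coeff_add, h2 _ (by omega),
    XMl _ _ (fun q hq => h3 _ (by omega))]
  simp

theorem kap_20 : kap 1 2 0 = -(2 * (1 + Polynomial.X)) := by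
  simp [kap, ce, K, th, th']
  try ring

theorem kap_11 : kap 1 1 1 = 0 := by
  simp [kap, ce, K, th, th']
  try ring

theorem kap_30 : kap 1 3 0 = 6 * (1 + Polynomial.X) := by
  simp [kap, ce, K, th, th']
  try ring

end Pool.Agent.Lib.MP_06b9d2_trp
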