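import Pool.Agent.Lib.MP_06b9d2_trp.Bin
import Pool.Agent.Lib.MP_06b9d2_trp.KapD
import Pool.Agent.Lib.MP_06b9d2_ssp.Kap

/-!
Module TRP-FctA. The first congruences for `MZ N`.

The term `(m, n)` of `MZ N s' s` is `± C(N - s, m) C(s, n) 3 ^ (m + n - 1) 2 ^ (..) (kap 1 m n).coeff (s' + n - s)` (if `s ≤ s' + n`, `1 ≤ m + n`). All divisibilities: `Finset.dvd_sum`, term by term.
`f_low`: `s' < h ≤ s`: by `kap_lo` with `l = s' + n - s` the term vanishes unless `n ≤ 2 l`, i.e. `2 (s - s') ≤ n` (as `s' + n ≥ s`). Put `p = s - h`: `n ≥ 2 (s - s') ≥ 2 (p + 1) > p`, `n ≥ 2`: `binA j h p n`: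
`3 ^ (j + 1) ∣ 3 ^ (n - 1) C(h + p, n)`, and `3 ^ (m + n - 1) = 3 ^ m 3 ^ (n - 1)`.
`f_cut`: `C = 3 ^ j i + a`, `s < C ≤ s' ≤ N`. By `kap_up` with `l = s' + n - s` the term vanishes unless `2 l ≤ 2 n + m`, i.e. `2 (s' - s) ≤ m`. `N - s = h + y` with `h = N + 1 - 2 a - 3 ^ j i`
(`= c 3 ^ R - 3 ^ j i`, divisible by `3 ^ j` as `j ≤ R`; it is `≥ 0`: if `3 ^ j i > c 3 ^ R` then `3 ^ j i ≥ c 3 ^ R + 3 ^ j ≥ c 3 ^ R + 1`, and `3 ^ j i + a ≤ N = c 3 ^ R + 2 a - 1` gives `1 + a ≤ 2 a - 1`, `a ≥ 2`, a contradiction)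
and `y = C - 1 - s + a`. `m ≥ 2 (s' - s) ≥ 2 (C - s)` so `m ≥ 2` and `y = (C - s) - 1 + a ≤ C - s < m`: `binA j h y m`. `f_cutR`: the same with `j = R`, `s' - s ≥ 2`: `m ≥ 4`: `binB`. (Do the common part once.)
`f_dg`: modulo `3` only the terms `m + n = 1` remain: `(m, n) = (1, 0)`: `kap 1 1 0 = 2`: `(-1) ^ s (N - s) (-1) 2 ^ (2 N - 1) * 2 * [s' = s]`; `(0, 1)`: `kap 1 0 1 = 2 X`: `(-1) ^ s s 2 ^ (2 N - 1) * 2 * [s' + 1 - s = 1]`. The sum is
`(-1) ^ s 4 ^ N (2 s - N) [s' = s]` (for `N ≥ 1`; for `N = 0`: `s = s' = 0`, `MZ = 0`, `uu 0 0 = 0`), and `3 ∣ 4 ^ N - 1`. (`kap1` in `MP_06b9d2_ssp/Kap.lean`.) Suggestion: first the private lemma: `3 ∣ MZ N s' s - t(1,0) - t(0,1)` where `t(m, n)` is the term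
(split the double sum with `Finset.sum_eq_single` on `ZMod 3`, or: `MZ - t(1,0) - t(0,1) = ∑∑ (term - if (m,n) = (1,0) ∨ (m,n) = (0,1) then term else 0)`, every summand is divisible by `3`). `kap 1 0 0 = 0` is not needed (`1 ≤ m + n`).
-/

namespace Pool.Agent.Lib.MP_06b9d2_trp

open Finset Pool.Agent.Lib.MP_06b9d2_ssp

/-- the term of `MZ` -/
private noncomputable def tm (N s' s m n : ℕ) : ℤ :=
  if s ≤ s' + n ∧ 1 ≤ m + n then
    (-1) ^ s * ((N - s).choose m : ℤ) * (s.choose n : ℤ) * (-1) ^ m * 3 ^ (m + n - 1) * 2 ^ (2 * N - (m + n)) *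
      (kap 1 m n).coeff (s' + n - s)
  else 0

private theorem MZ_tm (N s' s : ℕ) :
    MZ N s' s = ∑ m ∈ range (N + 1), ∑ n ∈ range (N + 1), tm N s' s m n := rfl

private theorem tm_dvd (N s' s m n : ℕ) (h : 2 ≤ m + n) : (3 : ℤ) ∣ tm N s' s m n := by
  unfold tm
  split_ifs
  · have h1 : m + n - 1 = (m + n - 2) + 1 := by omega
    rw [h1, pow_succ]
    exact ⟨(-1) ^ s * ((N - s).choose m : ℤ) * (s.choose n : ℤ) * (-1) ^ m * 3 ^ (m + n - 2) *
      2 ^ (2 * N - (m + n)) * (kap 1 m n).coeff (s' + n - s), by ring⟩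
  · exact dvd_zero _

private theorem tm_zero (N s' s : ℕ) : tm N s' s 0 0 = 0 := by
  unfold tm
  rw [if_neg (by omega)]

private theorem tm_10 (N s' s : ℕ) :
    tm N s' s 1 0 = if s' = s then -((-1) ^ s * ((N - s : ℕ) : ℤ) * 2 ^ (2 * N - 1) * 2) else 0 := by
  unfold tm
  rw [kap1.2.1]
  by_cases h : s' = s
  · subst h
    rw [if_pos (by omega), if_pos rfl]
    have e : (2 : Polynomial ℤ).coeff (s' + 0 - s') = 2 := by
      rw [Nat.add_zero, Nat.sub_self]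
      exact Polynomial.coeff_ofNat_zero 2
    rw [e, Nat.choose_one_right, Nat.choose_zero_right]
    simp
  · rw [if_neg h]
    split_ifs with h1
    · have e : (2 : Polynomial ℤ).coeff (s' + 0 - s) = 0 := by
        obtain ⟨l, hl⟩ : ∃ l, s' + 0 - s = l + 1 := ⟨s' - s - 1, by omega⟩
        rw [hl]
        exact Polynomial.coeff_ofNat_succ 2 l
      rw [e, mul_zero]
    · rfl

private theorem tm_01 (N s' s : ℕ) :
    tm N s' s 0 1 = if s' = s then (-1) ^ s * (s : ℤ) * 2 ^ (2 * N - 1) * 2 else 0 := by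
  unfold tm
  rw [kap1.2.2]
  have h2 : ∀ l, (2 * Polynomial.X : Polynomial ℤ).coeff l = if l = 1 then 2 else 0 := by
    intro l
    rw [mul_comm, Polynomial.coeff_mul_ofNat, Polynomial.coeff_X]
    split_ifs <;> omega
  rw [h2]
  by_cases h : s' = s
  · subst h
    rw [if_pos (by omega), if_pos rfl, if_pos (by omega)]
    simp
  · rw [if_neg h]
    split_ifs with h1 h3
    · omega
    · simp
    · rfl

theorem f_dg (N s s' : ℕ) (hs : s ≤ N) (hs' : s' ≤ N) : (3 : ℤ) ∣ MZ N s' s - if s' = s then uu N s else 0 := by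
  rcases Nat.eq_zero_or_pos N with hN | hN
  · subst hN
    have h1 : s = 0 := by omega
    have h2 : s' = 0 := by omega
    subst h1; subst h2
    rw [MZ_tm]
    simp [tm_zero, uu]
  have key : MZ N s' s - tm N s' s 1 0 - tm N s' s 0 1 = ∑ m ∈ range (N + 1), ∑ n ∈ range (N + 1),
      (tm N s' s m n - (if m = 1 then (if n = 0 then tm N s' s 1 0 else 0) else 0) -
        (if m = 0 then (if n = 1 then tm N s' s 0 1 else 0) else 0)) := by
    rw [MZ_tm]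
    simp only [Finset.sum_sub_distrib]
    congr 1
    · congr 1
      have e1 : ∀ m, ∑ n ∈ range (N + 1), (if m = 1 then (if n = 0 then tm N s' s 1 0 else 0) else 0) =
          if m = 1 then tm N s' s 1 0 else 0 := by
        intro m
        split_ifs
        · rw [Finset.sum_ite_eq' (range (N + 1)) 0 (fun _ => tm N s' s 1 0), if_pos (by simp)]
        · simp
      simp only [e1]
      rw [Finset.sum_ite_eq' (range (N + 1)) 1 (fun _ => tm N s' s 1 0), if_pos (by rw [mem_range]; omega)]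
    · have e1 : ∀ m, ∑ n ∈ range (N + 1), (if m = 0 then (if n = 1 then tm N s' s 0 1 else 0) else 0) =
          if m = 0 then tm N s' s 0 1 else 0 := by
        intro m
        split_ifs
        · rw [Finset.sum_ite_eq' (range (N + 1)) 1 (fun _ => tm N s' s 0 1), if_pos (by rw [mem_range]; omega)]
        · simp
      simp only [e1]
      rw [Finset.sum_ite_eq' (range (N + 1)) 0 (fun _ => tm N s' s 0 1), if_pos (by simp)]
  have hdvd : (3 : ℤ) ∣ MZ N s' s - tm N s' s 1 0 - tm N s' s 0 1 := by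
    rw [key]
    refine Finset.dvd_sum fun m _ => Finset.dvd_sum fun n _ => ?_
    rcases Nat.lt_or_ge (m + n) 2 with h | h
    · have h3 : (m = 0 ∧ n = 0) ∨ (m = 1 ∧ n = 0) ∨ (m = 0 ∧ n = 1) := by omega
      rcases h3 with ⟨rfl, rfl⟩ | ⟨rfl, rfl⟩ | ⟨rfl, rfl⟩
      · simp [tm_zero]
      · simp
      · simp
    · have e1 : (if m = 1 then (if n = 0 then tm N s' s 1 0 else 0) else 0) = 0 := by
        split_ifs <;> omega
      have e2 : (if m = 0 then (if n = 1 then tm N s' s 0 1 else 0) else 0) = 0 := by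
        split_ifs <;> omega
      rw [e1, e2, sub_zero, sub_zero]
      exact tm_dvd N s' s m n h
  rw [tm_10, tm_01] at hdvd
  by_cases h : s' = s
  · rw [if_pos h] at hdvd ⊢
    rw [if_pos h] at hdvd
    have h4 : (3 : ℤ) ∣ 4 ^ N - 1 := by
      have h5 := sub_dvd_pow_sub_pow (4 : ℤ) 1 N
      rw [one_pow] at h5
      norm_num at h5
      exact h5
    have h6 : (2 : ℤ) ^ (2 * N - 1) * 2 = 4 ^ N := by
      rw [← pow_succ, show 2 * N - 1 + 1 = 2 * N by omega, pow_mul]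
      norm_num
    have h7 : MZ N s' s - uu N s = (MZ N s' s - -((-1) ^ s * ((N - s : ℕ) : ℤ) * 2 ^ (2 * N - 1) * 2) -
        (-1) ^ s * (s : ℤ) * 2 ^ (2 * N - 1) * 2) + (4 ^ N - 1) * uu N s := by
      unfold uu
      rw [Nat.cast_sub hs, ← h6]
      ring
    rw [h7]
    exact dvd_add hdvd (h4.mul_right _)
  · rw [if_neg h] at hdvd ⊢
    rw [if_neg h, sub_zero] at hdvd
    exact hdvd

theorem f_low (N j h s s' : ℕ) (hh : 3 ^ j ∣ h) (h1 : s' < h) (h2 : h ≤ s) (h3 : s ≤ N) :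
    (3 : ℤ) ^ (j + 1) ∣ MZ N s' s := by
  rw [MZ_tm]
  refine Finset.dvd_sum fun m _ => Finset.dvd_sum fun n _ => ?_
  unfold tm
  split_ifs with hc
  · rcases Nat.lt_or_ge n (2 * (s - s')) with hn | hn
    · rw [kap_lo m n (s' + n - s) (by omega), mul_zero]
      exact dvd_zero _
    · have h4 : 3 ^ (j + 1) ∣ 3 ^ (n - 1) * (h + (s - h)).choose n :=
        binA j h (s - h) n hh (by omega) (by omega)
      rw [show h + (s - h) = s by omega] at h4
      have h5 : (3 : ℤ) ^ (j + 1) ∣ 3 ^ (n - 1) * (s.choose n : ℤ) := by exact_mod_cast h4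
      have h6 : (3 : ℤ) ^ (m + n - 1) = 3 ^ m * 3 ^ (n - 1) := by
        rw [← pow_add]; congr 1; omega
      rw [h6]
      have h7 : (-1) ^ s * ((N - s).choose m : ℤ) * (s.choose n : ℤ) * (-1) ^ m * (3 ^ m * 3 ^ (n - 1)) *
          2 ^ (2 * N - (m + n)) * (kap 1 m n).coeff (s' + n - s) =
          (3 ^ (n - 1) * (s.choose n : ℤ)) * ((-1) ^ s * ((N - s).choose m : ℤ) * (-1) ^ m * 3 ^ m *
            2 ^ (2 * N - (m + n)) * (kap 1 m n).coeff (s' + n - s)) := by ring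
      rw [h7]
      exact h5.mul_right _
  · exact dvd_zero _

private theorem cut_hy {N R a c : ℕ} (hN : N + 1 = c * 3 ^ R + 2 * a) (ha : a ≤ 1) (j : ℕ) (hj : j ≤ R) (i s s' : ℕ)
    (h1 : s < 3 ^ j * i + a) (h2 : 3 ^ j * i + a ≤ s') (h3 : s' ≤ N) :
    ∃ h y, 3 ^ j ∣ h ∧ N - s = h + y ∧ y ≤ s' - s := by
  obtain ⟨e, he⟩ : 3 ^ j ∣ c * 3 ^ R := (pow_dvd_pow 3 hj).mul_left c
  have hpos : 0 < 3 ^ j := by positivity
  have hle : i ≤ e := by
    by_contra hc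
    have h4 : 3 ^ j * (e + 1) ≤ 3 ^ j * i := Nat.mul_le_mul_left _ (by omega)
    rw [mul_add, mul_one, ← he] at h4
    omega
  have h5 : 3 ^ j * i ≤ 3 ^ j * e := Nat.mul_le_mul_left _ hle
  refine ⟨3 ^ j * (e - i), 3 ^ j * i + a - 1 - s + a, dvd_mul_right _ _, ?_, ?_⟩
  · rw [Nat.mul_sub]
    omega
  · omega

private theorem cut_gen (N s' s : ℕ) {t : ℕ} (hss : s < s')
    (H : ∀ m, 2 * (s' - s) ≤ m → 3 ^ t ∣ 3 ^ (m - 1) * (N - s).choose m) : (3 : ℤ) ^ t ∣ MZ N s' s := by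
  rw [MZ_tm]
  refine Finset.dvd_sum fun m _ => Finset.dvd_sum fun n _ => ?_
  unfold tm
  split_ifs with hc
  · rcases Nat.lt_or_ge m (2 * (s' - s)) with hn | hn
    · rw [kap_up m n (s' + n - s) (by omega), mul_zero]
      exact dvd_zero _
    · have h4 := H m hn
      have h5 : (3 : ℤ) ^ t ∣ 3 ^ (m - 1) * ((N - s).choose m : ℤ) := by exact_mod_cast h4
      have h6 : (3 : ℤ) ^ (m + n - 1) = 3 ^ n * 3 ^ (m - 1) := by
        rw [← pow_add]; congr 1; omega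
      rw [h6]
      have h7 : (-1) ^ s * ((N - s).choose m : ℤ) * (s.choose n : ℤ) * (-1) ^ m * (3 ^ n * 3 ^ (m - 1)) *
          2 ^ (2 * N - (m + n)) * (kap 1 m n).coeff (s' + n - s) =
          (3 ^ (m - 1) * ((N - s).choose m : ℤ)) * ((-1) ^ s * (s.choose n : ℤ) * (-1) ^ m * 3 ^ n *
            2 ^ (2 * N - (m + n)) * (kap 1 m n).coeff (s' + n - s)) := by ring
      rw [h7]
      exact h5.mul_right _
  · exact dvd_zero _

theorem f_cut {N R a c : ℕ} (hN : N + 1 = c * 3 ^ R + 2 * a) (ha : a ≤ 1) (j : ℕ) (hj : j ≤ R) (i s s' : ℕ)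
    (h1 : s < 3 ^ j * i + a) (h2 : 3 ^ j * i + a ≤ s') (h3 : s' ≤ N) : (3 : ℤ) ^ (j + 1) ∣ MZ N s' s := by
  obtain ⟨h, y, hh, hy, hy'⟩ := cut_hy hN ha j hj i s s' h1 h2 h3
  refine cut_gen N s' s (by omega) fun m hm => ?_
  rw [hy]
  exact binA j h y m hh (by omega) (by omega)

theorem f_cutR {N R a c : ℕ} (hN : N + 1 = c * 3 ^ R + 2 * a) (ha : a ≤ 1) (i s s' : ℕ)
    (h1 : s < 3 ^ R * i + a) (h2 : 3 ^ R * i + a ≤ s') (h3 : s' ≤ N) (h4 : s + 1 ≠ s') :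
    (3 : ℤ) ^ (R + 2) ∣ MZ N s' s := by
  obtain ⟨h, y, hh, hy, hy'⟩ := cut_hy hN ha R le_rfl i s s' h1 h2 h3
  refine cut_gen N s' s (by omega) fun m hm => ?_
  rw [hy]
  exact binB R h y m hh (by omega) (by omega)

end Pool.Agent.Lib.MP_06b9d2_trp
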