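import Pool.Agent.Lib.MP_06b9d2_trp.Bin
import Pool.Agent.Lib.MP_06b9d2_trp.KapD
import Pool.Agent.Lib.MP_06b9d2_ssp.Kap

/-!
Module TRP-FctB. Translation by `h` (`3 ^ j ∣ h`, `h` even).

The condition `s ≤ s' + n` and the coefficient index `s' + n - s` do not change if `s`, `s'` are replaced by `s + h`, `s' + h`; `(-1) ^ (s + h) = (-1) ^ s`. With `y = N - s - h` (so `N - s = h + y`), `x = s`:
`MZ (s' + h) (s + h) - MZ s' s = ∑_{m, n} (-1) ^ s (-1) ^ m 2 ^ (2 N - (m + n)) coeff * 3 ^ (m + n - 1) (C(y, m) C(h + x, n) - C(h + y, m) C(x, n))`.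
Modulo `3 ^ (j + 1)`:
- `m ≥ 2`: `3 ^ (m + n - 1) = 3 ^ (m - 1) 3 ^ n`: `3 ^ (m - 1) C(h + y, m) ≡ 3 ^ (m - 1) C(y, m)` (`binD`) and `3 ^ n C(h + x, n) ≡ 3 ^ n C(x, n)` (`binC`): the difference is `≡ 0`. `n ≥ 2`: the same with `3 ^ m` and `3 ^ (n - 1)`.
- `m = n = 1`: `3 (y (h + x) - (h + y) x) = 3 h (y - x) ≡ 0` (also `kap 1 1 1 = 0`, `kap_11`).
- `(m, n) = (1, 0)`: `kap 1 1 0 = 2`, coefficient `2 [s' = s]` (given `s ≤ s'`; index `s' - s`): `(-1) ^ s (-1) 2 ^ (2 N - 1) * 2 * (y - (h + y)) [s' = s] = (-1) ^ s 4 ^ N h [s' = s]`.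
- `(0, 1)`: `kap 1 0 1 = 2 X`, index `s' + 1 - s`, coefficient `2 [s' = s]`: `(-1) ^ s 2 ^ (2 N - 1) * 2 * ((h + x) - x) = (-1) ^ s 4 ^ N h [s' = s]`.
The sum is `2 (-1) ^ s 4 ^ N h [s' = s]`, and `4 ^ N ≡ 1` modulo `3`, `3 ^ j ∣ h`. (`N ≥ 1`: if `N = 0` then `h = 0` and everything is `0`. `2 ^ (2 N - 1) * 2 = 4 ^ N` for `N ≥ 1`.)
Suggestion: show for each `(m, n)`: `3 ^ (j + 1) ∣ term (s' + h) (s + h) - term s' s - (if (m, n) = (1, 0) ∨ (m, n) = (0, 1) then (if s' = s then (-1) ^ s * 4 ^ N * h else 0) else 0)` and sum (`Finset.dvd_sum`; the sum of the last terms: `Finset.sum_ite_eq` after rewriting, or evaluate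
`∑ m ∈ range (N + 1), ∑ n ∈ range (N + 1), if (m = 1 ∧ n = 0) ∨ (m = 0 ∧ n = 1) then z else 0 = 2 z` for `N ≥ 1` as a private lemma).
-/

namespace Pool.Agent.Lib.MP_06b9d2_trp

open Finset Pool.Agent.Lib.MP_06b9d2_ssp

/-- the difference of two products of binomial coefficients -/
private theorem fsh_prod (j h x y m n : ℕ) (hh : 3 ^ j ∣ h) (hmn : 2 ≤ m ∨ 2 ≤ n ∨ (m = 1 ∧ n = 1)) :
    (3 : ℤ) ^ (j + 1) ∣ 3 ^ (m + n - 1) *
      ((y.choose m : ℤ) * ((h + x).choose n : ℤ) - ((h + y).choose m : ℤ) * (x.choose n : ℤ)) := by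
  rcases hmn with hm | hn | ⟨rfl, rfl⟩
  · have e : m + n - 1 = (m - 1) + n := by omega
    have hC := binC j h x n hh
    have hD := binD j h y m hh hm
    have key : (3 : ℤ) ^ (m + n - 1) *
        ((y.choose m : ℤ) * ((h + x).choose n : ℤ) - ((h + y).choose m : ℤ) * (x.choose n : ℤ)) =
        (3 ^ (m - 1) * (y.choose m : ℤ)) * (3 ^ n * ((h + x).choose n : ℤ) - 3 ^ n * (x.choose n : ℤ)) -
        (3 ^ (m - 1) * ((h + y).choose m : ℤ) - 3 ^ (m - 1) * (y.choose m : ℤ)) * (3 ^ n * (x.choose n : ℤ)) := by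
      rw [e, pow_add]
      ring
    rw [key]
    exact dvd_sub (hC.mul_left _) (hD.mul_right _)
  · have e : m + n - 1 = m + (n - 1) := by omega
    have hC := binC j h y m hh
    have hD := binD j h x n hh hn
    have key : (3 : ℤ) ^ (m + n - 1) *
        ((y.choose m : ℤ) * ((h + x).choose n : ℤ) - ((h + y).choose m : ℤ) * (x.choose n : ℤ)) =
        (3 ^ m * (y.choose m : ℤ)) * (3 ^ (n - 1) * ((h + x).choose n : ℤ) - 3 ^ (n - 1) * (x.choose n : ℤ)) -
        (3 ^ m * ((h + y).choose m : ℤ) - 3 ^ m * (y.choose m : ℤ)) * (3 ^ (n - 1) * (x.choose n : ℤ)) := by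
      rw [e, pow_add]
      ring
    rw [key]
    exact dvd_sub (hD.mul_left _) (hC.mul_right _)
  · have h1 : (3 : ℤ) ^ j ∣ (h : ℤ) := by exact_mod_cast hh
    simp only [Nat.choose_one_right]
    have key : (3 : ℤ) ^ (1 + 1 - 1) * ((y : ℤ) * ((h + x : ℕ) : ℤ) - ((h + y : ℕ) : ℤ) * x) = (h : ℤ) * 3 * ((y : ℤ) - x) := by
      push_cast
      ring
    rw [key, pow_succ]
    exact (mul_dvd_mul_right h1 3).mul_right _

/-- the sum of the two exceptional terms -/
private theorem fsh_sum (N : ℕ) (hN : 1 ≤ N) (z : ℤ) :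
    (∑ m ∈ range (N + 1), ∑ n ∈ range (N + 1), if (m = 1 ∧ n = 0) ∨ (m = 0 ∧ n = 1) then z else 0) = 2 * z := by
  have h1 : ∀ m n : ℕ, (if (m = 1 ∧ n = 0) ∨ (m = 0 ∧ n = 1) then z else 0) =
      (if m = 1 then (if n = 0 then z else 0) else 0) + (if m = 0 then (if n = 1 then z else 0) else 0) := by
    intro m n
    by_cases a1 : m = 1
    · subst a1
      simp
    · by_cases a0 : m = 0
      · subst a0
        simp
      · simp [a1, a0]
  simp only [h1, Finset.sum_add_distrib]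
  have h2 : (∑ m ∈ range (N + 1), ∑ n ∈ range (N + 1), if m = 1 then (if n = 0 then z else 0) else 0) = z := by
    rw [Finset.sum_eq_single 1]
    · simp
    · intro b _ hb
      simp [hb]
    · intro hb
      exact absurd (Finset.mem_range.mpr (by omega)) hb
  have h3 : (∑ m ∈ range (N + 1), ∑ n ∈ range (N + 1), if m = 0 then (if n = 1 then z else 0) else 0) = z := by
    rw [Finset.sum_eq_single 0]
    · simp only [if_true]
      rw [Finset.sum_eq_single 1]
      · simp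
      · intro b _ hb
        simp [hb]
      · intro hb
        exact absurd (Finset.mem_range.mpr (by omega)) hb
    · intro b _ hb
      simp [hb]
    · intro hb
      exact absurd (Finset.mem_range.mpr (by omega)) hb
  rw [h2, h3]
  ring

/-- one term -/
private theorem fsh_term (N j h s s' m n : ℕ) (hN : 1 ≤ N) (hh : 3 ^ j ∣ h) (h2 : h % 2 = 0) (h3 : s + h ≤ N) :
    (3 : ℤ) ^ (j + 1) ∣
      ((if s + h ≤ s' + h + n ∧ 1 ≤ m + n then
        (-1) ^ (s + h) * ((N - (s + h)).choose m : ℤ) * ((s + h).choose n : ℤ) * (-1) ^ m * 3 ^ (m + n - 1) *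
          2 ^ (2 * N - (m + n)) * (kap 1 m n).coeff (s' + h + n - (s + h)) else 0) -
      (if s ≤ s' + n ∧ 1 ≤ m + n then
        (-1) ^ s * ((N - s).choose m : ℤ) * (s.choose n : ℤ) * (-1) ^ m * 3 ^ (m + n - 1) * 2 ^ (2 * N - (m + n)) *
          (kap 1 m n).coeff (s' + n - s) else 0)) -
      (if (m = 1 ∧ n = 0) ∨ (m = 0 ∧ n = 1) then (if s' = s then (-1) ^ s * 2 ^ (2 * N) * (h : ℤ) else 0) else 0) := by
  have hs : ((-1 : ℤ)) ^ (s + h) = (-1) ^ s := by
    rw [pow_add, (Nat.even_iff.mpr h2).neg_one_pow, mul_one]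
  have hi : s' + h + n - (s + h) = s' + n - s := by omega
  obtain ⟨y, hy⟩ : ∃ y, y = N - (s + h) := ⟨_, rfl⟩
  have hy2 : N - s = h + y := by omega
  have hc : (s + h ≤ s' + h + n ∧ 1 ≤ m + n) ↔ (s ≤ s' + n ∧ 1 ≤ m + n) := by
    constructor <;> rintro ⟨a, b⟩ <;> exact ⟨by omega, b⟩
  rw [hs, hi, ← hy, hy2, if_congr hc rfl rfl, Nat.add_comm s h]
  have h2N : (2 : ℤ) ^ (2 * N) = 2 ^ (2 * N - 1) * 2 := by
    rw [← pow_succ]
    congr 1
    omega
  by_cases hq : (m = 1 ∧ n = 0) ∨ (m = 0 ∧ n = 1)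
  · rw [if_pos hq]
    rcases hq with ⟨rfl, rfl⟩ | ⟨rfl, rfl⟩
    · rw [kap1.2.1]
      by_cases hss : s' = s
      · subst hss
        have e : ((2 : Polynomial ℤ)).coeff (s' + 0 - s') = 2 := by
          rw [Nat.add_zero, Nat.sub_self]
          have : (2 : Polynomial ℤ) = Polynomial.C 2 := rfl
          rw [this, Polynomial.coeff_C_zero]
        rw [e, if_pos ⟨by omega, by omega⟩, if_pos ⟨by omega, by omega⟩, if_pos rfl, h2N]
        simp only [Nat.choose_one_right, Nat.choose_zero_right]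
        rw [show 2 * N - (1 + 0) = 2 * N - 1 by omega]
        refine (Dvd.intro 0 ?_)
        push_cast
        norm_num
        ring
      · rw [if_neg hss]
        by_cases hle : s ≤ s' + 0 ∧ 1 ≤ 1 + 0
        · have e : ((2 : Polynomial ℤ)).coeff (s' + 0 - s) = 0 := by
            have : (2 : Polynomial ℤ) = Polynomial.C 2 := rfl
            rw [this, Polynomial.coeff_C, if_neg (by omega)]
          rw [e]
          simp
        · rw [if_neg hle, if_neg hle]
          simp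
    · rw [kap1.2.2]
      have e0 : ∀ k, ((2 * Polynomial.X : Polynomial ℤ)).coeff k = if k = 1 then 2 else 0 := by
        intro k
        have : (2 * Polynomial.X : Polynomial ℤ) = Polynomial.C 2 * Polynomial.X := rfl
        rw [this, Polynomial.coeff_C_mul, Polynomial.coeff_X]
        by_cases hk : k = 1
        · subst hk
          simp
        · rw [if_neg hk, if_neg (fun h => hk h.symm)]
          simp
      rw [e0]
      by_cases hss : s' = s
      · subst hss
        rw [if_pos (by omega : s' + 1 - s' = 1), if_pos (⟨by omega, by omega⟩ : s' ≤ s' + 1 ∧ 1 ≤ 0 + 1), if_pos rfl, h2N]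
        simp only [Nat.choose_one_right, Nat.choose_zero_right]
        rw [show 2 * N - (0 + 1) = 2 * N - 1 by omega]
        refine (Dvd.intro 0 ?_)
        push_cast
        norm_num
        ring
      · rw [if_neg hss]
        by_cases hle : s ≤ s' + 1 ∧ 1 ≤ 0 + 1
        · rw [if_neg (by omega : ¬ (s' + 1 - s = 1))]
          simp
        · rw [if_neg hle, if_neg hle]
          simp
  · rw [if_neg hq, sub_zero]
    by_cases hle : s ≤ s' + n ∧ 1 ≤ m + n
    · rw [if_pos hle, if_pos hle]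
      have hmn : 2 ≤ m ∨ 2 ≤ n ∨ (m = 1 ∧ n = 1) := by
        by_contra hcon
        rw [not_or, not_or] at hcon
        obtain ⟨c1, c2, c3⟩ := hcon
        obtain ⟨_, c4⟩ := hle
        rw [not_or] at hq
        obtain ⟨q1, q2⟩ := hq
        have : m ≤ 1 := by omega
        have : n ≤ 1 := by omega
        interval_cases m <;> interval_cases n <;> simp_all
      have hp := fsh_prod j h s y m n hh hmn
      have key : (-1 : ℤ) ^ s * (y.choose m : ℤ) * ((h + s).choose n : ℤ) * (-1) ^ m * 3 ^ (m + n - 1) *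
          2 ^ (2 * N - (m + n)) * (kap 1 m n).coeff (s' + n - s) -
          (-1) ^ s * ((h + y).choose m : ℤ) * (s.choose n : ℤ) * (-1) ^ m * 3 ^ (m + n - 1) * 2 ^ (2 * N - (m + n)) *
          (kap 1 m n).coeff (s' + n - s) =
          (3 ^ (m + n - 1) *
            ((y.choose m : ℤ) * ((h + s).choose n : ℤ) - ((h + y).choose m : ℤ) * (s.choose n : ℤ))) *
          ((-1) ^ s * (-1) ^ m * 2 ^ (2 * N - (m + n)) * (kap 1 m n).coeff (s' + n - s)) := by
        ring
      rw [key]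
      exact hp.mul_right _
    · rw [if_neg hle, if_neg hle]
      simp

theorem f_sh (N j h s s' : ℕ) (hh : 3 ^ j ∣ h) (h2 : h % 2 = 0) (h3 : s + h ≤ N) (h4 : s' + h ≤ N) :
    (3 : ℤ) ^ (j + 1) ∣ MZ N (s' + h) (s + h) - MZ N s' s - if s' = s then (-1) ^ s * (2 * (h : ℤ)) else 0 := by
  rcases Nat.eq_zero_or_pos N with hN | hN
  · have : h = 0 := by omega
    subst this
    simp
  · obtain ⟨z, hz⟩ : ∃ z : ℤ, z = if s' = s then (-1) ^ s * 2 ^ (2 * N) * (h : ℤ) else 0 := ⟨_, rfl⟩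
    have A : (3 : ℤ) ^ (j + 1) ∣ MZ N (s' + h) (s + h) - MZ N s' s - 2 * z := by
      rw [← fsh_sum N hN z, MZ, MZ, ← Finset.sum_sub_distrib, ← Finset.sum_sub_distrib]
      refine Finset.dvd_sum fun m _ => ?_
      rw [← Finset.sum_sub_distrib, ← Finset.sum_sub_distrib]
      refine Finset.dvd_sum fun n _ => ?_
      rw [hz]
      exact fsh_term N j h s s' m n hN hh h2 h3
    have B : (3 : ℤ) ^ (j + 1) ∣ 2 * z - if s' = s then (-1) ^ s * (2 * (h : ℤ)) else 0 := by
      rw [hz]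
      by_cases hss : s' = s
      · rw [if_pos hss, if_pos hss]
        have h1 : (3 : ℤ) ^ j ∣ (h : ℤ) := by exact_mod_cast hh
        have h5 : (3 : ℤ) ∣ 2 ^ (2 * N) - 1 := by
          have := sub_dvd_pow_sub_pow (4 : ℤ) 1 N
          rw [pow_mul]
          norm_num at this ⊢
          exact this
        have key : 2 * ((-1 : ℤ) ^ s * 2 ^ (2 * N) * (h : ℤ)) - (-1) ^ s * (2 * (h : ℤ)) =
            ((h : ℤ) * (2 ^ (2 * N) - 1)) * (2 * (-1) ^ s) := by ring
        rw [key, pow_succ]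
        exact (mul_dvd_mul h1 h5).mul_right _
      · rw [if_neg hss, if_neg hss]
        simp
    have := dvd_add A B
    rwa [sub_add_sub_cancel] at this

end Pool.Agent.Lib.MP_06b9d2_trp
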