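import Pool.Agent.Lib.MP_06b9d2_trp.Bin
import Pool.Agent.Lib.MP_06b9d2_trp.KapD
import Pool.Agent.Lib.MP_06b9d2_ssp.Kap

/-!
Module TRP-FctC. The entries adjacent to a cut of level `R`, modulo `3 ^ (R + 2)`.

`C = 3 ^ R i + a`, `s = C - 1`, `s' = C ≤ N`. `N - s = h + a` with `h = 3 ^ R (c - i)` (`i ≤ c`: otherwise `3 ^ R i ≥ 3 ^ R c + 3 ^ R`, `C ≥ 3 ^ R c + 1 + a > N = c 3 ^ R + 2 a - 1`, as `a ≤ 1`).
The index of the coefficient is `l = s' + n - s = n + 1`. By `kap_up` the term `(m, n)` vanishes unless `2 (n + 1) ≤ 2 n + m`, i.e. `m ≥ 2`. Modulo `3 ^ (R + 2)`: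
- `m ≥ 4`: `binB R h a m` (`a < m`): `3 ^ (R + 2) ∣ 3 ^ (m - 1) C(h + a, m)`. All such terms are `≡ 0`.
- `m = 2, 3` and `n ≥ 1`: `3 ^ (m + n - 1) = 3 ^ (m - 1) 3 ^ n`, `binA R h a m`: `3 ^ (R + 1) ∣ 3 ^ (m - 1) C(h + a, m)`: `≡ 0`.
- `(3, 0)`: `kap 1 3 0 = 6 (1 + X)`, coefficient `6` at `l = 1`, and `3 ^ (R + 1) ∣ 3 ^ 2 C(h + a, 3)`: `≡ 0`.
- `(2, 0)`: `kap 1 2 0 = - 2 (1 + X)`, coefficient `-2` at `l = 1`: the term is `(-1) ^ s C(h + a, 2) * 3 * 2 ^ (2 N - 2) * (-2)`. `2 C(h + a, 2) = (h + a) (h + a - 1)` (`Nat.choose_two_right` / `Nat.triangle_succ`; in `ℤ`), that is `h (h - 1)` for `a = 0`, `h (h + 1)` for `a = 1`.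
  `h = 3 ^ R (c - i)`, `3 h ^ 2` is divisible by `3 ^ (2 R + 1)`, so by `3 ^ (R + 2)` (`R ≥ 1`). So the term is `≡ (-1) ^ s * 3 * 4 ^ (N - 1) * h * (1 if a = 0, -1 if a = 1) = (-1) ^ (s + a) 3 h 4 ^ (N - 1)`, and `4 ^ (N - 1) ≡ 1` modulo `3`, `3 ^ (R + 1) ∣ 3 h`.
  `(-1) ^ (s + a) = (-1) ^ (3 ^ R i + 2 a - 1) = (-1) ^ (3 ^ R i + 1)`. (`N ≥ 2` is clear: `c 3 ^ R + 2 a - 1 = N ≥ 1`, `R ≥ 1`, so `N ≥ 2`.)
(Checked numerically for `R = 1, 2`, all `a`, `c = 8, 10, 14, 16`, all `i`.)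
-/

namespace Pool.Agent.Lib.MP_06b9d2_trp

open Finset Pool.Agent.Lib.MP_06b9d2_ssp

private theorem fc_20 (R d a N e : ℕ) (hR : 1 ≤ R) (ha : a ≤ 1) (hN : 1 ≤ N) (he : 1 ≤ e + a) :
    (3 : ℤ) ^ (R + 2) ∣ (-1) ^ (e + a - 1) * ((3 ^ R * d + a).choose 2 : ℤ) * 3 * 2 ^ (2 * N - 2) * (-2) -
      3 ^ (R + 1) * ((-1) ^ (e + 1) * (d : ℤ)) := by
  obtain ⟨w, hw⟩ : (3 : ℤ) ∣ 4 ^ (N - 1) - 1 := by
    have := sub_dvd_pow_sub_pow (4 : ℤ) 1 (N - 1)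
    norm_num at this
    exact this
  have h4 : (2 : ℤ) ^ (2 * N - 2) = 3 * w + 1 := by
    rw [show 2 * N - 2 = 2 * (N - 1) by omega, pow_mul]
    norm_num
    linarith
  obtain ⟨R', rfl⟩ : ∃ R', R = R' + 1 := ⟨R - 1, by omega⟩
  have h2c : ∀ u : ℕ, 2 * ((u.choose 2 : ℕ) : ℤ) = (u : ℤ) * ((u : ℤ) - 1) := by
    intro u
    rcases Nat.eq_zero_or_pos u with h0 | h0
    · subst h0; simp
    · obtain ⟨v, rfl⟩ : ∃ v, u = v + 1 := ⟨u - 1, by omega⟩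
      have h3 := Nat.triangle_succ v
      have h5 : (v + 1).choose 2 = (v + 1) * v / 2 := by rw [Nat.choose_two_right]; simp
      have h6 : 2 ∣ (v + 1) * v := by
        have := Nat.even_mul_succ_self v
        rw [mul_comm]
        exact this.two_dvd
      have h7 : 2 * (v + 1).choose 2 = (v + 1) * v := by
        rw [h5]; exact Nat.mul_div_cancel' h6
      have h8 : (2 : ℤ) * (((v + 1).choose 2 : ℕ) : ℤ) = ((v : ℤ) + 1) * v := by exact_mod_cast h7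
      rw [h8]; push_cast; ring
  have h9 := h2c (3 ^ (R' + 1) * d + a)
  rw [h4]
  rcases Nat.lt_or_ge a 1 with ha0 | ha1
  · have ha' : a = 0 := by omega
    subst ha'
    obtain ⟨e', rfl⟩ : ∃ e', e = e' + 1 := ⟨e - 1, by omega⟩
    refine ⟨-(-1) ^ e' * ((3 * w + 1) * 3 ^ R' * (d : ℤ) ^ 2 - w * d), ?_⟩
    have e1 : (-1 : ℤ) ^ (e' + 1 + 0 - 1) = (-1) ^ e' := by congr 1
    have e2 : (-1 : ℤ) ^ (e' + 1 + 1) = (-1) ^ e' := by ring
    rw [e1, e2]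
    push_cast at h9
    have e3 : (-1 : ℤ) ^ e' * ((3 ^ (R' + 1) * d + 0).choose 2 : ℤ) * 3 * (3 * w + 1) * (-2) =
        -(-1) ^ e' * 3 * (3 * w + 1) * (2 * ((3 ^ (R' + 1) * d + 0).choose 2 : ℤ)) := by ring
    rw [e3, h9]
    ring
  · have ha' : a = 1 := by omega
    subst ha'
    refine ⟨-(-1) ^ e * ((3 * w + 1) * 3 ^ R' * (d : ℤ) ^ 2 + w * d), ?_⟩
    have e1 : (-1 : ℤ) ^ (e + 1 - 1) = (-1) ^ e := by congr 1
    rw [e1]
    push_cast at h9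
    have e3 : (-1 : ℤ) ^ e * ((3 ^ (R' + 1) * d + 1).choose 2 : ℤ) * 3 * (3 * w + 1) * (-2) =
        -(-1) ^ e * 3 * (3 * w + 1) * (2 * ((3 ^ (R' + 1) * d + 1).choose 2 : ℤ)) := by ring
    rw [e3, h9]
    ring

private theorem fc_ot (R d a m n : ℕ) (ha : a ≤ 1) (hmn : ¬ (m = 2 ∧ n = 0)) :
    (3 : ℤ) ^ (R + 2) ∣ 3 ^ (m + n - 1) * ((3 ^ R * d + a).choose m : ℤ) * (kap 1 m n).coeff (n + 1) := by
  have hh : 3 ^ R ∣ 3 ^ R * d := Dvd.intro _ rfl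
  rcases Nat.lt_or_ge m 2 with h1 | h1
  · rw [kap_up m n (n + 1) (by omega)]
    simp
  · rcases Nat.lt_or_ge m 4 with h4 | h4
    · have hA : (3 : ℤ) ^ (R + 1) ∣ 3 ^ (m - 1) * ((3 ^ R * d + a).choose m : ℤ) := by
        exact_mod_cast binA R (3 ^ R * d) a m hh h1 (by omega)
      rcases Nat.eq_zero_or_pos n with hn | hn
      · have hm : m = 3 := by omega
        subst hn; subst hm
        rw [kap_30]
        have hc : ((6 : Polynomial ℤ) * (1 + Polynomial.X)).coeff (0 + 1) = 6 := by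
          rw [Polynomial.coeff_ofNat_mul]
          simp [Polynomial.coeff_one]
        rw [hc]
        calc (3 : ℤ) ^ (R + 2) = 3 ^ (R + 1) * 3 := by ring
          _ ∣ 3 ^ (3 - 1) * ((3 ^ R * d + a).choose 3 : ℤ) * 3 := mul_dvd_mul_right hA _
          _ ∣ 3 ^ (3 + 0 - 1) * ((3 ^ R * d + a).choose 3 : ℤ) * 6 := ⟨2, by ring⟩
      · have hp : m + n - 1 = (m - 1) + (n - 1) + 1 := by omega
        rw [hp]
        generalize (kap 1 m n).coeff (n + 1) = q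
        generalize ((3 ^ R * d + a).choose m : ℤ) = g at hA ⊢
        calc (3 : ℤ) ^ (R + 2) = 3 ^ (R + 1) * 3 := by ring
          _ ∣ 3 ^ (m - 1) * g * 3 := mul_dvd_mul_right hA _
          _ ∣ 3 ^ (m - 1 + (n - 1) + 1) * g * q := ⟨3 ^ (n - 1) * q, by ring⟩
    · have hB : (3 : ℤ) ^ (R + 2) ∣ 3 ^ (m - 1) * ((3 ^ R * d + a).choose m : ℤ) := by
        exact_mod_cast binB R (3 ^ R * d) a m hh h4 (by omega)
      have hp : m + n - 1 = (m - 1) + n := by omega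
      rw [hp]
      generalize (kap 1 m n).coeff (n + 1) = q
      generalize ((3 ^ R * d + a).choose m : ℤ) = g at hB ⊢
      exact hB.trans ⟨3 ^ n * q, by ring⟩

theorem f_adj {N R a c : ℕ} (hN : N + 1 = c * 3 ^ R + 2 * a) (ha : a ≤ 1) (hR : 1 ≤ R) (i : ℕ)
    (h1 : 1 ≤ 3 ^ R * i + a) (h2 : 3 ^ R * i + a ≤ N) :
    (3 : ℤ) ^ (R + 2) ∣ MZ N (3 ^ R * i + a) (3 ^ R * i + a - 1) -
      3 ^ (R + 1) * ((-1) ^ (3 ^ R * i + 1) * ((c : ℤ) - i)) := by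
  have h3R : 3 ≤ 3 ^ R := by
    calc 3 = 3 ^ 1 := by norm_num
      _ ≤ 3 ^ R := Nat.pow_le_pow_right (by norm_num) hR
  have hic : i ≤ c := by
    by_contra hc
    have h5 : 3 ^ R * (c + 1) ≤ 3 ^ R * i := Nat.mul_le_mul_left _ (by omega)
    have h6 : 3 ^ R * (c + 1) = c * 3 ^ R + 3 ^ R := by ring
    omega
  obtain ⟨d, rfl⟩ : ∃ d, c = i + d := ⟨c - i, by omega⟩
  have hNs : N - (3 ^ R * i + a - 1) = 3 ^ R * d + a := by
    have h6 : (i + d) * 3 ^ R = 3 ^ R * i + 3 ^ R * d := by ring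
    omega
  have hN2 : 2 ≤ N ∨ d = 0 := by
    rcases Nat.eq_zero_or_pos (i + d) with h0 | h0
    · right
      omega
    · left
      have h5 : 3 ^ R ≤ (i + d) * 3 ^ R := Nat.le_mul_of_pos_left _ h0
      omega
  have hcd : (((i + d : ℕ) : ℤ) - i) = (d : ℤ) := by push_cast; ring
  rw [hcd]
  set T : ℤ := 3 ^ (R + 1) * ((-1) ^ (3 ^ R * i + 1) * (d : ℤ)) with hT
  have hD : T = ∑ m ∈ range (N + 1), ∑ n ∈ range (N + 1), if m = 2 ∧ n = 0 then T else 0 := by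
    rcases hN2 with hN2 | hd0
    swap
    · have hT0 : T = 0 := by rw [hT, hd0]; simp
      rw [hT0]
      simp
    rw [Finset.sum_eq_single 2, Finset.sum_eq_single 0]
    · simp
    · intro n _ hn
      rw [if_neg]
      rintro ⟨_, h⟩
      exact hn h
    · intro h
      exact absurd (Finset.mem_range.mpr (by omega)) h
    · intro m _ hm
      refine Finset.sum_eq_zero fun n _ => ?_
      rw [if_neg]
      rintro ⟨h, _⟩
      exact hm h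
    · intro h
      exact absurd (Finset.mem_range.mpr (by omega)) h
  rw [hD]
  unfold MZ
  rw [← Finset.sum_sub_distrib]
  refine Finset.dvd_sum fun m _ => ?_
  rw [← Finset.sum_sub_distrib]
  refine Finset.dvd_sum fun n _ => ?_
  rw [hNs, show 3 ^ R * i + a + n - (3 ^ R * i + a - 1) = n + 1 by omega]
  by_cases hmn : m = 2 ∧ n = 0
  · rw [if_pos hmn, if_pos ⟨by omega, by omega⟩]
    obtain ⟨rfl, rfl⟩ := hmn
    have hc : (-((2 : Polynomial ℤ) * (1 + Polynomial.X))).coeff (0 + 1) = -2 := by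
      rw [Polynomial.coeff_neg, Polynomial.coeff_ofNat_mul]
      simp [Polynomial.coeff_one]
    rw [kap_20, hc]
    have key := fc_20 R d a N (3 ^ R * i) hR ha (by omega) h1
    rw [hT]
    have e : (-1 : ℤ) ^ (3 ^ R * i + a - 1) * ((3 ^ R * d + a).choose 2 : ℤ) *
        ((3 ^ R * i + a - 1).choose 0 : ℤ) * (-1) ^ 2 * 3 ^ (2 + 0 - 1) * 2 ^ (2 * N - (2 + 0)) * (-2) =
        (-1) ^ (3 ^ R * i + a - 1) * ((3 ^ R * d + a).choose 2 : ℤ) * 3 * 2 ^ (2 * N - 2) * (-2) := by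
      simp
    rw [e]
    exact key
  · rw [if_neg hmn, sub_zero]
    split_ifs with hc
    · have key := fc_ot R d a m n ha hmn
      refine key.trans ⟨(-1) ^ (3 ^ R * i + a - 1) * ((3 ^ R * i + a - 1).choose n : ℤ) * (-1) ^ m *
        2 ^ (2 * N - (m + n)), by ring⟩
    · exact dvd_zero _

end Pool.Agent.Lib.MP_06b9d2_trp
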