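import Pool.Agent.Lib.MP_06b9d2_trp.Defs
import Pool.Agent.Lib.MP_06b9d2_ssp.Sym
import Pool.Agent.Lib.MP_06b9d2_ssp.Kap

/-!
Module TRP-SymZ. `MZ` and `Mt`.

`MZ_cast`: term by term (`Finset.mul_sum`, `Finset.sum_congr`; push the cast with `Int.cast_sum`). For `m, n ≤ N`, `m + n ≥ 1`: `3 * 3 ^ (m + n - 1) = 3 ^ (m + n)`, `4 ^ N (-(3 / 2)) ^ m (3 / 2) ^ n = (-1) ^ m 3 ^ (m + n) 4 ^ N / 2 ^ (m + n)
= (-1) ^ m 3 ^ (m + n) 2 ^ (2 N - (m + n))` (`m + n ≤ 2 N`). For `m = n = 0` the term of `Mt` vanishes as `kap 1 0 0 = 0` (`kap1`). The terms with `¬ s ≤ j + n` are `0` on both sides.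
`f_sym`: if `N` is odd then `Even (N + 1)`, `Mt_sym 1 N s' s` and `MZ_cast` twice, `Int.cast_injective`, `(3 : ℂ) ≠ 0`.
-/

namespace Pool.Agent.Lib.MP_06b9d2_trp

open Finset Pool.Agent.Lib.MP_06b9d2_ssp

theorem MZ_cast (N j s : ℕ) : (3 : ℂ) * ((MZ N j s : ℤ) : ℂ) = 4 ^ N * Mt 1 N j s := by
  unfold MZ Mt
  rw [Int.cast_sum, Finset.mul_sum, Finset.mul_sum]
  refine Finset.sum_congr rfl fun m hm => ?_
  rw [Int.cast_sum, Finset.mul_sum, Finset.mul_sum]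
  refine Finset.sum_congr rfl fun n hn => ?_
  rw [Finset.mem_range] at hm hn
  by_cases h1 : s ≤ j + n
  · by_cases h2 : 1 ≤ m + n
    · rw [if_pos ⟨h1, h2⟩, if_pos h1]
      have e1 : (3 : ℂ) * 3 ^ (m + n - 1) = 3 ^ m * 3 ^ n := by
        rw [← pow_succ', Nat.sub_add_cancel h2, pow_add]
      have e2 : (4 : ℂ) ^ N = 2 ^ (2 * N - (m + n)) * 2 ^ m * 2 ^ n := by
        rw [mul_assoc, ← pow_add, ← pow_add, Nat.sub_add_cancel (by omega), pow_mul]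
        norm_num
      have e3 : (-(3 / 2) : ℂ) ^ m = (-1) ^ m * 3 ^ m / 2 ^ m := by
        rw [show (-(3 / 2) : ℂ) = -1 * 3 / 2 by ring, div_pow, mul_pow]
      have e4 : (3 / 2 : ℂ) ^ n = 3 ^ n / 2 ^ n := div_pow _ _ _
      have hm2 : (2 : ℂ) ^ m ≠ 0 := pow_ne_zero _ two_ne_zero
      have hn2 : (2 : ℂ) ^ n ≠ 0 := pow_ne_zero _ two_ne_zero
      rw [e2, e3, e4]
      push_cast
      obtain ⟨k, hk⟩ : ∃ k : ℂ, k = (((kap 1 m n).coeff (j + n - s) : ℤ) : ℂ) := ⟨_, rfl⟩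
      rw [← hk]
      have e5 : (2 : ℂ) ^ (2 * N - (m + n)) * 2 ^ m * 2 ^ n *
          ((-1) ^ s * ((N - s).choose m : ℂ) * (s.choose n : ℂ) * ((-1) ^ m * 3 ^ m / 2 ^ m) * (3 ^ n / 2 ^ n) * k) =
          (2 : ℂ) ^ (2 * N - (m + n)) * ((-1) ^ s * ((N - s).choose m : ℂ) * (s.choose n : ℂ) * (-1) ^ m *
            (3 ^ m * 3 ^ n) * k) := by
        field_simp
      rw [e5, ← e1]
      ring
    · rw [if_neg (fun h => h2 h.2), if_pos h1]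
      have h3 : m = 0 := by omega
      have h4 : n = 0 := by omega
      subst h3
      subst h4
      rw [kap1.1]
      simp
  · rw [if_neg (fun h => h1 h.1), if_neg h1]
    simp

theorem f_sym (N s s' : ℕ) (hodd : N % 2 = 1) (hs : s ≤ N) (hs' : s' ≤ N) : MZ N (N - s') (N - s) = MZ N s' s := by
  have h1 : ((MZ N (N - s') (N - s) : ℤ) : ℂ) = ((MZ N s' s : ℤ) : ℂ) := by
    apply mul_left_cancel₀ (three_ne_zero : (3 : ℂ) ≠ 0)
    rw [MZ_cast, MZ_cast, Mt_sym 1 N s' s (by norm_num) (by rw [Nat.even_iff]; omega) hs' hs]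
  exact_mod_cast h1

end Pool.Agent.Lib.MP_06b9d2_trp
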