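import Pool.Agent.Lib.MP_06b9d2_trp.FctA
import Pool.Agent.Lib.MP_06b9d2_trp.FctB
import Pool.Agent.Lib.MP_06b9d2_trp.FctC
import Pool.Agent.Lib.MP_06b9d2_trp.SymZ

/-!
Board TRP: the matrix `MZ N` satisfies all congruences of `Fct`.
-/

namespace Pool.Agent.Lib.MP_06b9d2_trp

theorem fct {N R a c : ℕ} (hN : N + 1 = c * 3 ^ R + 2 * a) (ha : a ≤ 1) (hR : 1 ≤ R) (hodd : N % 2 = 1) :
    Fct N R a c (MZ N) where
  hN := hN
  ha := ha
  hR := hR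
  odd := hodd
  dg := fun s hs s' hs' => f_dg N s s' hs hs'
  sym := fun s hs s' hs' => f_sym N s s' hodd hs hs'
  cut := fun j hj i s s' h1 h2 h3 => f_cut hN ha j hj i s s' h1 h2 h3
  low := fun j h s s' h1 h2 h3 h4 => f_low N j h s s' h1 h2 h3 h4
  sh := fun j h s s' h1 h2 h3 h4 => f_sh N j h s s' h1 h2 h3 h4
  cutR := fun i s s' h1 h2 h3 h4 => f_cutR hN ha i s s' h1 h2 h3 h4
  adj := fun i h1 h2 => f_adj hN ha hR i h1 h2

end Pool.Agent.Lib.MP_06b9d2_trp
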