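import Pool.Agent.Lib.MP_06b9d2_trp.Defs
import Mathlib

/-!
Module TRP-GalA. A 3-adic transposition.

`K = ℚ_[3]`, `E = AlgebraicClosure K`, `P = F.map (algebraMap ℚ K)`, separable, `P ≠ 0`. `Polynomial.exists_prod_multiset_X_sub_C_mul P`: `P = ∏ (X - C r) * q` over the roots, `q.roots = 0`, `natDegree q = natDegree F - card roots = 2`. `q` has no root in `K`, so it is irreducible
(`Polynomial.irreducible_of_degree_le_three_of_not_isRoot` or similar names: `Polynomial.Monic.irreducible_iff_roots_eq_zero_of_degree_le_three`, ...). `q` divides the separable `P`, so it has two different roots `α'`, `β'` in `E` (`Polynomial.card_roots_eq_natDegree`-type: `IsAlgClosed.splits`, `nodup_roots`), and these are all the roots of `q` in `E`.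
`α'` and `β'` have the same minimal polynomial over `K` (`minpoly.eq_of_irreducible`), `E / K` is normal (`IsAlgClosure.normal`), so there is `τ ∈ Gal(E/K)` with `τ α' = β'` (`Normal.minpoly_eq_iff_mem_orbit`, see `galAction_isPretransitive` in `Mathlib/FieldTheory/PolynomialGaloisGroup.lean`, or `IsConjRoot`). `τ β'` is a root of `q`, different from `τ α' = β'`, so
`τ β' = α'`. The other roots of `F` in `E` are (images of) elements of `K`, fixed by `τ`. `σ = Polynomial.Gal.restrict F E (τ.restrictScalars ℚ)` with the instance `Fact ((F.map (algebraMap ℚ E)).Splits)` (`⟨IsAlgClosed.splits _⟩`); `algebraMap F.SplittingField E (σ γ) = τ (algebraMap F.SplittingField E γ)`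
(`AlgEquiv.restrictNormal_commutes`; see `Polynomial.Gal.restrict_smul`), the map `F.SplittingField → E` is injective and a bijection between the roots of `F` (`Polynomial.Gal.mapRoots_bijective`): `α`, `β` are the preimages of `α'`, `β'`.
-/

namespace Pool.Agent.Lib.MP_06b9d2_trp

open Polynomial

/-- the two conjugate roots and the automorphism exchanging them -/
theorem galA_aux {K E : Type} [Field K] [Field E] [Algebra K E] [IsAlgClosed E] [Normal K E]
    (P : K[X]) (hs : P.Separable) (hd : Multiset.card P.roots + 2 = P.natDegree) :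
    ∃ (τ : E ≃ₐ[K] E) (α β : E), α ∈ P.aroots E ∧ β ∈ P.aroots E ∧ α ≠ β ∧ τ α = β ∧ τ β = α ∧
      ∀ γ ∈ P.aroots E, γ ≠ α → γ ≠ β → τ γ = γ := by
  classical
  have hP : P ≠ 0 := hs.ne_zero
  obtain ⟨q, hq, hdeg, hroots⟩ := Polynomial.exists_prod_multiset_X_sub_C_mul P
  have hqd : q.natDegree = 2 := by omega
  have hq0 : q ≠ 0 := by
    rintro rfl
    simp at hqd
  have hqP : q ∣ P := ⟨_, by rw [mul_comm]; exact hq.symm⟩
  have hirr : Irreducible q := by
    rw [Polynomial.irreducible_iff_roots_eq_zero_of_degree_le_three (by omega) (by omega)]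
    exact hroots
  have hqs : q.Separable := hs.of_dvd hqP
  have hsp : (q.map (algebraMap K E)).Splits := IsAlgClosed.splits _
  have hcard : Multiset.card (q.aroots E) = 2 := by
    rw [Polynomial.aroots_def, ← hsp.natDegree_eq_card_roots, natDegree_map, hqd]
  have hnd : (q.aroots E).Nodup := Polynomial.nodup_aroots_iff_of_splits hq0 hsp |>.2 hqs
  obtain ⟨α, β, hab⟩ := Multiset.card_eq_two.1 hcard
  have hne : α ≠ β := by
    rintro rfl
    rw [hab] at hnd
    simp at hnd
  have hαq : α ∈ q.aroots E := by rw [hab]; simp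
  have hβq : β ∈ q.aroots E := by rw [hab]; simp
  have hqmem : ∀ γ, γ ∈ q.aroots E ↔ aeval γ q = 0 := fun γ => by
    rw [mem_aroots]; exact ⟨fun h => h.2, fun h => ⟨hq0, h⟩⟩
  have hmin : minpoly K β = minpoly K α := by
    rw [← minpoly.eq_of_irreducible hirr ((hqmem α).1 hαq),
      ← minpoly.eq_of_irreducible hirr ((hqmem β).1 hβq)]
  obtain ⟨τ, hτ⟩ := (Normal.minpoly_eq_iff_mem_orbit (F := K) (E := E)).1 hmin
  have hτ' : τ α = β := hτ
  have hτq : ∀ γ ∈ q.aroots E, τ γ ∈ q.aroots E := by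
    intro γ hγ
    rw [hqmem] at hγ ⊢
    have h1 : aeval (τ γ) q = τ (aeval γ q) := by
      rw [← AlgEquiv.coe_algHom, ← Polynomial.aeval_algHom_apply]
    rw [h1, hγ, map_zero]
  have hτβ : τ β = α := by
    have h1 := hτq β hβq
    rw [hab] at h1
    simp only [Multiset.insert_eq_cons, Multiset.mem_cons, Multiset.mem_singleton] at h1
    rcases h1 with h1 | h1
    · exact h1
    · exfalso
      exact hne (τ.injective (hτ'.trans h1.symm))
  refine ⟨τ, α, β, ?_, ?_, hne, hτ', hτβ, ?_⟩
  · rw [mem_aroots]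
    exact ⟨hP, by obtain ⟨r, hr⟩ := hqP; rw [hr, map_mul, (hqmem α).1 hαq, zero_mul]⟩
  · rw [mem_aroots]
    exact ⟨hP, by obtain ⟨r, hr⟩ := hqP; rw [hr, map_mul, (hqmem β).1 hβq, zero_mul]⟩
  · intro γ hγ hγα hγβ
    rw [mem_aroots] at hγ
    have h1 := hγ.2
    rw [← hq, map_mul, mul_eq_zero] at h1
    rcases h1 with h1 | h1
    · rw [map_multiset_prod, Multiset.prod_eq_zero_iff, Multiset.map_map] at h1
      obtain ⟨r, -, hr⟩ := Multiset.mem_map.1 h1
      simp only [Function.comp_apply, map_sub, aeval_X, aeval_C] at hr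
      rw [sub_eq_zero] at hr
      rw [hr, AlgEquiv.commutes]
    · exfalso
      have h2 := (hqmem γ).2 h1
      rw [hab] at h2
      simp only [Multiset.insert_eq_cons, Multiset.mem_cons, Multiset.mem_singleton] at h2
      rcases h2 with h2 | h2
      · exact hγα h2
      · exact hγβ h2

/-- restriction to the splitting field -/
theorem galA_res {E : Type} [Field E] [Algebra ℚ E] [IsAlgClosed E] (F : ℚ[X]) (τ : E ≃ₐ[ℚ] E) (α β : E)
    (hα : α ∈ F.aroots E) (hβ : β ∈ F.aroots E) (hne : α ≠ β) (h1 : τ α = β) (h2 : τ β = α)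
    (h3 : ∀ γ ∈ F.aroots E, γ ≠ α → γ ≠ β → τ γ = γ) :
    ∃ (σ : F.Gal) (α β : F.SplittingField), α ∈ F.rootSet F.SplittingField ∧ β ∈ F.rootSet F.SplittingField ∧ α ≠ β ∧ σ α = β ∧ σ β = α ∧
      ∀ γ ∈ F.rootSet F.SplittingField, γ ≠ α → γ ≠ β → σ γ = γ := by
  classical
  have : Fact ((F.map (algebraMap ℚ E)).Splits) := ⟨IsAlgClosed.splits _⟩
  have hN : Normal ℚ F.SplittingField := SplittingField.instNormal F
  have hbij := Polynomial.Gal.mapRoots_bijective F E
  have hF : F ≠ 0 := (mem_aroots.1 hα).1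
  have hrt : ∀ x : E, x ∈ F.aroots E → ∃ y ∈ F.rootSet F.SplittingField, algebraMap F.SplittingField E y = x := by
    intro x hx
    have hx' : x ∈ F.rootSet E := by
      rw [mem_rootSet]; exact mem_aroots.1 hx
    obtain ⟨y, hy⟩ := hbij.2 ⟨x, hx'⟩
    exact ⟨y.1, y.2, congrArg Subtype.val hy⟩
  obtain ⟨a, ha, haα⟩ := hrt α hα
  obtain ⟨b, hb, hbβ⟩ := hrt β hβ
  have hinj : Function.Injective (algebraMap F.SplittingField E) := (algebraMap F.SplittingField E).injective
  have hcomm : ∀ x : F.SplittingField, algebraMap F.SplittingField E ((Polynomial.Gal.restrict F E τ) x) =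
      τ (algebraMap F.SplittingField E x) := fun x => AlgEquiv.restrictNormal_commutes τ _ x
  refine ⟨Polynomial.Gal.restrict F E τ, a, b, ha, hb, ?_, ?_, ?_, ?_⟩
  · rintro rfl
    exact hne (haα.symm.trans hbβ)
  · apply hinj
    rw [hcomm, haα, hbβ, h1]
  · apply hinj
    rw [hcomm, haα, hbβ, h2]
  · intro γ hγ hγa hγb
    apply hinj
    rw [hcomm]
    refine h3 _ ?_ ?_ ?_
    · rw [mem_aroots]
      refine ⟨hF, ?_⟩
      rw [aeval_algebraMap_apply, (mem_rootSet.1 hγ).2, map_zero]
    · intro h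
      exact hγa (hinj (h.trans haα.symm))
    · intro h
      exact hγb (hinj (h.trans hbβ.symm))

theorem galA (F : ℚ[X]) (hs : F.Separable) (hd : Multiset.card (F.map (algebraMap ℚ Q3)).roots + 2 = F.natDegree) :
    ∃ (σ : F.Gal) (α β : F.SplittingField), α ∈ F.rootSet F.SplittingField ∧ β ∈ F.rootSet F.SplittingField ∧ α ≠ β ∧ σ α = β ∧ σ β = α ∧
      ∀ γ ∈ F.rootSet F.SplittingField, γ ≠ α → γ ≠ β → σ γ = γ := by
  obtain ⟨τ, α, β, hα, hβ, hne, h1, h2, h3⟩ := galA_aux (K := Q3) (E := AlgebraicClosure Q3) (F.map (algebraMap ℚ Q3))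
    hs.map (by rw [natDegree_map]; exact hd)
  have hr : (F.map (algebraMap ℚ Q3)).aroots (AlgebraicClosure Q3) = F.aroots (AlgebraicClosure Q3) := by
    rw [aroots_def, aroots_def, map_map, ← IsScalarTower.algebraMap_eq]
  rw [hr] at hα hβ h3
  exact galA_res F (τ.restrictScalars ℚ) α β hα hβ hne h1 h2 h3

end Pool.Agent.Lib.MP_06b9d2_trp
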