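import Pool.Agent.Lib.MP_06b9d2_trp.GalA

/-!
Module TRP-GalB. The action on the complex roots.

`galB`: `galActionHom F ℂ σ x = rootsEquivRoots F ℂ (σ • (rootsEquivRoots F ℂ).symm x)` (`Polynomial.Gal.smul_def`), so it is the swap of `rootsEquivRoots F ℂ ⟨α, _⟩` and `rootsEquivRoots F ℂ ⟨β, _⟩` (`Equiv.Perm.ext`, `Equiv.swap_apply_def`).
`prm_prime`: copy the proof of `Polynomial.Gal.galActionHom_bijective_of_prime_degree` (`Mathlib/Analysis/Complex/Polynomial/Basic.lean`) with the given swap (`Equiv.Perm.subgroup_eq_top_of_swap_mem`). (The instance `Fact ((F.map (algebraMap ℚ ℂ)).Splits)` is `Polynomial.Gal.splits_ℚ_ℂ`.)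
`prm_prim`: `Equiv.Perm.subgroup_eq_top_of_isPreprimitive_of_isSwap_mem` (`Mathlib/GroupTheory/GroupAction/Jordan.lean`) for the range of `galActionHom F ℂ` (`MulAction.IsPreprimitive` passes from `F.Gal` to its image: `MulAction.IsPreprimitive.of_surjective` / `isPreprimitive_congr` with
the equivariant identity map along `F.Gal → range`).
-/

namespace Pool.Agent.Lib.MP_06b9d2_trp

open Polynomial

attribute [local instance] Polynomial.Gal.splits_ℚ_ℂ

theorem galB (F : ℚ[X]) (σ : F.Gal) (α β : F.SplittingField) (hα : α ∈ F.rootSet F.SplittingField) (hβ : β ∈ F.rootSet F.SplittingField)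
    (hne : α ≠ β) (h1 : σ α = β) (h2 : σ β = α) (h3 : ∀ γ ∈ F.rootSet F.SplittingField, γ ≠ α → γ ≠ β → σ γ = γ) :
    (Gal.galActionHom F ℂ σ).IsSwap := by
  classical
  refine ⟨Gal.rootsEquivRoots F ℂ ⟨α, hα⟩, Gal.rootsEquivRoots F ℂ ⟨β, hβ⟩, ?_, ?_⟩
  · intro h
    apply hne
    have := (Gal.rootsEquivRoots F ℂ).injective h
    exact congrArg Subtype.val this
  · apply Equiv.Perm.ext
    intro x
    change Gal.rootsEquivRoots F ℂ (σ • (Gal.rootsEquivRoots F ℂ).symm x) = _
    obtain ⟨⟨γ, hγ⟩, rfl⟩ := (Gal.rootsEquivRoots F ℂ).surjective x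
    rw [Equiv.symm_apply_apply]
    by_cases hγα : γ = α
    · subst hγα
      rw [Equiv.swap_apply_left]
      congr 1
      exact Subtype.ext h1
    by_cases hγβ : γ = β
    · subst hγβ
      rw [Equiv.swap_apply_right]
      congr 1
      exact Subtype.ext h2
    rw [Equiv.swap_apply_of_ne_of_ne]
    · congr 1
      exact Subtype.ext (h3 γ hγ hγα hγβ)
    · intro h
      exact hγα (congrArg Subtype.val ((Gal.rootsEquivRoots F ℂ).injective h))
    · intro h
      exact hγβ (congrArg Subtype.val ((Gal.rootsEquivRoots F ℂ).injective h))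

theorem prm_prime (F : ℚ[X]) (hirr : Irreducible F) (hp : F.natDegree.Prime) (σ : F.Gal) (hσ : (Gal.galActionHom F ℂ σ).IsSwap) :
    Function.Bijective (Gal.galActionHom F ℂ) := by
  classical
  have h1 : Fintype.card (F.rootSet ℂ) = F.natDegree := by
    simp_rw [rootSet_def, Finset.coe_sort_coe, Fintype.card_coe]
    rw [Multiset.toFinset_card_of_nodup, ← Splits.natDegree_eq_card_roots, natDegree_map]
    · exact IsAlgClosed.splits _
    · exact nodup_roots ((separable_map (algebraMap ℚ ℂ)).mpr hirr.separable)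
  refine
    ⟨Gal.galActionHom_injective F ℂ, fun x =>
      (congr_arg (x ∈ ·) (show (Gal.galActionHom F ℂ).range = ⊤ from ?_)).mpr
        (Subgroup.mem_top x)⟩
  apply Equiv.Perm.subgroup_eq_top_of_swap_mem
  · rwa [h1]
  · rw [h1]
    simpa only [Fintype.card_eq_nat_card,
      Nat.card_congr (MonoidHom.ofInjective (Gal.galActionHom_injective F ℂ)).toEquiv.symm]
      using Gal.prime_degree_dvd_card hirr hp
  · exact ⟨σ, rfl⟩
  · exact hσ

theorem prm_prim (F : ℚ[X]) (hprim : MulAction.IsPreprimitive F.Gal (F.rootSet ℂ)) (σ : F.Gal) (hσ : (Gal.galActionHom F ℂ σ).IsSwap) :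
    Function.Bijective (Gal.galActionHom F ℂ) := by
  classical
  refine
    ⟨Gal.galActionHom_injective F ℂ, fun x =>
      (congr_arg (x ∈ ·) (show (Gal.galActionHom F ℂ).range = ⊤ from ?_)).mpr
        (Subgroup.mem_top x)⟩
  let φ : F.Gal → (Gal.galActionHom F ℂ).range := (Gal.galActionHom F ℂ).rangeRestrict
  let f : (F.rootSet ℂ) →ₑ[φ] (F.rootSet ℂ) :=
    { toFun := id
      map_smul' := fun g x => rfl }
  have hG : MulAction.IsPreprimitive (Gal.galActionHom F ℂ).range (F.rootSet ℂ) :=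
    MulAction.IsPreprimitive.of_surjective (f := f) Function.surjective_id
  exact Equiv.Perm.subgroup_eq_top_of_isPreprimitive_of_isSwap_mem hG _ hσ ⟨σ, rfl⟩

end Pool.Agent.Lib.MP_06b9d2_trp
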