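import Pool.Agent.Lib.MP_06b9d2_trp.Defs
import Mathlib

/-!
Module TRP-IL. Lifting of idempotents modulo `3` in a closed algebra `S` of 3-adic matrices.

`x_0 = X`, `x_{k+1} = 3 x_k ^ 2 - 2 x_k ^ 3` (`Nat.rec` or `Nat.iterate` of `f x = (3 : Z3) • (x * x) - (2 : Z3) • (x * x * x)`). `x_k ∈ S` (`Alg`: closed under `+`, `*`, `•`; subtraction is `+ (-1) •`).
With `e_k = x_k * x_k - x_k`: `x_{k+1} - x_k = - e_k * (2 x_k - 1)` and `e_{k+1} = e_k ^ 2 * (4 x_k ^ 2 - 4 x_k - 3)` (identities in one variable; prove them for `x` in a (noncommutative) ring by `noncomm_ring`, or, if it is slow, transfer from `Polynomial`: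
both sides are polynomials in `x`). Let `I_n` = the matrices with all entries divisible by `3 ^ n` (a two sided ideal: entries of products are sums of products). `e_k ∈ I_{k+1}` by induction: `e_{k+1}` has a factor `e_k ^ 2 ∈ I_{2 k + 2}`, `2 k + 2 ≥ k + 2`.
So `x_{k+1} - x_k ∈ I_{k+1}`, the entries `(x_k r s)_k` are Cauchy sequences in `ℤ_[3]` (`‖x_{k+1} r s - x_k r s‖ ≤ 3 ^ (-(k + 1))`: `PadicInt.norm_le_pow_iff_mem_span_pow` / `PadicInt.norm_le_pow_iff_le_valuation`, `cauchySeq_of_le_geometric` with ratio `1 / 3`),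
so they converge (`ℤ_[3]` is complete: `CompleteSpace`): `E r s = lim`. `x_k → E` (`tendsto_pi_nhds` twice; the topology of `Matrix` is the product topology), so `E ∈ S` (`IsClosed.mem_of_tendsto`), `x_k * x_k - x_k → E * E - E` (continuity of `*`: `ContinuousMul (Matrix ι ι ℤ_[3])` is an instance, or entrywise
`tendsto_finset_sum`) and `→ 0` (norms `≤ 3 ^ (-(k + 1))`), so `E * E = E` (`tendsto_nhds_unique`). `x_k - X ∈ I_1` for all `k`, and `I_1` is closed (`{z : ℤ_[3] | 3 ∣ z}` is closed: it is the closed ball `‖z‖ ≤ 1 / 3`, `PadicInt.norm_le_pow_iff_mem_span_pow` with `n = 1`), so `E - X ∈ I_1`.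
Last assertion: `Z * X = X` gives `Z * x_k = x_k` for all `k` (as `x_{k+1} = x_k * (..)`, by induction `Z * x_k = x_k`), and the limit: `Z * E = E`.
(Alternative without limits of Cauchy sequences: `ℤ_[3]` is compact, so is `Matrix ι ι ℤ_[3]`; a cluster point of `x_k` works too.)
-/

namespace Pool.Agent.Lib.MP_06b9d2_trp

private theorem il_closed_dvd (n : ℕ) : IsClosed {z : Z3 | (3 : Z3) ^ n ∣ z} := by
  have h : {z : Z3 | (3 : Z3) ^ n ∣ z} = {z : Z3 | ‖z‖ ≤ ((3 : ℕ) : ℝ) ^ (-n : ℤ)} := by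
    ext z
    have := PadicInt.norm_le_pow_iff_mem_span_pow (p := 3) z n
    rw [Ideal.mem_span_singleton] at this
    simp only [Set.mem_setOf_eq]
    rw [this]
    norm_num
  rw [h]
  exact isClosed_le continuous_norm continuous_const

private theorem il_zero {z : Z3} (h : ∀ n : ℕ, (3 : Z3) ^ n ∣ z) : z = 0 := by
  have h1 : ∀ n : ℕ, ‖z‖ ≤ (3 : ℝ)⁻¹ ^ n := by
    intro n
    have := (PadicInt.norm_le_pow_iff_mem_span_pow (p := 3) z n).2
      (by rw [Ideal.mem_span_singleton]; exact_mod_cast h n)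
    simpa using this
  have h2 : Filter.Tendsto (fun n : ℕ => (3 : ℝ)⁻¹ ^ n) Filter.atTop (nhds 0) :=
    tendsto_pow_atTop_nhds_zero_of_lt_one (by norm_num) (by norm_num)
  have h3 : ‖z‖ ≤ 0 := ge_of_tendsto' h2 h1
  exact norm_le_zero_iff.1 h3

private theorem il_smul {ι : Type} [Fintype ι] [DecidableEq ι] (n : ℕ) (M : Matrix ι ι Z3) :
    (∀ r s, (3 : Z3) ^ n ∣ M r s) ↔ ∃ N : Matrix ι ι Z3, M = (3 : Z3) ^ n • N := by
  constructor
  · intro h
    choose N hN using h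
    refine ⟨Matrix.of N, ?_⟩
    ext r s
    simp only [Matrix.smul_apply, Matrix.of_apply, smul_eq_mul]
    exact hN r s
  · rintro ⟨N, rfl⟩ r s
    simp only [Matrix.smul_apply, smul_eq_mul]
    exact dvd_mul_right _ _

private theorem il_id1 {R : Type*} [Ring R] (Y : R) :
    (3 * (Y * Y) - 2 * (Y * Y * Y)) * (3 * (Y * Y) - 2 * (Y * Y * Y)) - (3 * (Y * Y) - 2 * (Y * Y * Y)) =
      (Y * Y - Y) * ((Y * Y - Y) * (4 * (Y * Y) - 4 * Y - 3)) := by
  noncomm_ring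

private theorem il_id2 {R : Type*} [Ring R] (Y : R) :
    (3 * (Y * Y) - 2 * (Y * Y * Y)) - Y = (Y * Y - Y) * (1 - 2 * Y) := by
  noncomm_ring

private theorem il_step {ι : Type} [Fintype ι] [DecidableEq ι] {S : Set (Matrix ι ι Z3)} (hS : Alg S)
    (X : Matrix ι ι Z3) (k : ℕ) (Y : Matrix ι ι Z3) (hY : Y ∈ S)
    (h1 : ∀ r s, (3 : Z3) ^ (k + 1) ∣ (Y * Y - Y) r s) (h2 : ∀ r s, (3 : Z3) ∣ (Y - X) r s)
    (h3 : ∀ Z : Matrix ι ι Z3, Z * X = X → Z * Y = Y) :
    ∃ Y' ∈ S, (∀ r s, (3 : Z3) ^ (k + 2) ∣ (Y' * Y' - Y') r s) ∧ (∀ r s, (3 : Z3) ∣ (Y' - X) r s) ∧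
      ∀ Z : Matrix ι ι Z3, Z * X = X → Z * Y' = Y' := by
  obtain ⟨N, hN⟩ := (il_smul (k + 1) _).1 h1
  refine ⟨3 * (Y * Y) - 2 * (Y * Y * Y), ?_, ?_, ?_, ?_⟩
  · have e : (3 * (Y * Y) - 2 * (Y * Y * Y) : Matrix ι ι Z3) =
        (3 : Z3) • (Y * Y) + (-2 : Z3) • (Y * Y * Y) := by
      have a3 : (3 : Z3) • (Y * Y) = 3 * (Y * Y) := by
        rw [show (3 : Z3) = ((3 : ℕ) : Z3) by norm_num, Nat.cast_smul_eq_nsmul, nsmul_eq_mul]; norm_num
      have a2 : (-2 : Z3) • (Y * Y * Y) = -(2 * (Y * Y * Y)) := by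
        rw [neg_smul, show (2 : Z3) = ((2 : ℕ) : Z3) by norm_num, Nat.cast_smul_eq_nsmul, nsmul_eq_mul]; norm_num
      rw [a3, a2, sub_eq_add_neg]
    rw [e]
    exact hS.add _ (hS.smul _ _ (hS.mul _ hY _ hY)) _ (hS.smul _ _ (hS.mul _ (hS.mul _ hY _ hY) _ hY))
  · rw [il_id1, hN]
    refine (il_smul (k + 2) _).2 ⟨(3 : Z3) ^ k • (N * (N * (4 * (Y * Y) - 4 * Y - 3))), ?_⟩
    rw [Matrix.smul_mul, Matrix.smul_mul, Matrix.mul_smul, smul_smul, smul_smul]
    congr 1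
    ring
  · have e : (3 * (Y * Y) - 2 * (Y * Y * Y)) - X = (Y * Y - Y) * (1 - 2 * Y) + (Y - X) := by
      rw [← il_id2]; abel
    intro r s
    rw [e, Matrix.add_apply]
    refine dvd_add ?_ (h2 r s)
    rw [hN, Matrix.smul_mul, Matrix.smul_apply, smul_eq_mul, pow_succ', mul_assoc]
    exact dvd_mul_right _ _
  · intro Z hZ
    have hY3 := h3 Z hZ
    have e : (3 * (Y * Y) - 2 * (Y * Y * Y) : Matrix ι ι Z3) = Y * (3 * Y - 2 * (Y * Y)) := by
      noncomm_ring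
    rw [e, ← mul_assoc, hY3]

theorem il {ι : Type} [Fintype ι] [DecidableEq ι] {S : Set (Matrix ι ι Z3)} (hS : Alg S) (X : Matrix ι ι Z3) (hX : X ∈ S)
    (h3 : ∀ r s, (3 : Z3) ∣ (X * X - X) r s) :
    ∃ E ∈ S, E * E = E ∧ (∀ r s, (3 : Z3) ∣ (E - X) r s) ∧ ∀ Z : Matrix ι ι Z3, Z * X = X → Z * E = E := by
  classical
  let t : ℕ → Set (Matrix ι ι Z3) := fun k =>
    {Y | Y ∈ S ∧ (∀ r s, (3 : Z3) ^ (k + 1) ∣ (Y * Y - Y) r s) ∧ (∀ r s, (3 : Z3) ∣ (Y - X) r s) ∧
      ∀ Z : Matrix ι ι Z3, Z * X = X → Z * Y = Y}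
  have hne : ∀ k, (t k).Nonempty := by
    intro k
    induction k with
    | zero =>
      refine ⟨X, hX, ?_, ?_, fun Z hZ => hZ⟩
      · intro r s
        rw [zero_add, pow_one]
        exact h3 r s
      · intro r s
        simp
    | succ k ih =>
      obtain ⟨Y, hY, h1, h2, h4⟩ := ih
      obtain ⟨Y', a, b, c, d⟩ := il_step hS X k Y hY h1 h2 h4
      exact ⟨Y', a, b, c, d⟩
  have hcl : ∀ k, IsClosed (t k) := by
    intro k
    have c1 : IsClosed {Y : Matrix ι ι Z3 | ∀ r s, (3 : Z3) ^ (k + 1) ∣ (Y * Y - Y) r s} := by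
      simp only [Set.setOf_forall]
      refine isClosed_iInter fun r => isClosed_iInter fun s => ?_
      have hc : Continuous fun Y : Matrix ι ι Z3 => (Y * Y - Y) r s := by fun_prop
      exact (il_closed_dvd (k + 1)).preimage hc
    have c2 : IsClosed {Y : Matrix ι ι Z3 | ∀ r s, (3 : Z3) ∣ (Y - X) r s} := by
      simp only [Set.setOf_forall]
      refine isClosed_iInter fun r => isClosed_iInter fun s => ?_
      have hc : Continuous fun Y : Matrix ι ι Z3 => (Y - X) r s := by fun_prop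
      have := (il_closed_dvd 1).preimage hc
      simpa using this
    have c3 : IsClosed {Y : Matrix ι ι Z3 | ∀ Z : Matrix ι ι Z3, Z * X = X → Z * Y = Y} := by
      simp only [Set.setOf_forall]
      refine isClosed_iInter fun Z => isClosed_iInter fun hZ => ?_
      exact isClosed_eq (by fun_prop) continuous_id
    exact hS.closed.inter (c1.inter (c2.inter c3))
  have hcp : CompactSpace (Matrix ι ι Z3) := by
    change CompactSpace (ι → ι → Z3)
    infer_instance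
  obtain ⟨E, hE⟩ := IsCompact.nonempty_iInter_of_sequence_nonempty_isCompact_isClosed t
    (by
      intro k Y hY
      refine ⟨hY.1, fun r s => ?_, hY.2.2.1, hY.2.2.2⟩
      exact (pow_dvd_pow _ (by omega)).trans (hY.2.1 r s)) hne ((hcl 0).isCompact) hcl
  rw [Set.mem_iInter] at hE
  refine ⟨E, (hE 0).1, ?_, (hE 0).2.2.1, (hE 0).2.2.2⟩
  ext r s
  have : (E * E - E) r s = 0 := by
    apply il_zero
    intro n
    exact (pow_dvd_pow _ (by omega)).trans ((hE n).2.1 r s)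
  rw [Matrix.sub_apply] at this
  exact sub_eq_zero.1 this

end Pool.Agent.Lib.MP_06b9d2_trp
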