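import Pool.Agent.Lib.MP_06b9d2_trp.Zoom
import Pool.Agent.Lib.MP_06b9d2_trp.CmbB

/-!
Module TRP-Last. The entries of `T` at the stage `R + 1` between positions in `[1, (N - 1) / 4]`.

`r < s` in the class `z` modulo `3 ^ (R + 1)`: `3 ^ (R + 1) ∣ uu N r - uu N s` (`key_iff`).
`last_dg`: if `3 ∣ T r r - T s s` then `aff` (`j = R + 1`) gives `3 ^ (R + 2) ∣ uu N s - uu N r` (in `Z3`, then `int_dvd`), against `pr_not`.
`last_off` (`s ≠ r + 1`): `cut_ex` with `j = R` (`3 ^ R ∣ 3 ^ (R + 1)`): a cut `3 ^ R i + a` between `r` and `s`; `relP` (`j = R + 1`, `min (R + 1) R = R`): `3 ^ (R + 2) ∣ 3 ^ (R + 1) T s r - M s r`, and `cutR`: `3 ^ (R + 2) ∣ M s r`, so `3 ∣ T s r`. (So the product with `T r s` is divisible by `3`.)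
`last_adj` (`s = r + 1`): `pr_adj`: `s = 3 ^ R i0 + a` (`i0 = i0 c`, put `i1 = c - i0`, `i0 ≤ c`). `relP` with `i = i0` for both entries: `3 ^ (R + 2) ∣ 3 ^ (R + 1) T s r - M s r` and `∣ 3 ^ (R + 1) T r s - M r s`. `adj i0`: `M s r ≡ 3 ^ (R + 1) x` with
`x = (-1) ^ (3 ^ R i0 + 1) (c - i0)`; `M r s = M (N - r) (N - s)` (`sym`), `N - s = (N - r) - 1`, `N - r = N + 1 - s = 3 ^ R i1 + a`, `adj i1`: `M r s ≡ 3 ^ (R + 1) y` with `y = (-1) ^ (3 ^ R i1 + 1) (c - i1)`. So `T s r ≡ x`, `T r s ≡ y` modulo `3` (cancel `3 ^ (R + 1)`), and `x y ≡ 1` (`res_prod`).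
-/

namespace Pool.Agent.Lib.MP_06b9d2_trp

variable {N R a c : ℕ} {M : ℕ → ℕ → ℤ} {S : Set (Matrix (Fin (N + 1)) (Fin (N + 1)) Z3)}

private theorem Last_ne : (3 : Z3) ≠ 0 := by exact_mod_cast (show (3 : ℕ) ≠ 0 by norm_num)

private theorem Last_cancel (j : ℕ) (x : Z3) (h : (3 : Z3) ^ (j + 1) ∣ 3 ^ j * x) : (3 : Z3) ∣ x := by
  rw [pow_succ] at h
  exact (mul_dvd_mul_iff_left (pow_ne_zero j Last_ne)).mp h

theorem last_dg (C : Ctx N R a c M S) (hc : c = 8 ∨ c = 10 ∨ c = 14 ∨ c = 16) {z : ℤ} {E T : Matrix (Fin (N + 1)) (Fin (N + 1)) Z3} {h : Z3}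
    (P : Pc S (MX N M) (R + 1) (fun r => key N (R + 1) r = z) E T h) (r s : Fin (N + 1)) (hr : key N (R + 1) r = z)
    (hs : key N (R + 1) s = z) (h0 : 1 ≤ (r : ℕ)) (h1 : (r : ℕ) < s) (h2 : (s : ℕ) ≤ (N - 1) / 4) : ¬ (3 : Z3) ∣ T r r - T s s := by
  intro hd
  have hk : (3 : ℤ) ^ (R + 1) ∣ uu N r - uu N s := (key_iff N (R + 1) r s).mp (by rw [hr, hs])
  refine pr_not C.fct.hN C.fct.ha C.fct.hR hc r s h0 h1 h2 hk ?_
  have h3 := aff C le_rfl P r s hr hs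
  have h4 : (3 : Z3) ^ (R + 1 + 1) ∣ 3 ^ (R + 1) * (T s s - T r r) := by
    rw [pow_succ]
    refine mul_dvd_mul_left _ ?_
    rw [← dvd_neg, neg_sub]
    exact hd
  have h5 := (dvd_sub h4 h3)
  rw [sub_sub_cancel] at h5
  have h6 := (int_dvd (R + 1 + 1) _).mp h5
  rw [← dvd_neg, neg_sub] at h6
  exact h6

theorem last_off (C : Ctx N R a c M S) (hc : c = 8 ∨ c = 10 ∨ c = 14 ∨ c = 16) {z : ℤ} {E T : Matrix (Fin (N + 1)) (Fin (N + 1)) Z3} {h : Z3}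
    (P : Pc S (MX N M) (R + 1) (fun r => key N (R + 1) r = z) E T h) (r s : Fin (N + 1)) (hr : key N (R + 1) r = z)
    (hs : key N (R + 1) s = z) (h0 : 1 ≤ (r : ℕ)) (h1 : (r : ℕ) < s) (h2 : (s : ℕ) ≤ (N - 1) / 4) (h3 : (r : ℕ) + 1 ≠ s) :
    (3 : Z3) ∣ T r s * T s r := by
  have hk : (3 : ℤ) ^ (R + 1) ∣ uu N r - uu N s := (key_iff N (R + 1) r s).mp (by rw [hr, hs])
  have hk' : (3 : ℤ) ^ R ∣ uu N r - uu N s := (pow_dvd_pow _ (Nat.le_succ R)).trans hk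
  have hsN : (s : ℕ) ≤ N := Nat.lt_succ_iff.mp s.2
  obtain ⟨i, hi1, hi2⟩ := cut_ex C.fct.hN C.fct.ha R le_rfl (r : ℕ) (s : ℕ) h1 hsN hk'
  have hmin : min (R + 1) R = R := min_eq_right (Nat.le_succ R)
  have h4 := (relP C le_rfl P r s hr hs i (by rw [hmin]; exact hi1) (by rw [hmin]; exact hi2)).1
  have h5 := (int_dvd (R + 1 + 1) _).mpr (C.fct.cutR i (r : ℕ) (s : ℕ) hi1 hi2 hsN h3)
  have h6 := dvd_add h4 h5
  rw [sub_add_cancel] at h6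
  exact Dvd.dvd.mul_left (Last_cancel (R + 1) _ h6) _

theorem last_adj (C : Ctx N R a c M S) (hc : c = 8 ∨ c = 10 ∨ c = 14 ∨ c = 16) {z : ℤ} {E T : Matrix (Fin (N + 1)) (Fin (N + 1)) Z3} {h : Z3}
    (P : Pc S (MX N M) (R + 1) (fun r => key N (R + 1) r = z) E T h) (r s : Fin (N + 1)) (hr : key N (R + 1) r = z)
    (hs : key N (R + 1) s = z) (h0 : 1 ≤ (r : ℕ)) (h2 : (s : ℕ) ≤ (N - 1) / 4) (h3 : (r : ℕ) + 1 = s) :
    (3 : Z3) ∣ T r s * T s r - 1 := by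
  have hk : (3 : ℤ) ^ (R + 1) ∣ uu N r - uu N s := (key_iff N (R + 1) r s).mp (by rw [hr, hs])
  have hsN : (s : ℕ) ≤ N := Nat.lt_succ_iff.mp s.2
  rw [← h3] at hk
  have hadj := pr_adj C.fct.hN C.fct.ha C.fct.hR hc (r : ℕ) h0 (by omega) hk
  have hmin : min (R + 1) R = R := min_eq_right (Nat.le_succ R)
  obtain ⟨hA, hB⟩ := relP C le_rfl P r s hr hs (i0 c) (by rw [hmin]; omega) (by rw [hmin]; omega)
  have hic : i0 c ≤ c := by
    unfold i0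
    split_ifs <;> omega
  have hN := C.fct.hN
  have hprod := res_prod R hc
  set x : ℤ := (-1) ^ (3 ^ R * i0 c + 1) * ((c : ℤ) - (i0 c : ℕ)) with hx
  set y : ℤ := (-1) ^ (3 ^ R * (c - i0 c) + 1) * ((c : ℤ) - ((c - i0 c : ℕ) : ℤ)) with hy
  -- the first entry
  have e1 := C.fct.adj (i0 c) (by omega) (by omega)
  rw [← hadj, Nat.add_sub_cancel] at e1
  rw [h3] at e1
  -- the second entry
  have hcc : c * 3 ^ R = 3 ^ R * i0 c + 3 ^ R * (c - i0 c) := by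
    rw [← Nat.mul_add, Nat.add_sub_cancel' hic, Nat.mul_comm]
  have hNr : 3 ^ R * (c - i0 c) + a = N - r := by omega
  have hNs : N - (r : ℕ) - 1 = N - s := by omega
  have e2 := C.fct.adj (c - i0 c) (by omega) (by omega)
  rw [hNr, hNs, C.fct.sym (s : ℕ) hsN (r : ℕ) (by omega)] at e2
  have key1 : (3 : Z3) ∣ T s r - (x : Z3) := by
    apply Last_cancel (R + 1)
    have h4 := (int_dvd (R + 1 + 1) _).mpr e1
    have h5 := dvd_add hA h4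
    have h6 : (3 : Z3) ^ (R + 1) * T s r - ((M s r : ℤ) : Z3) + ((M s r - 3 ^ (R + 1) * x : ℤ) : Z3) =
        3 ^ (R + 1) * (T s r - (x : Z3)) := by
      push_cast
      ring
    rw [← h6]
    exact h5
  have key2 : (3 : Z3) ∣ T r s - (y : Z3) := by
    apply Last_cancel (R + 1)
    have h4 := (int_dvd (R + 1 + 1) _).mpr e2
    have h5 := dvd_add hB h4
    have h6 : (3 : Z3) ^ (R + 1) * T r s - ((M r s : ℤ) : Z3) + ((M r s - 3 ^ (R + 1) * y : ℤ) : Z3) =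
        3 ^ (R + 1) * (T r s - (y : Z3)) := by
      push_cast
      ring
    rw [← h6]
    exact h5
  have key3 : (3 : Z3) ∣ ((x * y - 1 : ℤ) : Z3) := by
    have := map_dvd (Int.castRingHom Z3) hprod
    simpa using this
  have h7 : T r s * T s r - 1 = (T r s - (y : Z3)) * T s r + (y : Z3) * (T s r - (x : Z3)) + ((x * y - 1 : ℤ) : Z3) := by
    push_cast
    ring
  rw [h7]
  exact dvd_add (dvd_add (Dvd.dvd.mul_right key2 _) (Dvd.dvd.mul_left key1 _)) key3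

end Pool.Agent.Lib.MP_06b9d2_trp
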