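import Pool.Agent.Lib.MP_06b9d2_trp.RepX
import Pool.Agent.Lib.MP_06b9d2_trp.SymZ
import Pool.Agent.Lib.MP_06b9d2_ssp.Two
import Pool.Agent.Lib.MP_06b9d2_ssp.Eig
import Pool.Agent.Lib.MP_06b9d2_nt.MU.Mtx

/-!
Module TRP-Lnk. The matrix of `T_2` on `S_k`, `k = 3 N + 1`, and the matrix `MZ N`.

Copy the beginning of the proof of `ker_le` (`MP_06b9d2_ssp/Eig.lean`). `lv_ex`: `a`, `c`, `h : Lv a c`. `Phi_ex k` (`MP_06b9d2_nt/MU/Mtx.lean`), `k = 3 N + 1 : ℕ`: `Φ` bijective, `qExpansion 1 f = ∑_j Φ f j • bas ℂ k (j + 1)`, `dd k - 1 = (N - 1) / 4 =: d` (`dd_eq`; to avoid casts state a private version with an arbitrary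
`n` and `hn : dd k - 1 = n`, `subst`; or use `Fin.cast`). Let `e_j` be the basis of `S_k` with `qExpansion 1 e_j = 27 ^ (j + 1) • bas ℂ k (j + 1) = ∑_s Y0 N s j • mo s` (`bas_mo`): the basis given by the linear equivalence `Φ' f j = Φ f j / 27 ^ (j + 1)`; `b` = the matrix of `T` in this basis (`LinearMap.toMatrix`; `b.charpoly = LinearMap.charpoly T`:
`LinearMap.charpoly_toMatrix`). `qExpansion 1 (T e_j) = ∑_j' b j' j • qExpansion 1 e_j' = ∑_s (∑_j' Y0 N s j' b j' j) • mo s`. On the other side `qExpansion 1 (T e_j) = Tq k (qExpansion 1 e_j)` (`q_T` in `Eig.lean`, private: copy), `= ∑_s Y0 N s j • Tq k (mo s) = ∑_s Y0 N s j • (3 / 2 (-2) ^ N) • ∑_r Mt 1 N r s • mo r` (`Tq_sum`, `T_mo h 1 N s`; `Even (N + 1)`), and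
`Mt 1 N r s = 3 / 4 ^ N * MZ N r s` (`MZ_cast`). `ind h 1 N` (`Ind.lean`) gives the equality of the coefficients for `r ≤ N`.
-/

namespace Pool.Agent.Lib.MP_06b9d2_trp

open PowerSeries Pool.Agent.L1 UpperHalfPlane Pool.Agent.Lib.MP_06b9d2_nt Pool.Agent.Lib.MP_06b9d2_ssp
open Pool.Agent.Lib.MP_06b9d2_nt.MU (Phi_ex)
open scoped MatrixGroups ModularForm

private theorem lnk_q_T (k : ℕ) (T : CuspForm 𝒮ℒ (k : ℤ) →ₗ[ℂ] CuspForm 𝒮ℒ (k : ℤ))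
    (hT : IsHecke (k : ℤ) 2 T) (f : CuspForm 𝒮ℒ (k : ℤ)) :
    qExpansion 1 (T f) = Tq k (qExpansion 1 f) := by
  ext m
  rw [hecke_q hT f m]
  unfold Tq
  rw [map_add, map_smul]
  have h1 : coeff m (U2 (qExpansion 1 f)) = (qExpansion 1 f).coeff (2 * m) := by
    unfold U2
    rw [coeff_mk]
  have h2 : coeff m (V2 (qExpansion 1 f)) =
      (if 2 ∣ m then (qExpansion 1 f).coeff (m / 2) else 0) := by
    unfold V2
    rw [coeff_expand]
  rw [h1, h2, smul_eq_mul, zpow_sub_one₀ (by norm_num : (2 : ℂ) ≠ 0), zpow_natCast, div_eq_mul_inv]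

private theorem lnk_Tq_sum (k n : ℕ) (x : ℕ → ℂ) (m : ℕ → ℂ⟦X⟧) :
    Tq k (∑ s ∈ Finset.range n, x s • m s) = ∑ s ∈ Finset.range n, x s • Tq k (m s) := by
  have hU : ∀ (r : ℂ) (f : ℂ⟦X⟧), U2 (r • f) = r • U2 f := by
    intro r f
    ext i
    simp [U2]
  have hA : ∀ (f g : ℂ⟦X⟧), U2 (f + g) = U2 f + U2 g := by
    intro f g
    ext i
    simp [U2]
  have h0 : U2 (0 : ℂ⟦X⟧) = 0 := by
    ext i
    simp [U2]
  induction n with
  | zero => simp [Tq, h0]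
  | succ n ih =>
    rw [Finset.sum_range_succ, Finset.sum_range_succ, ← ih]
    unfold Tq
    rw [hA, hU, map_add, map_smul]
    module

private theorem lnk_nat (N : ℕ) (hodd : N % 2 = 1) (n : ℕ) (hn : dd (3 * N + 1) - 1 = n)
    (hn' : n = (N - 1) / 4) [Module.Finite ℂ (CuspForm 𝒮ℒ ((3 * N + 1 : ℕ) : ℤ))]
    (T : CuspForm 𝒮ℒ ((3 * N + 1 : ℕ) : ℤ) →ₗ[ℂ] CuspForm 𝒮ℒ ((3 * N + 1 : ℕ) : ℤ))
    (hT : IsHecke ((3 * N + 1 : ℕ) : ℤ) 2 T) :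
    ∃ b : Matrix (Fin n) (Fin n) ℂ, b.charpoly = LinearMap.charpoly T ∧
      ∀ r ≤ N, ∀ j : Fin n, (9 / 2 * (-2) ^ N / 4 ^ N : ℂ) *
          ∑ s ∈ Finset.range (N + 1), ((MZ N r s : ℤ) : ℂ) * ((Y0 N s j : ℤ) : ℂ) =
        ∑ j' : Fin n, ((Y0 N r j' : ℤ) : ℂ) * b j' j := by
  subst hn
  obtain ⟨a, c, h⟩ := lv_ex
  obtain ⟨Φ, hΦb, hΦ⟩ := Phi_ex (3 * N + 1)
  let e1 : CuspForm 𝒮ℒ ((3 * N + 1 : ℕ) : ℤ) ≃ₗ[ℂ] (Fin (dd (3 * N + 1) - 1) → ℂ) :=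
    (LinearEquiv.ofBijective Φ hΦb).trans (LinearEquiv.piCongrRight fun j =>
      LinearEquiv.smulOfNeZero ℂ ℂ (((27 : ℂ) ^ ((j : ℕ) + 1))⁻¹)
        (inv_ne_zero (pow_ne_zero _ (by norm_num))))
  have he1 : ∀ f j, Φ f j = e1 f j * (27 : ℂ) ^ ((j : ℕ) + 1) := by
    intro f j
    have h1 : e1 f j = ((27 : ℂ) ^ ((j : ℕ) + 1))⁻¹ * Φ f j := rfl
    have h2 : (27 : ℂ) ^ ((j : ℕ) + 1) ≠ 0 := pow_ne_zero _ (by norm_num)
    rw [h1]
    field_simp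
  let B : Module.Basis (Fin (dd (3 * N + 1) - 1)) ℂ (CuspForm 𝒮ℒ ((3 * N + 1 : ℕ) : ℤ)) :=
    Module.Basis.ofEquivFun e1
  have hq : ∀ f : CuspForm 𝒮ℒ ((3 * N + 1 : ℕ) : ℤ), qExpansion 1 f = ∑ s ∈ Finset.range (N + 1),
      (∑ j : Fin (dd (3 * N + 1) - 1), ((Y0 N s j : ℤ) : ℂ) * e1 f j) • mo a c 1 N s := by
    intro f
    rw [hΦ f]
    calc ∑ j : Fin (dd (3 * N + 1) - 1), Φ f j • bas ℂ (3 * N + 1) ((j : ℕ) + 1)
        = ∑ j : Fin (dd (3 * N + 1) - 1), ∑ s ∈ Finset.range (N + 1),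
            (((Y0 N s j : ℤ) : ℂ) * e1 f j) • mo a c 1 N s := by
          refine Finset.sum_congr rfl fun j _ => ?_
          rw [he1, mul_smul, bas_mo h N hodd j (by have := j.2; omega), Finset.smul_sum]
          refine Finset.sum_congr rfl fun s _ => ?_
          rw [smul_smul, mul_comm]
      _ = _ := by
          rw [Finset.sum_comm]
          refine Finset.sum_congr rfl fun s _ => ?_
          rw [Finset.sum_smul]
  have hB : ∀ j, e1 (B j) = Pi.single j 1 := by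
    intro j
    show e1 (Module.Basis.ofEquivFun e1 j) = _
    rw [Module.Basis.coe_ofEquivFun]
    simp
  have hqB : ∀ j : Fin (dd (3 * N + 1) - 1), qExpansion 1 (B j) =
      ∑ s ∈ Finset.range (N + 1), ((Y0 N s j : ℤ) : ℂ) • mo a c 1 N s := by
    intro j
    rw [hq (B j), hB j]
    refine Finset.sum_congr rfl fun s _ => ?_
    congr 1
    rw [Finset.sum_eq_single j]
    · rw [Pi.single_eq_same, mul_one]
    · intro i _ hi
      rw [Pi.single_eq_of_ne hi, mul_zero]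
    · intro hj
      exact absurd (Finset.mem_univ _) hj
  refine ⟨LinearMap.toMatrix B B T, LinearMap.charpoly_toMatrix T B, fun r hr j => ?_⟩
  have hb : ∀ i, LinearMap.toMatrix B B T i j = e1 (T (B j)) i := by
    intro i
    rw [LinearMap.toMatrix_apply]
    rfl
  have hT1 : qExpansion 1 (T (B j)) = ∑ s ∈ Finset.range (N + 1),
      (∑ i : Fin (dd (3 * N + 1) - 1), ((Y0 N s i : ℤ) : ℂ) * LinearMap.toMatrix B B T i j) • mo a c 1 N s := by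
    rw [hq (T (B j))]
    refine Finset.sum_congr rfl fun s _ => ?_
    congr 1
    refine Finset.sum_congr rfl fun i _ => ?_
    rw [hb]
  have hT2 : qExpansion 1 (T (B j)) = ∑ r ∈ Finset.range (N + 1), ((3 / 2 * (-2) ^ N : ℂ) *
      ∑ s ∈ Finset.range (N + 1), Mt 1 N r s * ((Y0 N s j : ℤ) : ℂ)) • mo a c 1 N r := by
    rw [lnk_q_T (3 * N + 1) T hT, hqB j, lnk_Tq_sum]
    calc ∑ s ∈ Finset.range (N + 1), ((Y0 N s j : ℤ) : ℂ) • Tq (3 * N + 1) (mo a c 1 N s)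
        = ∑ s ∈ Finset.range (N + 1), ∑ r ∈ Finset.range (N + 1),
            ((3 / 2 * (-2) ^ N : ℂ) * (Mt 1 N r s * ((Y0 N s j : ℤ) : ℂ))) • mo a c 1 N r := by
          refine Finset.sum_congr rfl fun s hs => ?_
          have hs' : s ≤ N := Nat.lt_succ_iff.mp (Finset.mem_range.mp hs)
          rw [T_mo h 1 N s (by norm_num) (by rw [Nat.even_iff]; omega) hs', smul_smul, Finset.smul_sum]
          refine Finset.sum_congr rfl fun r _ => ?_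
          rw [smul_smul]
          congr 1
          ring
      _ = _ := by
          rw [Finset.sum_comm]
          refine Finset.sum_congr rfl fun r _ => ?_
          rw [← Finset.sum_smul, Finset.mul_sum]
  have h3 : ∑ r ∈ Finset.range (N + 1), (((3 / 2 * (-2) ^ N : ℂ) *
      ∑ s ∈ Finset.range (N + 1), Mt 1 N r s * ((Y0 N s j : ℤ) : ℂ)) -
      ∑ i : Fin (dd (3 * N + 1) - 1), ((Y0 N r i : ℤ) : ℂ) * LinearMap.toMatrix B B T i j) • mo a c 1 N r = 0 := by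
    simp only [sub_smul]
    rw [Finset.sum_sub_distrib, ← hT1, ← hT2, sub_self]
  have h4 := sub_eq_zero.mp (ind h 1 N _ h3 r hr)
  rw [← h4, Finset.mul_sum, Finset.mul_sum]
  refine Finset.sum_congr rfl fun s _ => ?_
  have h5 := MZ_cast N r s
  have h6 : (4 : ℂ) ^ N ≠ 0 := pow_ne_zero _ (by norm_num)
  have h7 : Mt 1 N r s = 3 * ((MZ N r s : ℤ) : ℂ) / 4 ^ N := by
    rw [h5]
    field_simp
  rw [h7]
  field_simp
  ring

theorem lnk (N : ℕ) (hodd : N % 2 = 1) (k : ℤ) (hk : k = 3 * (N : ℤ) + 1) [Module.Finite ℂ (CuspForm 𝒮ℒ k)]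
    (T : CuspForm 𝒮ℒ k →ₗ[ℂ] CuspForm 𝒮ℒ k) (hT : IsHecke k 2 T) :
    ∃ b : Matrix (Fin ((N - 1) / 4)) (Fin ((N - 1) / 4)) ℂ, b.charpoly = LinearMap.charpoly T ∧
      ∀ r ≤ N, ∀ j : Fin ((N - 1) / 4), (9 / 2 * (-2) ^ N / 4 ^ N : ℂ) * ∑ s ∈ Finset.range (N + 1), ((MZ N r s : ℤ) : ℂ) * ((Y0 N s j : ℤ) : ℂ) =
        ∑ j' : Fin ((N - 1) / 4), ((Y0 N r j' : ℤ) : ℂ) * b j' j := by
  have h1 : k = ((3 * N + 1 : ℕ) : ℤ) := by
    rw [hk]
    push_cast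
    rfl
  subst h1
  have h2 := dd_eq N hodd
  obtain ⟨n, hn⟩ : ∃ n, n = (N - 1) / 4 := ⟨_, rfl⟩
  rw [← hn]
  exact lnk_nat N hodd n (by rw [h2, hn]) hn T hT

end Pool.Agent.Lib.MP_06b9d2_trp
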