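import Mathlib

/-!
Module TRP-SepC. Separable polynomials over `ℂ`.

`p.natDegree = card p.roots` (`IsAlgClosed.card_roots_eq_natDegree` or `Polynomial.splits_iff_card_roots`), so `h` says that `p.roots` has no duplicates (`Multiset.toFinset_card_eq_card_iff_nodup`), and `Polynomial.nodup_roots_iff_of_splits` (splitting over an algebraically closed field: `IsAlgClosed.splits`). Converse: `Multiset.toFinset_card_of_nodup`, `Polynomial.nodup_roots`.
-/

namespace Pool.Agent.Lib.MP_06b9d2_trp

theorem sep_iff (p : Polynomial ℂ) (hp : p ≠ 0) : p.Separable ↔ p.roots.toFinset.card = p.natDegree := by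
  have hs : p.Splits := IsAlgClosed.splits p
  have h1 : p.roots.card = p.natDegree := Polynomial.splits_iff_card_roots.1 hs
  rw [← Polynomial.nodup_roots_iff_of_splits hp hs, ← h1, Multiset.toFinset_card_eq_card_iff_nodup]

end Pool.Agent.Lib.MP_06b9d2_trp
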