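import Pool.Agent.Lib.MP_06b9d2_trp.TrfM
import Pool.Agent.Lib.MP_06b9d2_trp.HkG
import Pool.Agent.Lib.MP_06b9d2_trp.Defs

/-!
Module TRP-TrfT. From `T_2` to `T_n`.
-/

namespace Pool.Agent.Lib.MP_06b9d2_trp

open UpperHalfPlane Pool.Agent.L1 Pool.Agent.Lib.MP_06b9d2_nt Pool.Agent.Lib.MP_06b9d2_nt.MU
open scoped MatrixGroups ModularForm

private theorem map_int_rat {d : ℕ} (M : Matrix (Fin d) (Fin d) ℤ) :
    M.charpoly.map (Int.castRingHom ℚ) = (M.map (Int.cast : ℤ → ℚ)).charpoly :=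
  (Matrix.charpoly_map M (Int.castRingHom ℚ)).symm

private theorem neg_case {k : ℤ} (hneg : k < 0) [Module.Finite ℂ (CuspForm 𝒮ℒ k)]
    (T : CuspForm 𝒮ℒ k →ₗ[ℂ] CuspForm 𝒮ℒ k) : LinearMap.charpoly T = 1 := by
  have h1 : Module.finrank ℂ (CuspForm 𝒮ℒ k) = 0 := by
    rw [Module.finrank, CuspForm.rank_eq_zero_of_weight_lt_twelve (by omega)]
    exact Cardinal.zero_toNat
  have h3 := LinearMap.charpoly_natDegree T
  rw [h1] at h3
  exact (LinearMap.charpoly_monic T).natDegree_eq_zero.1 h3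

theorem cp_int {n : ℕ} [NeZero n] (k : ℤ) [Module.Finite ℂ (CuspForm 𝒮ℒ k)] (T : CuspForm 𝒮ℒ k →ₗ[ℂ] CuspForm 𝒮ℒ k) (hT : IsHecke k n T) :
    ∃ F : Polynomial ℤ, F.Monic ∧ F.map (Int.castRingHom ℂ) = LinearMap.charpoly T := by
  have hn : 0 < n := Nat.pos_of_ne_zero (NeZero.ne n)
  rcases lt_or_ge k 0 with hneg | hpos
  · exact ⟨1, Polynomial.monic_one, by rw [neg_case hneg T, Polynomial.map_one]⟩
  · obtain ⟨w, rfl⟩ := Int.eq_ofNat_of_zero_le hpos
    obtain ⟨Φ, hΦ, hM⟩ := MtxJ w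
    obtain ⟨M, hTM⟩ := hM n hn T hT
    refine ⟨M.charpoly, M.charpoly_monic, ?_⟩
    rw [← charpoly_of hΦ hTM, ← map_int_rat, Polynomial.map_map]
    congr 1

theorem trfT {n m : ℕ} [NeZero n] [NeZero m] (k : ℤ) [Module.Finite ℂ (CuspForm 𝒮ℒ k)]
    (T T' : CuspForm 𝒮ℒ k →ₗ[ℂ] CuspForm 𝒮ℒ k) (hT : IsHecke k n T) (hT' : IsHecke k m T')
    (hs : (LinearMap.charpoly T).Separable) (hs' : (LinearMap.charpoly T').Separable) (F F' : Polynomial ℤ)
    (hF : F.map (Int.castRingHom ℂ) = LinearMap.charpoly T) (hF' : F'.map (Int.castRingHom ℂ) = LinearMap.charpoly T') :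
    Multiset.card (F.map (Int.castRingHom Q3)).roots = Multiset.card (F'.map (Int.castRingHom Q3)).roots := by
  have hn : 0 < n := Nat.pos_of_ne_zero (NeZero.ne n)
  have hm : 0 < m := Nat.pos_of_ne_zero (NeZero.ne m)
  have hinjZ : Function.Injective (Int.castRingHom ℂ) := Int.cast_injective
  rcases lt_or_ge k 0 with hneg | hpos
  · have h1 : F = F' := by
      apply Polynomial.map_injective _ hinjZ
      rw [hF, hF', neg_case hneg T, neg_case hneg T']
    rw [h1]
  · obtain ⟨w, rfl⟩ := Int.eq_ofNat_of_zero_le hpos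
    obtain ⟨Φ, hΦ, hM⟩ := MtxJ w
    obtain ⟨M, hTM⟩ := hM n hn T hT
    obtain ⟨M', hTM'⟩ := hM m hm T' hT'
    have hA := charpoly_of hΦ hTM
    have hB := charpoly_of hΦ hTM'
    -- the matrices commute
    have hcC : M.map (Int.cast : ℤ → ℂ) * M'.map (Int.cast : ℤ → ℂ) =
        M'.map (Int.cast : ℤ → ℂ) * M.map (Int.cast : ℤ → ℂ) := by
      apply Matrix.ext_of_mulVec_single
      intro i
      obtain ⟨f, hf⟩ := hΦ.2 (Pi.single i 1)
      rw [← Matrix.mulVec_mulVec, ← Matrix.mulVec_mulVec, ← hf, ← hTM', ← hTM, ← hTM, ← hTM']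
      have h1 : T (T' f) = T' (T f) := LinearMap.congr_fun (hecke_comm hT hT') f
      rw [h1]
    have hcZ : M * M' = M' * M := by
      have h1 : Function.Injective (fun N : Matrix (Fin (dd w - 1)) (Fin (dd w - 1)) ℤ =>
          N.map (Int.cast : ℤ → ℂ)) := by
        intro N N' h
        ext i j
        have h2 := congrFun (congrFun h i) j
        simp only [Matrix.map_apply] at h2
        exact_mod_cast h2
      apply h1
      simp only
      have h2 : ∀ N N' : Matrix (Fin (dd w - 1)) (Fin (dd w - 1)) ℤ,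
          (N * N').map (Int.cast : ℤ → ℂ) = N.map (Int.cast : ℤ → ℂ) * N'.map (Int.cast : ℤ → ℂ) := by
        intro N N'
        exact Matrix.map_mul (f := Int.castRingHom ℂ)
      rw [h2, h2, hcC]
    have hcQ : M.map (Int.cast : ℤ → ℚ) * M'.map (Int.cast : ℤ → ℚ) =
        M'.map (Int.cast : ℤ → ℚ) * M.map (Int.cast : ℤ → ℚ) := by
      have h2 : ∀ N N' : Matrix (Fin (dd w - 1)) (Fin (dd w - 1)) ℤ,
          (N * N').map (Int.cast : ℤ → ℚ) = N.map (Int.cast : ℤ → ℚ) * N'.map (Int.cast : ℤ → ℚ) := by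
        intro N N'
        exact Matrix.map_mul (f := Int.castRingHom ℚ)
      rw [← h2, ← h2, hcZ]
    have hsA : (M.map (Int.cast : ℤ → ℚ)).charpoly.Separable := by
      rw [← Polynomial.separable_map (algebraMap ℚ ℂ), hA]
      exact hs
    have hsB : (M'.map (Int.cast : ℤ → ℚ)).charpoly.Separable := by
      rw [← Polynomial.separable_map (algebraMap ℚ ℂ), hB]
      exact hs'
    have key := trfM (K := Q3) _ _ hcQ hsA hsB
    have eF : F = M.charpoly := by
      apply Polynomial.map_injective _ hinjZ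
      rw [hF, ← hA, ← map_int_rat, Polynomial.map_map]
      congr 1
    have eF' : F' = M'.charpoly := by
      apply Polynomial.map_injective _ hinjZ
      rw [hF', ← hB, ← map_int_rat, Polynomial.map_map]
      congr 1
    rw [← map_int_rat, ← map_int_rat, Polynomial.map_map, Polynomial.map_map,
      RingHom.ext_int ((algebraMap ℚ Q3).comp (Int.castRingHom ℚ)) (Int.castRingHom Q3), ← eF, ← eF'] at key
    exact key

end Pool.Agent.Lib.MP_06b9d2_trp
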