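import Pool.Agent.Lib.MP_06b9d2_trp.Defs
import Mathlib

/-!
Module TRP-YmU. The integral matrix `Y`.

`d = (N - 1) / 4`. `Y0 N s j` = coefficient of `X ^ s` in `X ^ (j + 1) Q_j`, `Q_j = (1 + X) ^ (d - (j + 1)) (1 + 9 X) ^ (..) (1 - 18 X - 27 X ^ 2) ^ (..)`, `Q_j` has the constant coefficient `1`. So `Y0 N s j = 0` for `s < j + 1`, `Y0 N (j + 1) j = 1` (`Polynomial.coeff_X_pow_mul'`; associativity), and modulo `3`
(`Polynomial.map (Int.castRingHom (ZMod 3))`, `9 = 18 = 27 = 0`) `X ^ (j + 1) Q_j` is `X ^ (j + 1) (1 + X) ^ (d - (j + 1))`, of degree `≤ d` (for `j < d`), so `3 ∣ Y0 N s j` for `s > d`.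
`U i j = Y0 N (i + 1) j` is lower triangular with the diagonal `1` over `ℤ`: `det U = 1` (`Matrix.det_of_lowerTriangular`), `V = U⁻¹` (`Matrix.mul_nonsing_inv`). `Y r j = ∑_l Y0 N r l * V l j`: `Y (i + 1) j = (U V) i j`; for `r = 0` it is `0` and for `r > d` divisible by `3`.
-/

namespace Pool.Agent.Lib.MP_06b9d2_trp

theorem y0_form (N s j : ℕ) : Y0 N s j = ((Polynomial.X : Polynomial ℤ) ^ (j + 1) *
    ((1 + Polynomial.X) ^ ((N - 1) / 4 - (j + 1)) * (1 + 9 * Polynomial.X) ^ (3 * ((N - 1) / 4 - (j + 1)) + 1) *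
    (1 - 18 * Polynomial.X - 27 * Polynomial.X ^ 2) ^ ((N - 1) / 2 % 2))).coeff s := by
  unfold Y0
  rw [← mul_assoc, ← mul_assoc]

theorem y0_low (N s j : ℕ) (h : s < j + 1) : Y0 N s j = 0 := by
  rw [y0_form, Polynomial.coeff_X_pow_mul', if_neg (by omega)]

theorem y0_diag (N j : ℕ) : Y0 N (j + 1) j = 1 := by
  rw [y0_form, Polynomial.coeff_X_pow_mul', if_pos le_rfl, Nat.sub_self, Polynomial.coeff_zero_eq_eval_zero]
  simp

theorem y0_high (N r : ℕ) (h : (N - 1) / 4 < r) (j : Fin ((N - 1) / 4)) : (3 : ℤ) ∣ Y0 N r j := by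
  have hj := j.2
  have h3 : (3 : Polynomial (ZMod 3)) = 0 := by
    have h : (3 : ZMod 3) = 0 := by decide
    have h' : (3 : Polynomial (ZMod 3)) = Polynomial.C (3 : ZMod 3) := by
      exact (map_ofNat Polynomial.C 3).symm
    rw [h', h, map_zero]
  have h9 : (9 : Polynomial (ZMod 3)) = 0 := by
    have : (9 : Polynomial (ZMod 3)) = 3 * 3 := by norm_num
    rw [this, h3, mul_zero]
  have h18 : (18 : Polynomial (ZMod 3)) = 0 := by
    have : (18 : Polynomial (ZMod 3)) = 3 * 6 := by norm_num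
    rw [this, h3, zero_mul]
  have h27 : (27 : Polynomial (ZMod 3)) = 0 := by
    have : (27 : Polynomial (ZMod 3)) = 3 * 9 := by norm_num
    rw [this, h3, zero_mul]
  have key : ((Y0 N r j : ℤ) : ZMod 3) = 0 := by
    have e : ((Y0 N r j : ℤ) : ZMod 3) = (((Polynomial.X : Polynomial ℤ) ^ ((j : ℕ) + 1) *
        (1 + Polynomial.X) ^ ((N - 1) / 4 - ((j : ℕ) + 1)) *
        (1 + 9 * Polynomial.X) ^ (3 * ((N - 1) / 4 - ((j : ℕ) + 1)) + 1) *
        (1 - 18 * Polynomial.X - 27 * Polynomial.X ^ 2) ^ ((N - 1) / 2 % 2)).map (Int.castRingHom (ZMod 3))).coeff r := by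
      rw [Polynomial.coeff_map]
      rfl
    rw [e]
    simp only [Polynomial.map_mul, Polynomial.map_pow, Polynomial.map_add, Polynomial.map_sub, Polynomial.map_one, Polynomial.map_X,
      Polynomial.map_ofNat, h9, h18, h27, zero_mul, add_zero, sub_zero, one_pow, mul_one]
    apply Polynomial.coeff_eq_zero_of_natDegree_lt
    refine lt_of_le_of_lt Polynomial.natDegree_mul_le ?_
    have d1 : ((Polynomial.X : Polynomial (ZMod 3)) ^ ((j : ℕ) + 1)).natDegree ≤ (j : ℕ) + 1 :=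
      Polynomial.natDegree_X_pow_le _
    have d2 : ((1 + Polynomial.X : Polynomial (ZMod 3)) ^ ((N - 1) / 4 - ((j : ℕ) + 1))).natDegree ≤
        (N - 1) / 4 - ((j : ℕ) + 1) := by
      refine le_trans Polynomial.natDegree_pow_le ?_
      have : (1 + Polynomial.X : Polynomial (ZMod 3)).natDegree ≤ 1 := by
        refine le_trans (Polynomial.natDegree_add_le _ _) ?_
        simp only [Polynomial.natDegree_one, Nat.zero_max]
        exact Polynomial.natDegree_X_le
      calc _ ≤ ((N - 1) / 4 - ((j : ℕ) + 1)) * 1 := Nat.mul_le_mul_left _ this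
        _ = _ := mul_one _
    omega
  exact (ZMod.intCast_zmod_eq_zero_iff_dvd _ 3).1 key

theorem ymu (N : ℕ) : ∃ U V : Matrix (Fin ((N - 1) / 4)) (Fin ((N - 1) / 4)) ℤ, (∀ i j, U i j = Y0 N ((i : ℕ) + 1) j) ∧ U * V = 1 ∧ V * U = 1 ∧
    ∀ r : ℕ, (r = 0 ∨ (N - 1) / 4 < r) → ∀ j : Fin ((N - 1) / 4), (3 : ℤ) ∣ Y0 N r j := by
  set U : Matrix (Fin ((N - 1) / 4)) (Fin ((N - 1) / 4)) ℤ := Matrix.of fun i j => Y0 N ((i : ℕ) + 1) j with hU
  have hdet : U.det = 1 := by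
    rw [Matrix.det_of_lowerTriangular U ?_]
    · refine Finset.prod_eq_one fun i _ => ?_
      exact y0_diag N i
    · intro i j hij
      have hij' : (i : ℕ) < (j : ℕ) := by simpa using hij
      exact y0_low N _ _ (by omega)
  have hu : IsUnit U.det := by rw [hdet]; exact isUnit_one
  refine ⟨U, U⁻¹, fun i j => rfl, Matrix.mul_nonsing_inv U hu, Matrix.nonsing_inv_mul U hu, ?_⟩
  rintro r (rfl | hr) j
  · rw [y0_low N 0 j (by omega)]
    exact dvd_zero _
  · exact y0_high N r hr j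

end Pool.Agent.Lib.MP_06b9d2_trp
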