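import Pool.Agent.Lib.MP_06b9d2_trp.Lnk
import Pool.Agent.Lib.MP_06b9d2_trp.YmU

/-!
Module TRP-Ym. `MZ Y = Y B` with integral matrices.

`d = (N - 1) / 4`, `κ = 9 / 2 (-2) ^ N / 4 ^ N ≠ 0`. `lnk`: `b`, `κ MZ Y0 = Y0 b` over `ℂ`. `ymu`: `U`, `V`. `Y r j = ∑_l Y0 N r l * V l j` (all `r : ℕ`), so `Y (i + 1) j = (U V) i j = [i = j]`, `3 ∣ Y r j` for `r = 0`, `r > d`. `B i j = ∑_{s ≤ N} MZ N (i + 1) s * Y s j` (`i + 1 ≤ d ≤ N`).
Over `ℂ`: `b'' = U b V`. `Y0 r = ∑_j Y r j U j` (`V U = 1`), so `κ ∑_s MZ r s Y s j = (κ MZ Y0 V) r j = (Y0 b V) r j = (Y U b V) r j = (Y b'') r j` for `r ≤ N`; `r = i + 1`: `κ B i j = b'' i j`. So `κ ∑_s MZ r s Y s j = κ ∑_j' Y r j' B j' j`, cancel `κ`, `Int.cast_injective`.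
`charpoly`: `(κ • B).charpoly = b''.charpoly = b.charpoly` (`U V = 1` over `ℂ`: `Matrix.charpoly_mul_comm`, `(U b) V` and `V (U b) = b`).
(Work with rectangular matrices `Matrix (Fin (N + 1)) (Fin d) ℂ` or with sums, as you like.)
-/

namespace Pool.Agent.Lib.MP_06b9d2_trp

open PowerSeries Pool.Agent.L1 UpperHalfPlane Pool.Agent.Lib.MP_06b9d2_nt Pool.Agent.Lib.MP_06b9d2_ssp
open scoped MatrixGroups ModularForm

theorem ym_gen {d n : ℕ} (κ : ℂ) (hκ : κ ≠ 0) (M : Matrix (Fin n) (Fin n) ℤ) (Z : Matrix (Fin n) (Fin d) ℤ)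
    (U V : Matrix (Fin d) (Fin d) ℤ) (f : Fin d → Fin n) (hU : Z.submatrix f id = U) (UV : U * V = 1) (VU : V * U = 1)
    (b : Matrix (Fin d) (Fin d) ℂ)
    (h : κ • (M.map (Int.cast : ℤ → ℂ) * Z.map (Int.cast : ℤ → ℂ)) = Z.map (Int.cast : ℤ → ℂ) * b) :
    M * (Z * V) = (Z * V) * (M * (Z * V)).submatrix f id ∧
      (κ • ((M * (Z * V)).submatrix f id).map (Int.cast : ℤ → ℂ)).charpoly = b.charpoly := by
  have hm : ∀ {a b c : ℕ} (P : Matrix (Fin a) (Fin b) ℤ) (Q : Matrix (Fin b) (Fin c) ℤ),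
      (P * Q).map (Int.cast : ℤ → ℂ) = P.map (Int.cast : ℤ → ℂ) * Q.map (Int.cast : ℤ → ℂ) := by
    intro a b c P Q
    exact Matrix.map_mul (f := Int.castRingHom ℂ)
  have h1 : ((1 : Matrix (Fin d) (Fin d) ℤ)).map (Int.cast : ℤ → ℂ) = 1 :=
    Matrix.map_one (Int.cast : ℤ → ℂ) Int.cast_zero Int.cast_one
  set Mc := M.map (Int.cast : ℤ → ℂ) with hMc
  set Zc := Z.map (Int.cast : ℤ → ℂ) with hZc
  set Uc := U.map (Int.cast : ℤ → ℂ) with hUc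
  set Vc := V.map (Int.cast : ℤ → ℂ) with hVc
  have UVc : Uc * Vc = 1 := by rw [hUc, hVc, ← hm, UV, h1]
  have VUc : Vc * Uc = 1 := by rw [hUc, hVc, ← hm, VU, h1]
  -- `κ M (Z V) = (Z V) (U b V)`
  have k1 : κ • (Mc * (Zc * Vc)) = (Zc * Vc) * (Uc * b * Vc) := by
    calc κ • (Mc * (Zc * Vc)) = (κ • (Mc * Zc)) * Vc := by rw [Matrix.smul_mul, Matrix.mul_assoc]
      _ = (Zc * b) * Vc := by rw [h]
      _ = (Zc * (Vc * Uc) * b) * Vc := by rw [VUc, Matrix.mul_one]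
      _ = (Zc * Vc) * (Uc * b * Vc) := by simp only [Matrix.mul_assoc]
  -- the rows `f i`
  have k2 : (Zc * Vc).submatrix f id = 1 := by
    have : (Zc * Vc).submatrix f id = Zc.submatrix f id * Vc := by
      ext i j
      simp [Matrix.mul_apply]
    rw [this, hZc, Matrix.submatrix_map, hU, UVc]
  have k3 : κ • ((M * (Z * V)).submatrix f id).map (Int.cast : ℤ → ℂ) = Uc * b * Vc := by
    have e1 : κ • ((M * (Z * V)).submatrix f id).map (Int.cast : ℤ → ℂ) = (κ • (Mc * (Zc * Vc))).submatrix f id := by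
      rw [← Matrix.submatrix_map, hm, hm]
      rfl
    rw [e1, k1]
    have : ((Zc * Vc) * (Uc * b * Vc)).submatrix f id = (Zc * Vc).submatrix f id * (Uc * b * Vc) := by
      ext i j
      simp [Matrix.mul_apply]
    rw [this, k2, Matrix.one_mul]
  refine ⟨?_, ?_⟩
  · have e2 : (M * (Z * V)).map (Int.cast : ℤ → ℂ) =
        ((Z * V) * (M * (Z * V)).submatrix f id).map (Int.cast : ℤ → ℂ) := by
      have : κ • (M * (Z * V)).map (Int.cast : ℤ → ℂ) =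
          κ • ((Z * V) * (M * (Z * V)).submatrix f id).map (Int.cast : ℤ → ℂ) := by
        rw [hm (Z * V), ← Matrix.mul_smul, k3, hm, hm, k1]
      exact smul_right_injective _ hκ this
    exact Matrix.map_injective Int.cast_injective e2
  · rw [k3, Matrix.mul_assoc, Matrix.charpoly_mul_comm, Matrix.mul_assoc, VUc, Matrix.mul_one]

theorem ym (N : ℕ) (hodd : N % 2 = 1) (k : ℤ) (hk : k = 3 * (N : ℤ) + 1) [Module.Finite ℂ (CuspForm 𝒮ℒ k)]
    (T : CuspForm 𝒮ℒ k →ₗ[ℂ] CuspForm 𝒮ℒ k) (hT : IsHecke k 2 T) :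
    ∃ (Y : ℕ → Fin ((N - 1) / 4) → ℤ) (B : Matrix (Fin ((N - 1) / 4)) (Fin ((N - 1) / 4)) ℤ),
      (∀ i j : Fin ((N - 1) / 4), Y ((i : ℕ) + 1) j = if i = j then 1 else 0) ∧
      (∀ r : ℕ, (r = 0 ∨ (N - 1) / 4 < r) → ∀ j, (3 : ℤ) ∣ Y r j) ∧
      (∀ r ≤ N, ∀ j, ∑ s ∈ Finset.range (N + 1), MZ N r s * Y s j = ∑ j', Y r j' * B j' j) ∧
      ((9 / 2 * (-2) ^ N / 4 ^ N : ℂ) • B.map (Int.cast : ℤ → ℂ)).charpoly = LinearMap.charpoly T := by
  obtain ⟨b, hb, hrel⟩ := lnk N hodd k hk T hT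
  obtain ⟨U, V, hU, UV, VU, h3⟩ := ymu N
  have hκ : (9 / 2 * (-2) ^ N / 4 ^ N : ℂ) ≠ 0 := by
    have h1 : ((-2 : ℂ)) ^ N ≠ 0 := pow_ne_zero _ (by norm_num)
    have h2 : ((4 : ℂ)) ^ N ≠ 0 := pow_ne_zero _ (by norm_num)
    exact div_ne_zero (mul_ne_zero (by norm_num) h1) h2
  set M : Matrix (Fin (N + 1)) (Fin (N + 1)) ℤ := Matrix.of fun r s => MZ N r s with hM
  set Z : Matrix (Fin (N + 1)) (Fin ((N - 1) / 4)) ℤ := Matrix.of fun r j => Y0 N r j with hZ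
  let f : Fin ((N - 1) / 4) → Fin (N + 1) := fun i => ⟨(i : ℕ) + 1, by have := i.2; omega⟩
  have hZU : Z.submatrix f id = U := by
    ext i j
    rw [hU]
    rfl
  have hh : (9 / 2 * (-2) ^ N / 4 ^ N : ℂ) • (M.map (Int.cast : ℤ → ℂ) * Z.map (Int.cast : ℤ → ℂ)) =
      Z.map (Int.cast : ℤ → ℂ) * b := by
    ext r j
    have := hrel (r : ℕ) (by have := r.2; omega) j
    rw [Finset.sum_range] at this
    simpa [Matrix.mul_apply, hM, hZ] using this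
  obtain ⟨g1, g2⟩ := ym_gen _ hκ M Z U V f hZU UV VU b hh
  refine ⟨fun r j => ∑ l : Fin ((N - 1) / 4), Y0 N r l * V l j, (M * (Z * V)).submatrix f id, ?_, ?_, ?_, ?_⟩
  · intro i j
    have := congrFun (congrFun UV i) j
    rw [Matrix.mul_apply, Matrix.one_apply] at this
    rw [← this]
    exact Finset.sum_congr rfl fun l _ => by rw [hU]
  · intro r hr j
    exact Finset.dvd_sum fun l _ => Dvd.dvd.mul_right (h3 r hr l) _
  · intro r hr j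
    have := congrFun (congrFun g1 ⟨r, by omega⟩) j
    rw [Matrix.mul_apply, Matrix.mul_apply] at this
    rw [Finset.sum_range]
    simpa [Matrix.mul_apply, hM, hZ] using this
  · rw [g2, hb]

end Pool.Agent.Lib.MP_06b9d2_trp
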