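import Pool.Agent.Lib.MP_06b9d2_trp.Rts
import Pool.Agent.Lib.MP_06b9d2_trp.Ym
import Pool.Agent.Lib.MP_06b9d2_trp.TrfT
import Pool.Agent.Lib.MP_06b9d2_trp.GalB
import Pool.Agent.Lib.MP_06b9d2_trp.SepC
import Pool.Agent.Lib.MP_06b9d2_ssp.Main

/-!
Board TRP: assembly.
-/

namespace Pool.Agent.Lib.MP_06b9d2_trp

open UpperHalfPlane Pool.Agent.L1 Pool.Agent.Lib.MP_06b9d2_nt
open scoped MatrixGroups ModularForm

attribute [local instance] Polynomial.Gal.splits_ℚ_ℂ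

/-- `T_2` has exactly `d - 2` eigenvalues in `ℚ_[3]` -/
theorem two_roots {N R a c : ℕ} (hN : N + 1 = c * 3 ^ R + 2 * a) (ha : a ≤ 1) (hR : 1 ≤ R)
    (hc : c = 8 ∨ c = 10 ∨ c = 14 ∨ c = 16) (k : ℤ) (hk : k = 3 * (N : ℤ) + 1) [Module.Finite ℂ (CuspForm 𝒮ℒ k)]
    (T : CuspForm 𝒮ℒ k →ₗ[ℂ] CuspForm 𝒮ℒ k) (hT : IsHecke k 2 T) (F : Polynomial ℤ)
    (hF : F.map (Int.castRingHom ℂ) = LinearMap.charpoly T) :
    Multiset.card (F.map (Int.castRingHom Q3)).roots + 2 = Module.finrank ℂ (CuspForm 𝒮ℒ k) := by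
  have hodd : N % 2 = 1 := by
    rcases hc with rfl | rfl | rfl | rfl <;> omega
  obtain ⟨Y, B, h1, h2, h3, h4⟩ := ym N hodd k hk T hT
  have hκ : (9 / 2 * (-2) ^ N / 4 ^ N : Q3) ≠ 0 := by
    refine div_ne_zero (mul_ne_zero (div_ne_zero ?_ two_ne_zero) (pow_ne_zero _ (neg_ne_zero.2 two_ne_zero))) (pow_ne_zero _ ?_)
    · exact_mod_cast (show (9 : ℕ) ≠ 0 by norm_num)
    · exact_mod_cast (show (4 : ℕ) ≠ 0 by norm_num)
  have h5 := rts hN ha hR hodd hc rfl Y B h1 h2 h3 (9 / 2 * (-2) ^ N / 4 ^ N : Q3) hκ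
  -- the polynomial over the rationals
  have key : ∀ {K : Type} [Field K] (φ : ℚ →+* K),
      (((9 / 2 * (-2) ^ N / 4 ^ N : ℚ) • B.map (Int.cast : ℤ → ℚ)).charpoly).map φ =
        ((9 / 2 * (-2) ^ N / 4 ^ N : K) • B.map (Int.cast : ℤ → K)).charpoly := by
    intro K _ φ
    rw [← Matrix.charpoly_map]
    congr 1
    ext i j
    simp only [Matrix.map_apply, Matrix.smul_apply, smul_eq_mul, map_mul, map_div₀, map_pow, map_neg, map_ofNat, map_intCast]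
  have h6 : F.map (Int.castRingHom ℚ) = ((9 / 2 * (-2) ^ N / 4 ^ N : ℚ) • B.map (Int.cast : ℤ → ℚ)).charpoly := by
    apply Polynomial.map_injective (algebraMap ℚ ℂ) (algebraMap ℚ ℂ).injective
    rw [key, h4, Polynomial.map_map, RingHom.ext_int ((algebraMap ℚ ℂ).comp (Int.castRingHom ℚ)) (Int.castRingHom ℂ), hF]
  have h7 : F.map (Int.castRingHom Q3) = ((9 / 2 * (-2) ^ N / 4 ^ N : Q3) • B.map (Int.cast : ℤ → Q3)).charpoly := by
    rw [← key (algebraMap ℚ Q3), ← h6, Polynomial.map_map,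
      RingHom.ext_int ((algebraMap ℚ Q3).comp (Int.castRingHom ℚ)) (Int.castRingHom Q3)]
  rw [h7, h5, ← LinearMap.charpoly_natDegree T, ← h4, Matrix.charpoly_natDegree_eq_dim, Fintype.card_fin]

theorem main {N R a c : ℕ} (hN : N + 1 = c * 3 ^ R + 2 * a) (ha : a ≤ 1) (hR : 1 ≤ R)
    (hc : c = 8 ∨ c = 10 ∨ c = 14 ∨ c = 16) (k : ℤ) (hk : k = 3 * (N : ℤ) + 1) [Module.Finite ℂ (CuspForm 𝒮ℒ k)]
    (T2 : CuspForm 𝒮ℒ k →ₗ[ℂ] CuspForm 𝒮ℒ k) (hT2 : IsHecke k 2 T2) {n : ℕ} [NeZero n]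
    (T : CuspForm 𝒮ℒ k →ₗ[ℂ] CuspForm 𝒮ℒ k) (hT : IsHecke k n T)
    (hs : (LinearMap.charpoly T).roots.toFinset.card = Module.finrank ℂ (CuspForm 𝒮ℒ k)) :
    ∃ F : Polynomial ℤ, F.Monic ∧ F.map (Int.castRingHom ℂ) = LinearMap.charpoly T ∧
      Squarefree (F.map (Int.castRingHom ℚ)) ∧
      Multiset.card (F.map (Int.castRingHom ℚ_[3])).roots + 2 = Module.finrank ℂ (CuspForm 𝒮ℒ k) ∧
      (∃ σ : (F.map (Int.castRingHom ℚ)).Gal, (Polynomial.Gal.galActionHom (F.map (Int.castRingHom ℚ)) ℂ σ).IsSwap) ∧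
      (Irreducible (F.map (Int.castRingHom ℚ)) → (Module.finrank ℂ (CuspForm 𝒮ℒ k)).Prime →
        Function.Bijective (Polynomial.Gal.galActionHom (F.map (Int.castRingHom ℚ)) ℂ)) ∧
      (MulAction.IsPreprimitive (F.map (Int.castRingHom ℚ)).Gal ((F.map (Int.castRingHom ℚ)).rootSet ℂ) →
        Function.Bijective (Polynomial.Gal.galActionHom (F.map (Int.castRingHom ℚ)) ℂ)) := by
  have hodd : N % 2 = 1 := by
    rcases hc with rfl | rfl | rfl | rfl <;> omega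
  have hkev : Even k := by
    rw [hk, Int.even_iff]
    omega
  obtain ⟨F2, hF2m, hF2, hF2s, hF2c⟩ := Pool.Agent.Lib.MP_06b9d2_ssp.main k hkev T2 hT2
  obtain ⟨F, hFm, hF⟩ := cp_int k T hT
  have hsT : (LinearMap.charpoly T).Separable := by
    rw [sep_iff _ (LinearMap.charpoly_monic T).ne_zero, hs, LinearMap.charpoly_natDegree]
  have hsT2 := Pool.Agent.Lib.MP_06b9d2_ssp.sep k hkev T2 hT2
  have hcard : Multiset.card (F.map (Int.castRingHom Q3)).roots + 2 = Module.finrank ℂ (CuspForm 𝒮ℒ k) := by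
    rw [trfT k T T2 hT hT2 hsT hsT2 F F2 hF hF2]
    exact two_roots hN ha hR hc k hk T2 hT2 F2 hF2
  have e1 : (F.map (Int.castRingHom ℚ)).map (algebraMap ℚ ℂ) = LinearMap.charpoly T := by
    rw [Polynomial.map_map, RingHom.ext_int ((algebraMap ℚ ℂ).comp (Int.castRingHom ℚ)) (Int.castRingHom ℂ), hF]
  have e2 : (F.map (Int.castRingHom ℚ)).map (algebraMap ℚ Q3) = F.map (Int.castRingHom Q3) := by
    rw [Polynomial.map_map, RingHom.ext_int ((algebraMap ℚ Q3).comp (Int.castRingHom ℚ)) (Int.castRingHom Q3)]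
  have hsepQ : (F.map (Int.castRingHom ℚ)).Separable := by
    rw [← Polynomial.separable_map (algebraMap ℚ ℂ), e1]
    exact hsT
  have hdeg : (F.map (Int.castRingHom ℚ)).natDegree = Module.finrank ℂ (CuspForm 𝒮ℒ k) := by
    rw [← Polynomial.natDegree_map (algebraMap ℚ ℂ), e1, LinearMap.charpoly_natDegree]
  obtain ⟨σ, α, β, hα, hβ, hne, hσ1, hσ2, hσ3⟩ := galA (F.map (Int.castRingHom ℚ)) hsepQ (by rw [e2, hcard, hdeg])
  have hσ := galB _ σ α β hα hβ hne hσ1 hσ2 hσ3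
  refine ⟨F, hFm, hF, hsepQ.squarefree, hcard, ⟨σ, hσ⟩, ?_, ?_⟩
  · intro hirr hp
    exact prm_prime _ hirr (by rw [hdeg]; exact hp) σ hσ
  · intro hprim
    exact prm_prim _ hprim σ hσ

end Pool.Agent.Lib.MP_06b9d2_trp
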