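import Pool.Agent.Lib.MP_06b9d2_trp.Cmm
import Pool.Agent.Lib.MP_06b9d2_trp.CmbA

/-!
Module TRP-RelP. Cuts.

`dn`, `dnR` (downward crossings of cuts): `r < C ≤ t ≤ N`, `C = 3 ^ j i + a`: `M r t = M (N - r) (N - t)` (`sym`), and `N - t < C' ≤ N - r` with `C' = N + 1 - C = 3 ^ j (c 3 ^ (R - j) - i) + a`
(`3 ^ j i + a ≤ N = c 3 ^ R + 2 a - 1` gives `3 ^ j i ≤ c 3 ^ R = 3 ^ j (c 3 ^ (R - j))`, as `a ≤ 1`; so `i ≤ c 3 ^ (R - j)`): `cut`, `cutR` (`N - t + 1 ≠ N - r` as `r + 1 ≠ t`).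
`relP`: `X = Matrix.diagonal (fun r => if C ≤ r then 1 else 0)` (`Matrix.mul_diagonal`, `Matrix.diagonal_mul`): `(B X - X B) r t = B r t (p_t - p_r)`. `hdiv` of `cmm'`: if `p_t ≠ p_r` then `(r, t)` crosses the cut `C` of level `min j R`: `3 ^ (min j R + 1) ∣ M r t` (`cut`, `dn`), and `j ≤ min j R + 1`.
`cmm'` at `(s', s)`: `(T X - X T) s' s = - T s' s`, `(A X - X A) s' s = - M s' s`; at `(s, s')` the same without the signs. (Divisibility in `Z3` from divisibility in `ℤ`: `map_dvd (Int.castRingHom Z3)`, `push_cast`.)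
-/

namespace Pool.Agent.Lib.MP_06b9d2_trp

variable {N R a c : ℕ} {M : ℕ → ℕ → ℤ} {S : Set (Matrix (Fin (N + 1)) (Fin (N + 1)) Z3)}

private theorem RelP_idx (F : Fct N R a c M) (j : ℕ) (hj : j ≤ R) (i t : ℕ) (h2 : 3 ^ j * i + a ≤ t) (h3 : t ≤ N) :
    ∃ i', 3 ^ j * i' + a = N + 1 - (3 ^ j * i + a) ∧ 3 ^ j * i + a ≤ N + 1 := by
  have hN := F.hN
  have ha := F.ha
  have e : c * 3 ^ R = 3 ^ j * (c * 3 ^ (R - j)) := by
    rw [mul_left_comm, ← pow_add, Nat.add_sub_cancel' hj]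
  have h4 : 3 ^ j * i ≤ 3 ^ j * (c * 3 ^ (R - j)) := by
    rw [← e]
    omega
  refine ⟨c * 3 ^ (R - j) - i, ?_, by omega⟩
  rw [Nat.mul_sub, ← e, hN]
  rw [← e] at h4
  omega

theorem dn (F : Fct N R a c M) (j : ℕ) (hj : j ≤ R) (i r t : ℕ) (h1 : r < 3 ^ j * i + a) (h2 : 3 ^ j * i + a ≤ t) (h3 : t ≤ N) :
    (3 : ℤ) ^ (j + 1) ∣ M r t := by
  obtain ⟨i', hi', hC⟩ := RelP_idx F j hj i t h2 h3
  rw [← F.sym t h3 r (by omega)]
  exact F.cut j hj i' (N - t) (N - r) (by omega) (by omega) (by omega)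

theorem dnR (F : Fct N R a c M) (i r t : ℕ) (h1 : r < 3 ^ R * i + a) (h2 : 3 ^ R * i + a ≤ t) (h3 : t ≤ N) (h4 : r + 1 ≠ t) :
    (3 : ℤ) ^ (R + 2) ∣ M r t := by
  obtain ⟨i', hi', hC⟩ := RelP_idx F R le_rfl i t h2 h3
  rw [← F.sym t h3 r (by omega)]
  exact F.cutR i' (N - t) (N - r) (by omega) (by omega) (by omega) (by omega)

private theorem RelP_z {n : ℕ} {x : ℤ} (h : (3 : ℤ) ^ n ∣ x) : (3 : Z3) ^ n ∣ ((x : ℤ) : Z3) := by
  have := map_dvd (Int.castRingHom Z3) h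
  simpa using this

private theorem RelP_com (B : Matrix (Fin (N + 1)) (Fin (N + 1)) Z3) (p : Fin (N + 1) → Z3) (r t : Fin (N + 1)) :
    (B * Matrix.diagonal p - Matrix.diagonal p * B) r t = B r t * (p t - p r) := by
  rw [Matrix.sub_apply, Matrix.mul_diagonal, Matrix.diagonal_mul]
  ring

theorem relP (C : Ctx N R a c M S) {j : ℕ} (hj : j ≤ R + 1) {cl : Fin (N + 1) → Prop} {E T : Matrix (Fin (N + 1)) (Fin (N + 1)) Z3} {h : Z3}
    (P : Pc S (MX N M) j cl E T h) (s s' : Fin (N + 1)) (hs : cl s) (hs' : cl s') (i : ℕ)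
    (h1 : (s : ℕ) < 3 ^ (min j R) * i + a) (h2 : 3 ^ (min j R) * i + a ≤ (s' : ℕ)) :
    (3 : Z3) ^ (j + 1) ∣ 3 ^ j * T s' s - ((M s' s : ℤ) : Z3) ∧ (3 : Z3) ^ (j + 1) ∣ 3 ^ j * T s s' - ((M s s' : ℤ) : Z3) := by
  set K : ℕ := 3 ^ (min j R) * i + a with hK
  let p : Fin (N + 1) → Z3 := fun r => if K ≤ (r : ℕ) then 1 else 0
  have hle : (3 : Z3) ^ j ∣ (3 : Z3) ^ (min j R + 1) := pow_dvd_pow _ (by omega)
  have hdiv : ∀ r t, (3 : Z3) ^ j ∣ (MX N M * Matrix.diagonal p - Matrix.diagonal p * MX N M) r t := by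
    intro r t
    rw [RelP_com]
    have hMX : MX N M r t = ((M r t : ℤ) : Z3) := rfl
    rw [hMX]
    by_cases hr : K ≤ (r : ℕ)
    · by_cases ht : K ≤ (t : ℕ)
      · have : p t - p r = 0 := by simp only [p, if_pos hr, if_pos ht, sub_self]
        rw [this, mul_zero]
        exact dvd_zero _
      · refine Dvd.dvd.mul_right (hle.trans (RelP_z ?_)) _
        exact C.fct.cut (min j R) (min_le_right _ _) i (t : ℕ) (r : ℕ) (by omega) (by omega) (by omega)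
    · by_cases ht : K ≤ (t : ℕ)
      · refine Dvd.dvd.mul_right (hle.trans (RelP_z ?_)) _
        exact dn C.fct (min j R) (min_le_right _ _) i (r : ℕ) (t : ℕ) (by omega) (by omega) (by omega)
      · have : p t - p r = 0 := by simp only [p, if_neg hr, if_neg ht, sub_self]
        rw [this, mul_zero]
        exact dvd_zero _
  have hps : p s = 0 := if_neg (by omega)
  have hps' : p s' = 1 := if_pos (by omega)
  constructor
  · have h := cmm' C.alg C.mem P (Matrix.diagonal p) hdiv s' s hs' hs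
    rw [RelP_com, RelP_com, hps, hps'] at h
    have hMX : MX N M s' s = ((M s' s : ℤ) : Z3) := rfl
    rw [hMX] at h
    have h' := (dvd_neg).2 h
    convert h' using 1
    ring
  · have h := cmm' C.alg C.mem P (Matrix.diagonal p) hdiv s s' hs hs'
    rw [RelP_com, RelP_com, hps, hps'] at h
    have hMX : MX N M s s' = ((M s s' : ℤ) : Z3) := rfl
    rw [hMX] at h
    convert h using 1
    ring

end Pool.Agent.Lib.MP_06b9d2_trp
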