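import Pool.Agent.Lib.MP_06b9d2_trp.RelP

/-!
Module TRP-RelS. Shifts and the reflection.

`relJ`: `X r t = if r + t = N then 1 else 0`: `A X = X A` by `sym` (`(A X) r t = M r (N - t)`, `(X A) r t = M (N - r) t = M (N - (N - r)) (N - t)`), so `cmm` with `Q = 0`, at `(N - s, s)`: `(T X - X T) (N - s) s = T (N - s) (N - s) - T s s`.
`relS`: `D = c 3 ^ R + a = N + 1 - a`. `X r t = if r = t + h ∧ r < D then 1 else 0`. `(B X) r t = if t + h < D then B r (t + h) else 0`, `(X B) r t = if h ≤ r ∧ r < D then B (r - h) t else 0` (private lemma; `Finset.sum_eq_single`; `t + h < D` implies `t + h ≤ N`).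
`hdiv` (`3 ^ j ∣ (A X - X A) r t`); `j' = min j R`, `j ≤ j' + 1`, `3 ^ j' ∣ h`:
- `t + h < D`, `r < h`: `M r (t + h)`: `low j`.
- `t + h < D`, `h ≤ r < D`: `M r (t + h) - M (r - h) t`: `sh j` with `s' = r - h`, `s = t` (`3 ^ j ∣ h`; so `3 ^ j` divides the correction `(-1) ^ t 2 h` too).
- `t + h < D ≤ r`: `M r (t + h)`: `cut j'` with `3 ^ j' i + a = D`, `i = c 3 ^ (R - j')`.
- `D ≤ t + h`, `h ≤ r < D`: `- M (r - h) t`, `r - h < D - h ≤ t`: `dn j'` with `3 ^ j' i + a = D - h`, `i = c 3 ^ (R - j') - h / 3 ^ j'` (`h ≤ r < D` gives `h ≤ c 3 ^ R + a - 1 ≤ c 3 ^ R`).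
- otherwise `0`.
`cmm'` at `(s + h, s)`: `(T X - X T) (s + h) s = T (s + h) (s + h) - T s s` (as `s + h < D`), `(A X - X A) (s + h) s = M (s + h) (s + h) - M s s ≡ (-1) ^ s 2 h = 2 h` modulo `3 ^ (j + 1)` (`sh`, `s` even).
-/

namespace Pool.Agent.Lib.MP_06b9d2_trp

variable {N R a c : ℕ} {M : ℕ → ℕ → ℤ} {S : Set (Matrix (Fin (N + 1)) (Fin (N + 1)) Z3)}

private noncomputable def RelS_J (N : ℕ) : Matrix (Fin (N + 1)) (Fin (N + 1)) Z3 :=
  Matrix.of fun r t => if (r : ℕ) + t = N then 1 else 0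

private theorem RelS_Jr (B : Matrix (Fin (N + 1)) (Fin (N + 1)) Z3) (r t u : Fin (N + 1)) (hu : (u : ℕ) + t = N) :
    (B * RelS_J N) r t = B r u := by
  rw [Matrix.mul_apply, Finset.sum_eq_single u]
  · simp only [RelS_J, Matrix.of_apply, if_pos hu, mul_one]
  · intro k _ hk
    have : ¬ ((k : ℕ) + t = N) := by
      intro h
      apply hk
      apply Fin.ext
      omega
    simp only [RelS_J, Matrix.of_apply, if_neg this, mul_zero]
  · intro h
    exact absurd (Finset.mem_univ _) h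

private theorem RelS_Jl (B : Matrix (Fin (N + 1)) (Fin (N + 1)) Z3) (r t u : Fin (N + 1)) (hu : (u : ℕ) + r = N) :
    (RelS_J N * B) r t = B u t := by
  rw [Matrix.mul_apply, Finset.sum_eq_single u]
  · simp only [RelS_J, Matrix.of_apply, if_pos (show (r : ℕ) + u = N by omega), one_mul]
  · intro k _ hk
    have : ¬ ((r : ℕ) + k = N) := by
      intro h
      apply hk
      apply Fin.ext
      omega
    simp only [RelS_J, Matrix.of_apply, if_neg this, zero_mul]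
  · intro h
    exact absurd (Finset.mem_univ _) h

private noncomputable def RelS_X (N D g : ℕ) : Matrix (Fin (N + 1)) (Fin (N + 1)) Z3 :=
  Matrix.of fun r t => if (r : ℕ) = t + g ∧ (r : ℕ) < D then 1 else 0

private theorem RelS_Xr (B : Matrix (Fin (N + 1)) (Fin (N + 1)) Z3) {D g : ℕ} (r t u : Fin (N + 1)) (hu : (u : ℕ) = t + g)
    (hD : (u : ℕ) < D) : (B * RelS_X N D g) r t = B r u := by
  rw [Matrix.mul_apply, Finset.sum_eq_single u]
  · simp only [RelS_X, Matrix.of_apply, if_pos (And.intro hu hD), mul_one]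
  · intro k _ hk
    have : ¬ ((k : ℕ) = t + g ∧ (k : ℕ) < D) := by
      intro h
      apply hk
      apply Fin.ext
      omega
    simp only [RelS_X, Matrix.of_apply, if_neg this, mul_zero]
  · intro h
    exact absurd (Finset.mem_univ _) h

private theorem RelS_Xr0 (B : Matrix (Fin (N + 1)) (Fin (N + 1)) Z3) {D g : ℕ} (r t : Fin (N + 1)) (h : ¬ ((t : ℕ) + g < D)) :
    (B * RelS_X N D g) r t = 0 := by
  rw [Matrix.mul_apply]
  refine Finset.sum_eq_zero fun k _ => ?_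
  have : ¬ ((k : ℕ) = t + g ∧ (k : ℕ) < D) := by
    intro h'
    omega
  simp only [RelS_X, Matrix.of_apply, if_neg this, mul_zero]

private theorem RelS_Xl (B : Matrix (Fin (N + 1)) (Fin (N + 1)) Z3) {D g : ℕ} (r t u : Fin (N + 1)) (hu : (r : ℕ) = u + g)
    (hD : (r : ℕ) < D) : (RelS_X N D g * B) r t = B u t := by
  rw [Matrix.mul_apply, Finset.sum_eq_single u]
  · simp only [RelS_X, Matrix.of_apply, if_pos (And.intro hu hD), one_mul]
  · intro k _ hk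
    have : ¬ ((r : ℕ) = k + g ∧ (r : ℕ) < D) := by
      intro h
      apply hk
      apply Fin.ext
      omega
    simp only [RelS_X, Matrix.of_apply, if_neg this, zero_mul]
  · intro h
    exact absurd (Finset.mem_univ _) h

private theorem RelS_Xl0 (B : Matrix (Fin (N + 1)) (Fin (N + 1)) Z3) {D g : ℕ} (r t : Fin (N + 1))
    (h : ¬ (g ≤ (r : ℕ) ∧ (r : ℕ) < D)) : (RelS_X N D g * B) r t = 0 := by
  rw [Matrix.mul_apply]
  refine Finset.sum_eq_zero fun k _ => ?_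
  have : ¬ ((r : ℕ) = k + g ∧ (r : ℕ) < D) := by
    intro h'
    omega
  simp only [RelS_X, Matrix.of_apply, if_neg this, zero_mul]

private theorem RelS_z {n : ℕ} {x : ℤ} (h : (3 : ℤ) ^ n ∣ x) : (3 : Z3) ^ n ∣ ((x : ℤ) : Z3) := by
  have := map_dvd (Int.castRingHom Z3) h
  simpa using this

private theorem RelS_MX (r t : Fin (N + 1)) : MX N M r t = ((M r t : ℤ) : Z3) := rfl

private theorem RelS_div (F : Fct N R a c M) {j : ℕ} (hj : j ≤ R + 1) (g : ℕ) (h2 : 3 ^ j ∣ g) (h3 : g % 2 = 0)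
    (r t : Fin (N + 1)) :
    (3 : Z3) ^ j ∣ (MX N M * RelS_X N (c * 3 ^ R + a) g - RelS_X N (c * 3 ^ R + a) g * MX N M) r t := by
  have hN := F.hN
  have ha := F.ha
  have hr := r.isLt
  have ht := t.isLt
  have e : 3 ^ (min j R) * (c * 3 ^ (R - min j R)) = c * 3 ^ R := by
    rw [mul_left_comm, ← pow_add, Nat.add_sub_cancel' (min_le_right j R)]
  have hle : (3 : ℤ) ^ j ∣ (3 : ℤ) ^ (min j R + 1) := pow_dvd_pow _ (by omega)
  have hle' : (3 : ℤ) ^ j ∣ (3 : ℤ) ^ (j + 1) := pow_dvd_pow _ (by omega)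
  rw [Matrix.sub_apply]
  by_cases h1 : (t : ℕ) + g < c * 3 ^ R + a
  · have e1 : (MX N M * RelS_X N (c * 3 ^ R + a) g) r t = MX N M r ⟨(t : ℕ) + g, by omega⟩ :=
      RelS_Xr _ r t ⟨(t : ℕ) + g, by omega⟩ rfl h1
    by_cases h4 : g ≤ (r : ℕ) ∧ (r : ℕ) < c * 3 ^ R + a
    · have e2 : (RelS_X N (c * 3 ^ R + a) g * MX N M) r t = MX N M ⟨(r : ℕ) - g, by omega⟩ t :=
        RelS_Xl _ r t ⟨(r : ℕ) - g, by omega⟩ (by show (r : ℕ) = (r : ℕ) - g + g; omega) h4.2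
      rw [e1, e2, RelS_MX, RelS_MX, ← Int.cast_sub]
      apply RelS_z
      show (3 : ℤ) ^ j ∣ M (r : ℕ) ((t : ℕ) + g) - M ((r : ℕ) - g) (t : ℕ)
      have k1 := hle'.trans (F.sh j g (t : ℕ) ((r : ℕ) - g) h2 h3 (by omega) (by omega))
      rw [Nat.sub_add_cancel h4.1] at k1
      have k2 : (3 : ℤ) ^ j ∣ (if (r : ℕ) - g = (t : ℕ) then (-1) ^ (t : ℕ) * (2 * (g : ℤ)) else 0) := by
        split_ifs
        · refine Dvd.dvd.mul_left (Dvd.dvd.mul_left ?_ _) _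
          exact_mod_cast h2
        · exact dvd_zero _
      have k3 := dvd_add k1 k2
      rwa [sub_add_cancel] at k3
    · rw [e1, RelS_Xl0 _ r t h4, sub_zero, RelS_MX]
      apply RelS_z
      show (3 : ℤ) ^ j ∣ M (r : ℕ) ((t : ℕ) + g)
      by_cases h5 : (r : ℕ) < g
      · exact hle'.trans (F.low j g ((t : ℕ) + g) (r : ℕ) h2 h5 (by omega) (by omega))
      · exact hle.trans (F.cut (min j R) (min_le_right _ _) (c * 3 ^ (R - min j R)) ((t : ℕ) + g) (r : ℕ)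
          (by rw [e]; exact h1) (by rw [e]; omega) (by omega))
  · rw [RelS_Xr0 _ r t h1]
    by_cases h4 : g ≤ (r : ℕ) ∧ (r : ℕ) < c * 3 ^ R + a
    · have e2 : (RelS_X N (c * 3 ^ R + a) g * MX N M) r t = MX N M ⟨(r : ℕ) - g, by omega⟩ t :=
        RelS_Xl _ r t ⟨(r : ℕ) - g, by omega⟩ (by show (r : ℕ) = (r : ℕ) - g + g; omega) h4.2
      rw [e2, zero_sub, dvd_neg, RelS_MX]
      apply RelS_z
      show (3 : ℤ) ^ j ∣ M ((r : ℕ) - g) (t : ℕ)
      obtain ⟨q, hq⟩ : 3 ^ (min j R) ∣ g := (pow_dvd_pow 3 (min_le_left j R)).trans h2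
      have e3 : 3 ^ (min j R) * (c * 3 ^ (R - min j R) - q) = c * 3 ^ R - g := by
        rw [Nat.mul_sub, e, ← hq]
      exact hle.trans (dn F (min j R) (min_le_right _ _) (c * 3 ^ (R - min j R) - q) ((r : ℕ) - g) (t : ℕ)
        (by rw [e3]; omega) (by rw [e3]; omega) (by omega))
    · rw [RelS_Xl0 _ r t h4, sub_zero]
      exact dvd_zero _

theorem relJ (C : Ctx N R a c M S) {j : ℕ} {cl : Fin (N + 1) → Prop} {E T : Matrix (Fin (N + 1)) (Fin (N + 1)) Z3} {h : Z3}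
    (P : Pc S (MX N M) j cl E T h) (s s' : Fin (N + 1)) (hs : cl s) (hs' : cl s') (h1 : (s : ℕ) + s' = N) :
    (3 : Z3) ∣ T s' s' - T s s := by
  have hlt := s.isLt
  have hlt' := s'.isLt
  have hQ : MX N M * RelS_J N - RelS_J N * MX N M = (3 : Z3) ^ j • (0 : Matrix (Fin (N + 1)) (Fin (N + 1)) Z3) := by
    ext r t
    have hr := r.isLt
    have ht := t.isLt
    rw [Matrix.sub_apply, RelS_Jr _ r t ⟨N - (t : ℕ), by omega⟩ (by show N - (t : ℕ) + t = N; omega),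
      RelS_Jl _ r t ⟨N - (r : ℕ), by omega⟩ (by show N - (r : ℕ) + r = N; omega), RelS_MX, RelS_MX, smul_zero,
      Matrix.zero_apply, sub_eq_zero]
    show ((M (r : ℕ) (N - (t : ℕ)) : ℤ) : Z3) = ((M (N - (r : ℕ)) (t : ℕ) : ℤ) : Z3)
    have k := C.fct.sym (N - (t : ℕ)) (by omega) (r : ℕ) (by omega)
    rw [show N - (N - (t : ℕ)) = (t : ℕ) by omega] at k
    rw [k]
  have k := cmm C.alg C.mem P (RelS_J N) 0 hQ s' s hs' hs
  rw [sub_zero, Matrix.sub_apply, RelS_Jr _ s' s s' (by omega), RelS_Jl _ s' s s (by omega)] at k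
  exact k

theorem relS (C : Ctx N R a c M S) {j : ℕ} (hj : j ≤ R + 1) {cl : Fin (N + 1) → Prop} {E T : Matrix (Fin (N + 1)) (Fin (N + 1)) Z3} {h : Z3}
    (P : Pc S (MX N M) j cl E T h) (s s' : Fin (N + 1)) (hs : cl s) (hs' : cl s') (g : ℕ) (h1 : (s' : ℕ) = s + g) (h2 : 3 ^ j ∣ g)
    (h3 : g % 2 = 0) (h4 : (s : ℕ) % 2 = 0) (h5 : (s' : ℕ) < c * 3 ^ R + a) :
    (3 : Z3) ^ (j + 1) ∣ 3 ^ j * (T s' s' - T s s) - ((2 * (g : ℤ) : ℤ) : Z3) := by
  have hlt := s.isLt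
  have k := cmm' C.alg C.mem P (RelS_X N (c * 3 ^ R + a) g) (RelS_div C.fct hj g h2 h3) s' s hs' hs
  rw [Matrix.sub_apply, Matrix.sub_apply, RelS_Xr _ s' s s' h1 h5, RelS_Xl _ s' s s h1 h5, RelS_Xr _ s' s s' h1 h5,
    RelS_Xl _ s' s s h1 h5, RelS_MX, RelS_MX] at k
  have hN := C.fct.hN
  have hlt' := s'.isLt
  have k1 := C.fct.sh j g (s : ℕ) (s : ℕ) h2 h3 (by omega) (by omega)
  rw [if_pos rfl, (Nat.even_iff.2 h4).neg_one_pow, one_mul, ← h1] at k1
  have k2 := dvd_add k (RelS_z k1)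
  convert k2 using 1
  push_cast
  ring

end Pool.Agent.Lib.MP_06b9d2_trp
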