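import Pool.Agent.Lib.MP_06b9d2_trp.Defs
import Pool.Agent.Lib.MP_06b9d2_ssp.Rep

/-!
Module TRP-RepX. Explicit form of `rep` (`MP_06b9d2_ssp/Rep.lean`) for `k = 3 N + 1`, `N` odd.

`dd_eq`: unfold `dd`, `bb`; `N = 4 u + 1`: `k = 12 u + 4`, `bb k = 0`; `N = 4 u + 3`: `k = 12 u + 10`, `bb k = 1`; in both cases `dd k = u + 1`, `(N - 1) / 4 = u`.
`bas_mo`: copy the proof of `rep` with `j + 1` for `j`: `k % 3 = 1`, `k / 3 = N`, `ba k (j + 1) = 3 i + 1` with `i = (N - 1) / 4 - (j + 1)`, `bb k = (N - 1) / 2 % 2` (`omega` after unfolding `ba`, `bb` and the two cases for `N`). There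
`bas ℂ k (j + 1) = ∑_s (repP (j + 1) i (ba k (j + 1)) (bb k)).coeff s • mo a c 1 N s`, and `27 ^ (j + 1) (repP ..).coeff s = (Y0 N s j : ℂ)`: `C (27 ^ (j + 1)) * repP ..` is the image (`Polynomial.map (Int.castRingHom ℂ)`, `Polynomial.coeff_map`) of the polynomial in `Y0`
(`Polynomial.C ((27⁻¹) ^ j)` cancels; the factors `1 + 9 X`, `1 - 18 X - 27 X ^ 2` are the same: `map_ofNat`).
-/

namespace Pool.Agent.Lib.MP_06b9d2_trp

open PowerSeries Pool.Agent.L1 Pool.Agent.Lib.MP_06b9d2_ssp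

theorem dd_eq (N : ℕ) (hodd : N % 2 = 1) : dd (3 * N + 1) - 1 = (N - 1) / 4 := by
  have h1 : N % 4 = 1 ∨ N % 4 = 3 := by omega
  rcases h1 with h1 | h1
  · obtain ⟨u, rfl⟩ : ∃ u, N = 4 * u + 1 := ⟨N / 4, by omega⟩
    have hb : bb (3 * (4 * u + 1) + 1) = 0 := by
      unfold bb
      rw [if_pos (by omega)]
    unfold dd
    rw [hb, if_pos ⟨by rw [Nat.even_iff]; omega, by omega⟩]
    omega
  · obtain ⟨u, rfl⟩ : ∃ u, N = 4 * u + 3 := ⟨N / 4, by omega⟩
    have hb : bb (3 * (4 * u + 3) + 1) = 1 := by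
      unfold bb
      rw [if_neg (by omega)]
    unfold dd
    rw [hb, if_pos ⟨by rw [Nat.even_iff]; omega, by omega⟩]
    omega

private theorem repX_rep {a c : ℂ⟦X⟧} (h : Lv a c) (k j : ℕ) (hj : j < dd k) (i : ℕ)
    (hi : ba k j = 3 * i + k % 3) : bas ℂ k j = ∑ s ∈ Finset.range (k / 3 + 1),
      (repP j i (ba k j) (bb k)).coeff s • mo a c (k % 3) (k / 3) s := by
  have hk := ba_eq hj
  have hN : 3 * j + (j + i + ba k j + 2 * bb k) = k / 3 := by omega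
  obtain ⟨u, hu1, hu2⟩ := lv_c h
  have hb1 : constantCoeff (a ^ 3 - 27 * c) = 1 := by
    rw [hu2]
    simp [h.ca]
  have hbu : (a ^ 3 - 27 * c) * (a ^ 3 - 27 * c)⁻¹ = 1 :=
    PowerSeries.mul_inv_cancel _ (by rw [hb1]; exact one_ne_zero)
  have hdl := lv_dl h
  have h4 := h.h4
  have h6 := h.h6
  have ha3 : a ^ 3 = (a ^ 3 - 27 * c) + 27 * c := by ring
  generalize hβ : a ^ 3 - 27 * c = β at *
  generalize hγ : 27 * c = γ at *
  set t := γ * β⁻¹ with ht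
  have hbt : β * t = γ := by rw [ht, mul_left_comm, hbu, mul_one]
  have hdl' : dl ℂ = C ((27 : ℂ)⁻¹) * (β ^ 3 * γ) := by
    have : c = C ((27 : ℂ)⁻¹) * γ := by
      rw [← hγ, ← mul_assoc]
      have : (27 : ℂ⟦X⟧) = C (27 : ℂ) := (map_ofNat C 27).symm
      rw [this, ← map_mul]
      norm_num
    rw [hdl, this]
    ring
  have h4' : e4 ℂ = a * (β + 9 * γ) := by
    rw [h4, ha3, ← hγ]
    ring
  have h6' : e6 ℂ = β ^ 2 - 18 * β * γ - 27 * γ ^ 2 := by
    rw [h6, ← hβ, ← hγ]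
    ring
  have hsum : ∑ s ∈ Finset.range (k / 3 + 1),
      (repP j i (ba k j) (bb k)).coeff s • mo a c (k % 3) (k / 3) s
      = a ^ (k % 3) * (β ^ (k / 3) * Polynomial.aeval t (repP j i (ba k j) (bb k))) := by
    rw [Polynomial.aeval_eq_sum_range' (n := k / 3 + 1)
      (lt_of_le_of_lt (repP_deg j i (ba k j) (bb k)) (by omega)), Finset.mul_sum, Finset.mul_sum]
    refine Finset.sum_congr rfl fun s hs => ?_
    have hs' : s ≤ k / 3 := by
      have := Finset.mem_range.1 hs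
      omega
    rw [mo, hγ, hβ, mul_smul_comm, mul_smul_comm]
    congr 1
    rw [mul_assoc]
    congr 1
    conv_rhs => rw [← Nat.sub_add_cancel hs', pow_add, mul_assoc, ← mul_pow, hbt]
  rw [hsum, bas, hdl', h4', h6', repP]
  simp only [map_mul, map_pow, map_add, map_sub, map_one, Polynomial.aeval_X, Polynomial.aeval_C]
  have hC : ∀ x : ℂ, algebraMap ℂ ℂ⟦X⟧ x = C x := fun x => rfl
  simp only [hC]
  have c9 : C (9 : ℂ) = (9 : ℂ⟦X⟧) := map_ofNat C 9
  have c18 : C (18 : ℂ) = (18 : ℂ⟦X⟧) := map_ofNat C 18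
  have c27 : C (27 : ℂ) = (27 : ℂ⟦X⟧) := map_ofNat C 27
  rw [c9, c18, c27]
  have q1 : β * (1 + t) = a ^ 3 := by rw [ha3, mul_add, hbt, mul_one]
  have q2 : β * (1 + 9 * t) = β + 9 * γ := by rw [← hbt]; ring
  have q3 : β ^ 2 * (1 - 18 * t - 27 * t ^ 2) = β ^ 2 - 18 * β * γ - 27 * γ ^ 2 := by
    rw [← hbt]; ring
  have hpow : β ^ (k / 3) = (β ^ 3) ^ j * β ^ j * β ^ i * β ^ (ba k j) * (β ^ 2) ^ (bb k) := by
    rw [← hN]
    ring
  rw [hpow, ← q2, ← q3]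
  have e1 : a ^ (ba k j) = a ^ (k % 3) * (β * (1 + t)) ^ i := by
    rw [q1, hi, pow_add, pow_mul, mul_comm]
  have e2 : γ ^ j = β ^ j * t ^ j := by rw [← mul_pow, hbt]
  simp only [mul_pow] at *
  rw [e1, e2]
  ring

private theorem repX_coeff (j i b bb s : ℕ) : (27 : ℂ) ^ j * (repP j i b bb).coeff s =
    ((((Polynomial.X : Polynomial ℤ) ^ j * (1 + Polynomial.X) ^ i *
      (1 + 9 * Polynomial.X) ^ b *
      (1 - 18 * Polynomial.X - 27 * Polynomial.X ^ 2) ^ bb).coeff s : ℤ) : ℂ) := by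
  have h1 : Polynomial.C ((27 : ℂ) ^ j) * repP j i b bb =
      ((Polynomial.X : Polynomial ℤ) ^ j * (1 + Polynomial.X) ^ i *
      (1 + 9 * Polynomial.X) ^ b *
      (1 - 18 * Polynomial.X - 27 * Polynomial.X ^ 2) ^ bb).map (Int.castRingHom ℂ) := by
    have h2 : Polynomial.C ((27 : ℂ) ^ j) * Polynomial.C (((27 : ℂ)⁻¹) ^ j) = 1 := by
      rw [← Polynomial.C_mul, ← mul_pow]
      norm_num
    have c9 : (Polynomial.C (9 : ℂ)) = 9 := map_ofNat Polynomial.C 9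
    have c18 : (Polynomial.C (18 : ℂ)) = 18 := map_ofNat Polynomial.C 18
    have c27 : (Polynomial.C (27 : ℂ)) = 27 := map_ofNat Polynomial.C 27
    simp only [Polynomial.map_mul, Polynomial.map_pow, Polynomial.map_add, Polynomial.map_sub,
      Polynomial.map_one, Polynomial.map_X, Polynomial.map_ofNat]
    unfold repP
    rw [c9, c18, c27]
    linear_combination (Polynomial.X ^ j * (1 + Polynomial.X) ^ i *
      (1 + 9 * Polynomial.X) ^ b *
      (1 - 18 * Polynomial.X - 27 * Polynomial.X ^ 2) ^ bb) * h2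
  have h3 := congrArg (fun p => Polynomial.coeff p s) h1
  simp only [Polynomial.coeff_C_mul, Polynomial.coeff_map] at h3
  rw [h3]
  rfl

theorem bas_mo {a c : ℂ⟦X⟧} (h : Lv a c) (N : ℕ) (hodd : N % 2 = 1) (j : ℕ) (hj : j < (N - 1) / 4) :
    (27 : ℂ) ^ (j + 1) • bas ℂ (3 * N + 1) (j + 1) =
      ∑ s ∈ Finset.range (N + 1), ((Y0 N s j : ℤ) : ℂ) • mo a c 1 N s := by
  have hd := dd_eq N hodd
  have hj' : j + 1 < dd (3 * N + 1) := by omega
  have e1 : (3 * N + 1) % 3 = 1 := by omega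
  have e2 : (3 * N + 1) / 3 = N := by omega
  have hb : bb (3 * N + 1) = (N - 1) / 2 % 2 := by
    unfold bb
    split_ifs with h1 <;> omega
  have hba : ba (3 * N + 1) (j + 1) = 3 * ((N - 1) / 4 - (j + 1)) + 1 := by
    unfold ba
    rw [hb]
    omega
  have h1 := repX_rep h (3 * N + 1) (j + 1) hj' ((N - 1) / 4 - (j + 1)) (by rw [hba, e1])
  rw [e1, e2] at h1
  rw [h1, Finset.smul_sum]
  refine Finset.sum_congr rfl fun s _ => ?_
  rw [smul_smul, repX_coeff, hba, hb]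
  rfl

end Pool.Agent.Lib.MP_06b9d2_trp
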