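import Pool.Agent.Lib.MP_06b9d2_trp.Defs
import Mathlib

/-!
Module TRP-Sqr. Squares in `ℚ_[3]`.

`sq_unit`: reduce with `PadicInt.toZMod : ℤ_[3] →+* ZMod 3` (`toZMod x = 0 ↔ 3 ∣ x`: `PadicInt.ker_toZMod`, `PadicInt.maximalIdeal_eq_span_p`, `Ideal.mem_span_singleton`), `decide` on `ZMod 3`. `sqr1`: Hensel (`hensels_lemma` for `F = X ^ 2 - C w` at `a = 1`: `‖F(1)‖ = ‖1 - w‖ ≤ 1 / 3 < 1 = ‖2‖ ^ 2 = ‖F'(1)‖ ^ 2`; `PadicInt.isUnit_iff`/`PadicInt.norm_lt_one_iff_dvd`), so `w = z ^ 2` in `ℤ_[3]`.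
`sqr2`: if `(w : ℚ_[3]) = y * y` then `‖y‖ ^ 2 = ‖w‖ ≤ 1`, so `y ∈ ℤ_[3]`, and modulo `3` (`PadicInt.toZMod`): `w ≡ 2` is not a square in `ZMod 3` (`decide`).
`sqr3`, `sqr4`: `x = κ ^ 2 (3 ^ J) ^ 2 w` with `κ ≠ 0`: `IsSquare (c ^ 2 * w) ↔ IsSquare w` for `c ≠ 0`.
-/

namespace Pool.Agent.Lib.MP_06b9d2_trp

open Polynomial

theorem sqr_tz (x : Z3) : (3 : Z3) ∣ x ↔ PadicInt.toZMod x = 0 := by
  rw [← RingHom.mem_ker, PadicInt.ker_toZMod, PadicInt.maximalIdeal_eq_span_p, Ideal.mem_span_singleton]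
  norm_cast

theorem sq_unit (x : Z3) (hx : ¬ (3 : Z3) ∣ x) : (3 : Z3) ∣ x ^ 2 - 1 := by
  rw [sqr_tz] at hx ⊢
  rw [map_sub, map_pow, map_one]
  revert hx
  generalize (PadicInt.toZMod x : ZMod 3) = y
  revert y
  decide

theorem sqr1 (w : Z3) (h : (3 : Z3) ∣ w - 1) : IsSquare (w : Q3) := by
  have h1 : ‖(1 : Z3) - w‖ < 1 := by
    rw [norm_sub_rev, PadicInt.norm_lt_one_iff_dvd]
    exact_mod_cast h
  have h2 : ‖(2 : Z3)‖ = 1 := by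
    rw [← PadicInt.isUnit_iff]
    by_contra h2
    rw [PadicInt.not_isUnit_iff, PadicInt.norm_lt_one_iff_dvd] at h2
    have h3 : (3 : Z3) ∣ 2 := by exact_mod_cast h2
    rw [sqr_tz] at h3
    rw [map_ofNat] at h3
    exact absurd h3 (by decide)
  have hn : ‖(Polynomial.aeval (1 : Z3)) (X ^ 2 - C w : Z3[X])‖ < ‖(Polynomial.aeval (1 : Z3)) (derivative (X ^ 2 - C w : Z3[X]))‖ ^ 2 := by
    simp only [derivative_sub, derivative_X_pow, derivative_C, sub_zero, map_sub, map_mul, map_pow, aeval_X, aeval_C,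
      one_pow, mul_one, Algebra.algebraMap_self, RingHom.id_apply, Nat.cast_ofNat, map_ofNat, Nat.add_one_sub_one]
    rw [h2, one_pow]
    exact h1
  obtain ⟨z, hz, -⟩ := hensels_lemma hn
  refine ⟨(z : Q3), ?_⟩
  have : z ^ 2 - w = 0 := by simpa using hz
  have h3 : w = z * z := by linear_combination -this
  rw [h3]
  push_cast
  rfl

theorem sqr2 (w : Z3) (h : (3 : Z3) ∣ w - 2) : ¬ IsSquare (w : Q3) := by
  rintro ⟨y, hy⟩
  have hn : ‖y‖ ≤ 1 := by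
    have h1 : ‖(w : Q3)‖ ≤ 1 := w.2
    rw [hy, norm_mul] at h1
    by_contra h2
    push Not at h2
    nlinarith
  set z : Z3 := ⟨y, hn⟩ with hz
  have h3 : w = z * z := by
    apply Subtype.ext
    rw [hy]
    rfl
  rw [sqr_tz] at h
  rw [h3, map_sub, map_mul, map_ofNat] at h
  revert h
  generalize (PadicInt.toZMod z : ZMod 3) = y
  revert y
  decide

theorem sqr_mul (c w : Q3) (hc : c ≠ 0) : IsSquare (c ^ 2 * w) ↔ IsSquare w := by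
  constructor
  · rintro ⟨y, hy⟩
    refine ⟨y / c, ?_⟩
    field_simp
    linear_combination hy
  · rintro ⟨y, hy⟩
    exact ⟨c * y, by rw [hy]; ring⟩

theorem sqr3 (k : Q3) (J : ℕ) (w : Z3) (h : (3 : Z3) ∣ w - 1) : IsSquare (k ^ 2 * (3 ^ (2 * J) * (w : Q3))) := by
  obtain ⟨y, hy⟩ := sqr1 w h
  exact ⟨k * 3 ^ J * y, by rw [hy]; ring⟩

theorem sqr4 (k : Q3) (hk : k ≠ 0) (J : ℕ) (w : Z3) (h : (3 : Z3) ∣ w - 2) : ¬ IsSquare (k ^ 2 * (3 ^ (2 * J) * (w : Q3))) := by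
  have h3 : (3 : Q3) ≠ 0 := by norm_num
  have e : k ^ 2 * (3 ^ (2 * J) * (w : Q3)) = (k * 3 ^ J) ^ 2 * w := by ring
  rw [e, sqr_mul _ _ (mul_ne_zero hk (pow_ne_zero _ h3))]
  exact sqr2 w h

end Pool.Agent.Lib.MP_06b9d2_trp
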