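import Pool.Agent.Lib.MP_06b9d2_trp.Fcts
import Pool.Agent.Lib.MP_06b9d2_trp.AlgS
import Pool.Agent.Lib.MP_06b9d2_trp.Last
import Pool.Agent.Lib.MP_06b9d2_trp.Blk
import Pool.Agent.Lib.MP_06b9d2_trp.Cnt
import Pool.Agent.Lib.MP_06b9d2_trp.Sqr

/-!
Board TRP: the number of eigenvalues of `T_2` in `ℚ_[3]` (matrix form).
-/

namespace Pool.Agent.Lib.MP_06b9d2_trp

variable {N R a c : ℕ}


theorem rts (hN : N + 1 = c * 3 ^ R + 2 * a) (ha : a ≤ 1) (hR : 1 ≤ R) (hodd : N % 2 = 1)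
    (hc : c = 8 ∨ c = 10 ∨ c = 14 ∨ c = 16) {d : ℕ} (hd : (N - 1) / 4 = d)
    (Y : ℕ → Fin d → ℤ) (B : Matrix (Fin d) (Fin d) ℤ)
    (h1 : ∀ i j : Fin d, Y ((i : ℕ) + 1) j = if i = j then 1 else 0)
    (h2 : ∀ r : ℕ, (r = 0 ∨ d < r) → ∀ j, (3 : ℤ) ∣ Y r j)
    (h3 : ∀ r ≤ N, ∀ j, ∑ s ∈ Finset.range (N + 1), MZ N r s * Y s j = ∑ j', Y r j' * B j' j) (k : Q3) (hk : k ≠ 0) :
    Multiset.card (k • B.map (Int.cast : ℤ → Q3)).charpoly.roots + 2 = d := by
  classical
  have hF := fct hN ha hR hodd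
  have hdN : d ≤ N := by omega
  let emb : Fin d → Fin (N + 1) := fun i => ⟨(i : ℕ) + 1, by have := i.2; omega⟩
  have hembv : ∀ i, ((emb i : Fin (N + 1)) : ℕ) = (i : ℕ) + 1 := fun i => rfl
  have hemb : Function.Injective emb := by
    intro i j hij
    have := congrArg Fin.val hij
    rw [hembv, hembv] at this
    exact Fin.ext (by omega)
  let YY : Matrix (Fin (N + 1)) (Fin d) Z3 := Matrix.of fun r j => ((Y r j : ℤ) : Z3)
  let Z : Matrix (Fin d) (Fin (N + 1)) Z3 := Matrix.of fun i r => if r = emb i then 1 else 0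
  have hYY : ∀ r j, YY r j = ((Y r j : ℤ) : Z3) := fun r j => rfl
  have hZv : ∀ i r, Z i r = if r = emb i then 1 else 0 := fun i r => rfl
  have hZm : ∀ (X : Matrix (Fin (N + 1)) (Fin d) Z3) (i j : Fin d), (Z * X) i j = X (emb i) j := by
    intro X i j
    rw [Matrix.mul_apply, Finset.sum_eq_single (emb i)]
    · rw [hZv, if_pos rfl, one_mul]
    · intro r _ hr
      rw [hZv, if_neg hr, zero_mul]
    · intro h
      exact absurd (Finset.mem_univ _) h
  have hY1 : ∀ i j, YY (emb i) j = if i = j then 1 else 0 := by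
    intro i j
    rw [hYY, hembv, h1]
    split_ifs <;> simp
  have hZY : Z * YY = 1 := by
    ext i j
    rw [hZm, hY1, Matrix.one_apply]
  have hY0 : ∀ r, (∀ i, r ≠ emb i) → ∀ j, (3 : Z3) ∣ YY r j := by
    intro r hr j
    have hr' : (r : ℕ) = 0 ∨ d < (r : ℕ) := by
      by_contra hcon
      push Not at hcon
      refine hr ⟨(r : ℕ) - 1, by omega⟩ (Fin.ext ?_)
      rw [hembv]
      show (r : ℕ) = (r : ℕ) - 1 + 1
      omega
    have := map_dvd (Int.castRingHom Z3) (h2 r hr' j)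
    rw [hYY]
    simpa using this
  -- the relation
  have hAY0 : MX N (MZ N) * YY = YY * B.map (Int.cast : ℤ → Z3) := by
    ext r j
    have h := h3 r (by have := r.2; omega) j
    have h' := congrArg (Int.cast : ℤ → Z3) h
    rw [Matrix.mul_apply, Matrix.mul_apply]
    push_cast at h'
    rw [Finset.sum_range] at h'
    exact h'
  have hZAY : Z * MX N (MZ N) * YY = B.map (Int.cast : ℤ → Z3) := by
    rw [Matrix.mul_assoc, hAY0, ← Matrix.mul_assoc, hZY, Matrix.one_mul]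
  have hAY : MX N (MZ N) * YY = YY * (Z * MX N (MZ N) * YY) := by
    rw [hZAY, hAY0]
  obtain ⟨S, hS, hAS, hXY⟩ := algS (MX N (MZ N)) YY Z hZY hAY
  have hC : Ctx N R a c (MZ N) S := ⟨hF, hS, hAS⟩
  -- the pieces
  have hz : ∀ z : ℤ, ∃ (E T : Matrix (Fin (N + 1)) (Fin (N + 1)) Z3) (h : Z3),
      (∃ s : Fin (N + 1), key N (R + 1) s = z) → Pc S (MX N (MZ N)) (R + 1) (fun r => key N (R + 1) r = z) E T h := by
    intro z
    by_cases hz : ∃ s : Fin (N + 1), key N (R + 1) s = z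
    · obtain ⟨E, T, h, hP⟩ := zoom hC (R + 1) le_rfl z hz
      exact ⟨E, T, h, fun _ => hP⟩
    · exact ⟨1, 1, 1, fun h => absurd h hz⟩
  choose E T h hP using hz
  have hP' : ∀ s : Fin d, Pc S (MX N (MZ N)) (R + 1) (fun r => key N (R + 1) r = key N (R + 1) (emb s))
      (E (key N (R + 1) (emb s))) (T (key N (R + 1) (emb s))) (h (key N (R + 1) (emb s))) :=
    fun s => hP _ ⟨emb s, rfl⟩
  obtain ⟨D, G, G', hG1, hG2, hD, hD0, hD1⟩ := blk hS hAS emb hemb YY Z hZv hY1 hY0 hXY (key N (R + 1)) (R + 1) E T h hP'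
  rw [hZAY] at hD
  -- over the field
  let ν : Z3 →+* Q3 := algebraMap Z3 Q3
  have hνc : ∀ x : Z3, ν x = (x : Q3) := fun x => rfl
  have hGG : G.map ν * G'.map ν = 1 := by
    rw [← Matrix.map_mul, hG1, Matrix.map_one _ (map_zero ν) (map_one ν)]
  have hcp : (k • B.map (Int.cast : ℤ → Q3)).charpoly = (k • D.map ν).charpoly := by
    have e1 : B.map (Int.cast : ℤ → Q3) = (B.map (Int.cast : ℤ → Z3)).map ν := by
      ext i j
      simp only [Matrix.map_apply]
      rw [map_intCast]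
    have e2 : D.map ν = G'.map ν * B.map (Int.cast : ℤ → Q3) * G.map ν := by
      rw [e1, hD, Matrix.map_mul, Matrix.map_mul]
    rw [e2, ← Matrix.smul_mul, Matrix.charpoly_mul_comm, ← Matrix.mul_smul, ← Matrix.mul_assoc, hGG, Matrix.one_mul]
  rw [hcp]
  -- the discriminants
  have hdis : ∀ r s : Fin d, r ≠ s → key N (R + 1) (emb r) = key N (R + 1) (emb s) → ∃ w : Z3,
      ((k • D.map ν) r r - (k • D.map ν) s s) ^ 2 + 4 * (k • D.map ν) r s * (k • D.map ν) s r =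
        k ^ 2 * (3 ^ (2 * (R + 1)) * (w : Q3)) ∧
      (3 : Z3) ∣ w - ((T (key N (R + 1) (emb s)) (emb r) (emb r) - T (key N (R + 1) (emb s)) (emb s) (emb s)) ^ 2 +
        4 * (T (key N (R + 1) (emb s)) (emb r) (emb s) * T (key N (R + 1) (emb s)) (emb s) (emb r))) := by
    intro r s hrs hk1
    obtain ⟨y1, hy1⟩ := hD1 r r rfl
    obtain ⟨y2, hy2⟩ := hD1 s s rfl
    obtain ⟨y3, hy3⟩ := hD1 r s hk1
    obtain ⟨y4, hy4⟩ := hD1 s r hk1.symm
    rw [if_pos rfl, hk1] at hy1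
    rw [if_pos rfl] at hy2
    rw [if_neg hrs] at hy3
    rw [if_neg (Ne.symm hrs), hk1] at hy4
    set TT := T (key N (R + 1) (emb s)) with hTT
    have z1 : D r r = h (key N (R + 1) (emb s)) + 3 ^ (R + 1) * TT (emb r) (emb r) + 3 ^ (R + 1 + 1) * y1 := by
      linear_combination hy1
    have z2 : D s s = h (key N (R + 1) (emb s)) + 3 ^ (R + 1) * TT (emb s) (emb s) + 3 ^ (R + 1 + 1) * y2 := by
      linear_combination hy2
    have z3 : D r s = 3 ^ (R + 1) * (TT (emb r) (emb s) + 3 * y3) := by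
      linear_combination hy3
    have z4 : D s r = 3 ^ (R + 1) * (TT (emb s) (emb r) + 3 * y4) := by
      linear_combination hy4
    refine ⟨(TT (emb r) (emb r) - TT (emb s) (emb s) + 3 * (y1 - y2)) ^ 2 +
      4 * ((TT (emb r) (emb s) + 3 * y3) * (TT (emb s) (emb r) + 3 * y4)), ?_, ?_⟩
    · have e : (D r r - D s s) ^ 2 + 4 * (D r s * D s r) = 3 ^ (2 * (R + 1)) *
          ((TT (emb r) (emb r) - TT (emb s) (emb s) + 3 * (y1 - y2)) ^ 2 +
          4 * ((TT (emb r) (emb s) + 3 * y3) * (TT (emb s) (emb r) + 3 * y4))) := by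
        rw [z1, z2, z3, z4]
        ring
      have e3 : ν 3 = 3 := map_ofNat ν 3
      have e4 : ν 4 = 4 := map_ofNat ν 4
      have e5 : ((k • D.map ν) r r - (k • D.map ν) s s) ^ 2 + 4 * (k • D.map ν) r s * (k • D.map ν) s r =
          k ^ 2 * ν ((D r r - D s s) ^ 2 + 4 * (D r s * D s r)) := by
        rw [map_add, map_mul, map_mul, map_pow, map_sub, e4]
        simp only [Matrix.smul_apply, Matrix.map_apply, smul_eq_mul]
        ring
      rw [e5, e, map_mul, map_pow, e3]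
      rfl
    · refine ⟨2 * (TT (emb r) (emb r) - TT (emb s) (emb s)) * (y1 - y2) + 3 * (y1 - y2) ^ 2 +
        4 * (TT (emb r) (emb s) * y4 + y3 * TT (emb s) (emb r) + 3 * y3 * y4), ?_⟩
      ring
  -- positions
  obtain ⟨hC1, hC2⟩ := res_pos hN ha hR hc
  obtain ⟨C0, hC0⟩ : ∃ C0, C0 = 3 ^ R * i0 c + a := ⟨_, rfl⟩
  rw [← hC0] at hC1 hC2
  have hC3 : (3 : ℤ) ^ (R + 1) ∣ uu N (C0 - 1) - uu N C0 := by
    rw [hC0]
    exact res_key hN ha hR hc
  rw [hd] at hC2
  obtain ⟨p, hp⟩ : ∃ p : Fin d, (p : ℕ) = C0 - 2 := ⟨⟨C0 - 2, by omega⟩, rfl⟩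
  obtain ⟨q, hq⟩ : ∃ q : Fin d, (q : ℕ) = C0 - 1 := ⟨⟨C0 - 1, by omega⟩, rfl⟩
  have hpv : ((emb p : Fin (N + 1)) : ℕ) = C0 - 1 := by rw [hembv, hp]; omega
  have hqv : ((emb q : Fin (N + 1)) : ℕ) = C0 := by rw [hembv, hq]; omega
  have hpq : p ≠ q := by
    intro h
    rw [h, hq] at hp
    omega
  have hkpq : key N (R + 1) (emb p) = key N (R + 1) (emb q) := by
    rw [key_iff, hpv, hqv]
    exact hC3
  have hpos : ∀ s : Fin d, 1 ≤ ((emb s : Fin (N + 1)) : ℕ) ∧ ((emb s : Fin (N + 1)) : ℕ) ≤ (N - 1) / 4 := by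
    intro s
    have := s.2
    rw [hembv]
    omega
  -- the three positions of a class
  have hpar : ∀ r s : Fin d, r ≠ s → key N (R + 1) (emb r) = key N (R + 1) (emb s) →
      ((emb r : Fin (N + 1)) : ℕ) % 2 ≠ ((emb s : Fin (N + 1)) : ℕ) % 2 := by
    intro r s hrs hk1
    have hne : ((emb r : Fin (N + 1)) : ℕ) ≠ ((emb s : Fin (N + 1)) : ℕ) := fun h => hrs (hemb (Fin.ext h))
    rcases lt_or_gt_of_ne hne with h | h
    · exact pr_par hN ha hR hc _ _ (hpos r).1 h (hpos s).2 ((key_iff N (R + 1) _ _).1 hk1)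
    · exact (pr_par hN ha hR hc _ _ (hpos s).1 h (hpos r).2 ((key_iff N (R + 1) _ _).1 hk1.symm)).symm
  have htw : ∀ r s t : Fin d, key N (R + 1) (emb r) = key N (R + 1) (emb s) → key N (R + 1) (emb s) = key N (R + 1) (emb t) →
      r = s ∨ s = t ∨ r = t := by
    intro r s t h1 h2
    by_contra hcon
    push Not at hcon
    have a1 := hpar r s hcon.1 h1
    have a2 := hpar s t hcon.2.1 h2
    have a3 := hpar r t hcon.2.2 (h1.trans h2)
    omega
  -- unit modulo 3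
  have hunit : ∀ x : Z3, ¬ (3 : Z3) ∣ x → (3 : Z3) ∣ x ^ 2 - 1 := sq_unit
  refine cnt two_ne_zero (k • D.map ν) (fun r => key N (R + 1) (emb r)) ?_ p q hpq hkpq htw ?_ ?_
  · intro r s hrs
    rw [Matrix.smul_apply, Matrix.map_apply, hD0 r s hrs, map_zero, smul_zero]
  · intro r s hrs hk1 hk2
    obtain ⟨w, hw1, hw2⟩ := hdis r s hrs hk1
    rw [hw1]
    refine sqr3 k (R + 1) w ?_
    have hPs := hP' s
    rcases lt_or_gt_of_ne (show ((emb r : Fin (N + 1)) : ℕ) ≠ ((emb s : Fin (N + 1)) : ℕ) from fun h => hrs (hemb (Fin.ext h))) with h | h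
    · have h4 : ((emb r : Fin (N + 1)) : ℕ) + 1 ≠ ((emb s : Fin (N + 1)) : ℕ) := by
        intro h4
        have h5 := pr_adj hN ha hR hc _ (hpos r).1 (by rw [h4]; exact (hpos s).2) (by rw [h4]; exact (key_iff N (R + 1) _ _).1 hk1)
        rw [← hC0] at h5
        apply hk2
        show key N (R + 1) (emb r) = key N (R + 1) (emb p)
        congr 1
        apply Fin.ext
        rw [hpv]
        omega
      have b1 := hunit _ (last_dg hC hc hPs (emb r) (emb s) hk1 rfl (hpos r).1 h (hpos s).2)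
      have b2 := last_off hC hc hPs (emb r) (emb s) hk1 rfl (hpos r).1 h (hpos s).2 h4
      have b3 := dvd_add (dvd_add hw2 b1) (Dvd.dvd.mul_left b2 4)
      convert b3 using 1
      ring
    · have h4 : ((emb s : Fin (N + 1)) : ℕ) + 1 ≠ ((emb r : Fin (N + 1)) : ℕ) := by
        intro h4
        have h5 := pr_adj hN ha hR hc _ (hpos s).1 (by rw [h4]; exact (hpos r).2) (by rw [h4]; exact (key_iff N (R + 1) _ _).1 hk1.symm)
        rw [← hC0] at h5
        apply hk2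
        show key N (R + 1) (emb r) = key N (R + 1) (emb p)
        rw [show key N (R + 1) (emb r) = key N (R + 1) (emb s) from hk1]
        congr 1
        apply Fin.ext
        rw [hpv]
        omega
      have b1 := hunit _ (last_dg hC hc hPs (emb s) (emb r) rfl hk1 (hpos s).1 h (hpos r).2)
      have b2 := last_off hC hc hPs (emb s) (emb r) rfl hk1 (hpos s).1 h (hpos r).2 h4
      have b3 := dvd_add (dvd_add hw2 b1) (Dvd.dvd.mul_left b2 4)
      convert b3 using 1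
      ring
  · obtain ⟨w, hw1, hw2⟩ := hdis p q hpq hkpq
    rw [hw1]
    refine sqr4 k hk (R + 1) w ?_
    have h4 : ((emb p : Fin (N + 1)) : ℕ) + 1 = ((emb q : Fin (N + 1)) : ℕ) := by
      rw [hpv, hqv]
      omega
    have b1 := hunit _ (last_dg hC hc (hP' q) (emb p) (emb q) hkpq rfl (hpos p).1 (by omega) (hpos q).2)
    have b2 := last_adj hC hc (hP' q) (emb p) (emb q) hkpq rfl (hpos p).1 (hpos q).2 h4
    have b3 : (3 : Z3) ∣ 3 := dvd_rfl
    have b4 := dvd_add (dvd_add (dvd_add hw2 b1) (Dvd.dvd.mul_left b2 4)) b3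
    convert b4 using 1
    ring

end Pool.Agent.Lib.MP_06b9d2_trp
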