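import Pool.Agent.Lib.MP_06b9d2_trp.IL

/-!
Module TRP-Stp. One step of the zooming.

All congruences modulo `3`, entrywise. `T ∈ S`: `3 ^ j • T = (A - h • 1) * E ∈ S`, `div` `j` times. `T * E = T`: `3 ^ j • (T * E) = (A - h) E E = 3 ^ j • T`, cancel `3 ^ j`. `E * T = T * E = T` (`comm`).
`Tn_off` (from `T = T * E` and `E ≡` projection to `cl`: `(T * E) r s = ∑_k T r k E k s`, `red0` for `¬ cl s`): `¬ cl s → 3 ∣ T r s`; from `T = E * T`: `¬ cl r → 3 ∣ T r s` (`E r k ≡ 0` for all `k` if `¬ cl r`: for `cl k`: `red` with `r ≠ k`; for `¬ cl k`: `red0`).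
Step: `X = E - (T - t • E) * (T - t • E) ∈ S`. Modulo `3`: `T - t E` is diagonal: off-diagonal entries `≡ 0` (`hd`), diagonal entries `≡ T s s - t` for `cl s`, `≡ 0` for `¬ cl s`. So `X` is `≡` diagonal with the entries `1 - (T s s - t) ^ 2` for `cl s`: `≡ 1` if `cl' s` (`h1`), and
`≡ 0` if `cl s`, `¬ cl' s` (`h0`: `T s s - t` is a unit modulo `3`, its square is `≡ 1`; in `Z3`: if `¬ 3 ∣ x` then `3 ∣ x ^ 2 - 1`: reduce with `PadicInt.toZMod : ℤ_[3] →+* ZMod 3` (`toZMod x = 0 ↔ 3 ∣ x`: `PadicInt.ker_toZMod`, `PadicInt.maximalIdeal_eq_span_p`, `Ideal.mem_span_singleton`) and `decide` on `ZMod 3`),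
and `≡ 0` if `¬ cl s`. So `X * X ≡ X`. It is convenient to map everything to `ZMod 3` with `Matrix.map _ PadicInt.toZMod` (`Matrix.map_mul`) and to work with `Matrix.diagonal`. `il`: `E'`, `E' ≡ X`. `E * X = X` (`E E = E`, `E T = T`), so `E * E' = E'`.
`(A - (h + 3 ^ j t) • 1) * E' = (A - h) E E' - 3 ^ j t E' = 3 ^ j • ((T - t • 1) * E')`, and `(T - t) E' ≡ 0`: `E' ≡` the projection to `cl'`, `((T - t) E') r s ≡ (T - t) r s` for `cl' s`, which is `≡ 0` (`hd` off the diagonal, `h1` on it). So `(T - t • 1) * E' = 3 • T'` (choose the quotients entrywise) and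
`(A - (h + 3 ^ j t) • 1) * E' = 3 ^ (j + 1) • T'`. `red`, `red0` for `E'`: from `E' ≡ X`.
Please also deliver `Pc_T`, `Pc_off` (used by other modules).
-/

namespace Pool.Agent.Lib.MP_06b9d2_trp

variable {ι : Type} [Fintype ι] [DecidableEq ι] {S : Set (Matrix ι ι Z3)} {A : Matrix ι ι Z3} {j : ℕ} {cl : ι → Prop}
  {E T : Matrix ι ι Z3} {h : Z3}

private theorem dvd3 (x : Z3) : (3 : Z3) ∣ x ↔ (PadicInt.toZMod : Z3 →+* ZMod 3) x = 0 := by
  rw [← RingHom.mem_ker, PadicInt.ker_toZMod, PadicInt.maximalIdeal_eq_span_p, Ideal.mem_span_singleton]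
  exact Iff.rfl

private theorem dvd3s (x y : Z3) : (3 : Z3) ∣ x - y ↔
    (PadicInt.toZMod : Z3 →+* ZMod 3) x = (PadicInt.toZMod : Z3 →+* ZMod 3) y := by
  rw [dvd3, map_sub, sub_eq_zero]

omit [Fintype ι] [DecidableEq ι] in
private theorem smul_cancel {X Y : Matrix ι ι Z3} (n : ℕ) (hXY : (3 : Z3) ^ n • X = (3 : Z3) ^ n • Y) : X = Y := by
  ext r s
  have h1 := congrFun (congrFun hXY r) s
  rw [Matrix.smul_apply, Matrix.smul_apply, smul_eq_mul, smul_eq_mul] at h1
  exact mul_left_cancel₀ (pow_ne_zero _ (by exact_mod_cast (show (3 : ℕ) ≠ 0 by norm_num))) h1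

private theorem sub_mem' (hS : Alg S) {X Y : Matrix ι ι Z3} (hX : X ∈ S) (hY : Y ∈ S) : X - Y ∈ S := by
  have h1 := hS.add _ hX _ (hS.smul (-1) _ hY)
  rwa [neg_smul, one_smul, ← sub_eq_add_neg] at h1

private theorem div_pow (hS : Alg S) (n : ℕ) : ∀ X : Matrix ι ι Z3, (3 : Z3) ^ n • X ∈ S → X ∈ S := by
  induction n with
  | zero =>
    intro X hX
    rwa [pow_zero, one_smul] at hX
  | succ n ih =>
    intro X hX
    rw [pow_succ', mul_smul] at hX
    exact ih X (hS.div _ hX)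

theorem Pc_T (hS : Alg S) (hA : A ∈ S) (P : Pc S A j cl E T h) : T ∈ S ∧ T * E = T ∧ E * T = T := by
  have h1 : A - h • 1 ∈ S := sub_mem' hS hA (hS.smul h _ hS.one)
  have hT : T ∈ S := by
    apply div_pow hS j
    rw [← P.eq]
    exact hS.mul _ h1 _ P.mem
  have hTE : T * E = T := by
    apply smul_cancel j
    rw [← Matrix.smul_mul, ← P.eq, Matrix.mul_assoc, P.idem]
  exact ⟨hT, hTE, by rw [hS.comm _ P.mem _ hT, hTE]⟩

private theorem mapE (P : Pc S A j cl E T h) [DecidablePred cl] :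
    E.map (PadicInt.toZMod : Z3 →+* ZMod 3) = Matrix.diagonal (fun s => if cl s then (1 : ZMod 3) else 0) := by
  ext r s
  rw [Matrix.map_apply, Matrix.diagonal_apply]
  by_cases hs : cl s
  · have h1 := P.red r s hs
    rw [dvd3s] at h1
    rw [h1]
    by_cases hrs : r = s
    · subst hrs
      rw [if_pos rfl, if_pos rfl, if_pos hs, map_one]
    · rw [if_neg hrs, if_neg hrs, map_zero]
  · have h1 := P.red0 r s hs
    rw [dvd3] at h1
    rw [h1]
    by_cases hrs : r = s
    · subst hrs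
      rw [if_pos rfl, if_neg hs]
    · rw [if_neg hrs]

theorem Pc_off (hS : Alg S) (hA : A ∈ S) (P : Pc S A j cl E T h) :
    (∀ r s, ¬ cl s → (3 : Z3) ∣ T r s) ∧ ∀ r s, ¬ cl r → (3 : Z3) ∣ T r s := by
  classical
  obtain ⟨_, h1, h2⟩ := Pc_T hS hA P
  have e1 := congrArg (fun X : Matrix ι ι Z3 => X.map (PadicInt.toZMod : Z3 →+* ZMod 3)) h1
  have e2 := congrArg (fun X : Matrix ι ι Z3 => X.map (PadicInt.toZMod : Z3 →+* ZMod 3)) h2
  simp only [Matrix.map_mul, mapE P] at e1 e2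
  constructor
  · intro r s hs
    rw [dvd3]
    have := congrFun (congrFun e1 r) s
    rw [Matrix.mul_diagonal, if_neg hs, mul_zero, Matrix.map_apply] at this
    exact this.symm
  · intro r s hr
    rw [dvd3]
    have := congrFun (congrFun e2 r) s
    rw [Matrix.diagonal_mul, if_neg hr, zero_mul, Matrix.map_apply] at this
    exact this.symm

private theorem sq3 : ∀ x : ZMod 3, x ≠ 0 → 1 - x * x = 0 := by decide

theorem stp (hS : Alg S) (hA : A ∈ S) (P : Pc S A j cl E T h) (cl' : ι → Prop) (hcl : ∀ s, cl' s → cl s) (t : Z3)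
    (hd : ∀ r s, r ≠ s → (3 : Z3) ∣ T r s) (h1 : ∀ s, cl' s → (3 : Z3) ∣ T s s - t)
    (h0 : ∀ s, cl s → ¬ cl' s → ¬ (3 : Z3) ∣ T s s - t) :
    ∃ E' T' : Matrix ι ι Z3, Pc S A (j + 1) cl' E' T' (h + 3 ^ j * t) := by
  classical
  obtain ⟨hT, hTE, hET⟩ := Pc_T hS hA P
  obtain ⟨hoff, _⟩ := Pc_off hS hA P
  have hX : E - (T - t • E) * (T - t • E) ∈ S := by
    have h2 : T - t • E ∈ S := sub_mem' hS hT (hS.smul t _ P.mem)
    exact sub_mem' hS P.mem (hS.mul _ h2 _ h2)
  -- reduction modulo 3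
  have hE3 := mapE P
  have hW : (T - t • E).map (PadicInt.toZMod : Z3 →+* ZMod 3) =
      Matrix.diagonal (fun s => if cl s then (PadicInt.toZMod : Z3 →+* ZMod 3) (T s s - t) else 0) := by
    ext r s
    rw [Matrix.map_apply, Matrix.diagonal_apply, Matrix.sub_apply, Matrix.smul_apply, smul_eq_mul, map_sub, map_mul]
    have e1 := congrFun (congrFun hE3 r) s
    rw [Matrix.map_apply, Matrix.diagonal_apply] at e1
    rw [e1]
    by_cases hrs : r = s
    · subst hrs
      rw [if_pos rfl, if_pos rfl]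
      by_cases hr : cl r
      · rw [if_pos hr, if_pos hr, mul_one, map_sub]
      · rw [if_neg hr, if_neg hr, mul_zero, sub_zero]
        exact (dvd3 _).1 (hoff r r hr)
    · rw [if_neg hrs, if_neg hrs, mul_zero, sub_zero]
      exact (dvd3 _).1 (hd r s hrs)
  have hX3 : (E - (T - t • E) * (T - t • E)).map (PadicInt.toZMod : Z3 →+* ZMod 3) =
      Matrix.diagonal (fun s => if cl' s then (1 : ZMod 3) else 0) := by
    rw [Matrix.map_sub _ (map_sub _), Matrix.map_mul, hE3, hW, Matrix.diagonal_mul_diagonal, Matrix.diagonal_sub]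
    congr 1
    funext s
    by_cases hs : cl s
    · rw [if_pos hs, if_pos hs]
      by_cases hs' : cl' s
      · rw [if_pos hs', (dvd3 _).1 (h1 s hs'), mul_zero, sub_zero]
      · rw [if_neg hs']
        exact sq3 _ (fun hh => h0 s hs hs' ((dvd3 _).2 hh))
    · rw [if_neg hs, if_neg hs, if_neg (fun hh => hs (hcl s hh)), mul_zero, sub_zero]
  obtain ⟨E', hE'S, hE'i, hE'X, hE'Z⟩ := il hS _ hX (by
    intro r s
    rw [dvd3]
    have e1 : ((E - (T - t • E) * (T - t • E)) * (E - (T - t • E) * (T - t • E)) - (E - (T - t • E) * (T - t • E))).map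
        (PadicInt.toZMod : Z3 →+* ZMod 3) = 0 := by
      rw [Matrix.map_sub _ (map_sub _), Matrix.map_mul, hX3, Matrix.diagonal_mul_diagonal, Matrix.diagonal_sub]
      rw [← Matrix.diagonal_zero]
      congr 1
      funext s
      by_cases hs' : cl' s
      · rw [if_pos hs', mul_one, sub_self]
      · rw [if_neg hs', mul_zero, sub_self]
    exact congrFun (congrFun e1 r) s)
  have hE'3 : E'.map (PadicInt.toZMod : Z3 →+* ZMod 3) = Matrix.diagonal (fun s => if cl' s then (1 : ZMod 3) else 0) := by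
    rw [← hX3]
    ext r s
    have := hE'X r s
    rw [Matrix.sub_apply, dvd3s] at this
    exact this
  have hEE' : E * E' = E' := by
    apply hE'Z
    rw [Matrix.mul_sub, P.idem, ← Matrix.mul_assoc]
    congr 2
    rw [Matrix.mul_sub, hET, Matrix.mul_smul, P.idem]
  -- the quotient
  have hq : ∀ r s, (3 : Z3) ∣ ((T - t • 1) * E') r s := by
    intro r s
    rw [dvd3]
    have e1 : ((T - t • 1) * E').map (PadicInt.toZMod : Z3 →+* ZMod 3) = 0 := by
      have e2 : (T - t • 1) * E' = (T - t • E) * E' := by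
        rw [Matrix.sub_mul, Matrix.sub_mul, Matrix.smul_mul, Matrix.smul_mul, Matrix.one_mul, hEE']
      rw [e2, Matrix.map_mul, hW, hE'3, Matrix.diagonal_mul_diagonal, ← Matrix.diagonal_zero]
      congr 1
      funext s
      by_cases hs' : cl' s
      · rw [if_pos hs', if_pos (hcl s hs'), (dvd3 _).1 (h1 s hs'), zero_mul]
      · rw [if_neg hs', mul_zero]
    exact congrFun (congrFun e1 r) s
  choose T' hT' using hq
  refine ⟨E', Matrix.of T', hE'S, hE'i, ?_, ?_, ?_⟩
  · intro r s hs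
    have := congrFun (congrFun hE'3 r) s
    rw [Matrix.map_apply, Matrix.diagonal_apply] at this
    rw [dvd3s]
    by_cases hrs : r = s
    · subst hrs
      rw [if_pos rfl] at this ⊢
      rw [if_pos hs] at this
      rw [this, map_one]
    · rw [if_neg hrs] at this ⊢
      rw [this, map_zero]
  · intro r s hs
    have := congrFun (congrFun hE'3 r) s
    rw [Matrix.map_apply, Matrix.diagonal_apply] at this
    rw [dvd3, this]
    by_cases hrs : r = s
    · subst hrs
      rw [if_pos rfl, if_neg hs]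
    · rw [if_neg hrs]
  · have e1 : (A - (h + 3 ^ j * t) • 1) * E' = (3 : Z3) ^ j • ((T - t • 1) * E') := by
      have e2 : (A - h • 1) * E' = (3 : Z3) ^ j • (T * E') := by
        rw [← hEE', ← Matrix.mul_assoc, P.eq, Matrix.smul_mul, ← Matrix.mul_assoc, hTE]
      rw [add_smul, ← sub_sub, Matrix.sub_mul, e2, Matrix.sub_mul, smul_sub]
      congr 1
      rw [Matrix.smul_mul, Matrix.smul_mul, smul_smul]
    rw [e1, pow_succ, mul_smul]
    congr 1
    ext r s
    rw [hT' r s]
    rfl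

end Pool.Agent.Lib.MP_06b9d2_trp
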