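import Mathlib

/-!
Module TRP-TrfM. Commuting matrices with separable characteristic polynomials have the same number of eigenvalues in every extension field.

Pass to `K`: `A' = A.map (algebraMap F K)`, `A'.charpoly = A.charpoly.map _` (`Matrix.charpoly_map`), separable (`Polynomial.Separable.map`), so the roots are distinct (`Polynomial.nodup_roots`) and the number of roots is the cardinality of the finset of the roots. By symmetry it is enough to construct an injective map from the eigenvalues
of `B'` in `K` to the eigenvalues of `A'` in `K`. `eig_dim`: if `M.charpoly` is separable, every two eigenvectors `v, w ≠ 0` of `M` for the same `z` are proportional: `Module.End.finrank_maxGenEigenspace_eq`/`Matrix`: dimension of the eigenspace `≤` root multiplicity `= 1`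
(`LinearMap.finrank_maxGenEigenspace_eq` (charpoly root multiplicity), `Polynomial.rootMultiplicity_le_one_of_separable`); or see the proof of `comm_poly`/`sep_charpoly` in `MP_06b9d2_ssp/Lin.lean`. For an eigenvalue `z ∈ K` of `B'` with the eigenvector `v`: `B' (A' v) = A' (B' v) = z A' v`, so `A' v = w v` for some `w ∈ K`, which is an eigenvalue of `A'`
(`Matrix.exists_mulVec_eq_zero_iff`, `Matrix.eval_charpoly`: roots of the characteristic polynomial = eigenvalues). If `z₁ ≠ z₂` give the same `w`: `v₁`, `v₂` are eigenvectors of `A'` for `w`, so proportional (`eig_dim` for `A'`), so `z₁ = z₂`.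
-/

namespace Pool.Agent.Lib.MP_06b9d2_trp

open Polynomial

/-- two eigenvectors for the same eigenvalue are proportional -/
private theorem TrfM_dim {K V : Type} [Field K] [AddCommGroup V] [Module K V] [Module.Finite K V]
    (T : Module.End K V) (hT : (LinearMap.charpoly T).Separable) (z : K) (v w : V)
    (hv : v ≠ 0) (hvz : T v = z • v) (hwz : T w = z • w) : ∃ c : K, c • v = w := by
  have h1 : Module.finrank K (Module.End.eigenspace T z) ≤ 1 :=
    (LinearMap.finrank_eigenspace_le T z).trans (Polynomial.rootMultiplicity_le_one_of_separable hT z)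
  rw [finrank_le_one_iff] at h1
  obtain ⟨v0, hv0⟩ := h1
  obtain ⟨a, ha⟩ := hv0 ⟨v, Module.End.mem_eigenspace_iff.2 hvz⟩
  obtain ⟨b, hb⟩ := hv0 ⟨w, Module.End.mem_eigenspace_iff.2 hwz⟩
  have e1 : a • (v0 : V) = v := congrArg Subtype.val ha
  have e2 : b • (v0 : V) = w := congrArg Subtype.val hb
  have ha0 : a ≠ 0 := by
    rintro rfl
    rw [zero_smul] at e1
    exact hv e1.symm
  refine ⟨b * a⁻¹, ?_⟩
  rw [← e1, smul_smul, mul_assoc, inv_mul_cancel₀ ha0, mul_one, e2]

private theorem TrfM_le {K V : Type} [Field K] [AddCommGroup V] [Module K V] [Module.Finite K V]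
    (T S : Module.End K V) (hc : T * S = S * T) (hT : (LinearMap.charpoly T).Separable)
    (hS : (LinearMap.charpoly S).Separable) :
    Multiset.card (LinearMap.charpoly S).roots ≤ Multiset.card (LinearMap.charpoly T).roots := by
  classical
  have hcv : ∀ v, T (S v) = S (T v) := fun v => LinearMap.congr_fun hc v
  have key : ∀ z : K, ∃ w : K, z ∈ (LinearMap.charpoly S).roots →
      w ∈ (LinearMap.charpoly T).roots ∧ ∃ v : V, v ≠ 0 ∧ S v = z • v ∧ T v = w • v := by
    intro z
    by_cases hz : z ∈ (LinearMap.charpoly S).roots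
    · rw [mem_roots (LinearMap.charpoly_monic S).ne_zero] at hz
      have h1 := (Module.End.hasEigenvalue_iff_isRoot_charpoly S z).2 hz
      obtain ⟨v, hv⟩ := h1.exists_hasEigenvector
      have hv0 : v ≠ 0 := hv.2
      have hSv : S v = z • v := hv.apply_eq_smul
      have h2 : S (T v) = z • T v := by rw [← hcv, hSv, map_smul]
      obtain ⟨w, hw⟩ := TrfM_dim S hS z v (T v) hv0 hSv h2
      refine ⟨w, fun _ => ⟨?_, v, hv0, hSv, hw.symm⟩⟩
      rw [mem_roots (LinearMap.charpoly_monic T).ne_zero]
      refine (Module.End.hasEigenvalue_iff_isRoot_charpoly T w).1 ?_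
      exact Module.End.hasEigenvalue_of_hasEigenvector ⟨Module.End.mem_eigenspace_iff.2 hw.symm, hv0⟩
    · exact ⟨0, fun h => absurd h hz⟩
  choose w hw using key
  have hSn := Polynomial.nodup_roots hS
  have hTn := Polynomial.nodup_roots hT
  rw [← Multiset.toFinset_card_of_nodup hSn, ← Multiset.toFinset_card_of_nodup hTn]
  refine Finset.card_le_card_of_injOn w ?_ ?_
  · intro z hz
    exact Finset.mem_coe.2 (Multiset.mem_toFinset.2 (hw z (Multiset.mem_toFinset.1 (Finset.mem_coe.1 hz))).1)
  · intro z₁ hz₁ z₂ hz₂ he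
    obtain ⟨v₁, hv₁, hS₁, hT₁⟩ := (hw z₁ (Multiset.mem_toFinset.1 (Finset.mem_coe.1 hz₁))).2
    obtain ⟨v₂, hv₂, hS₂, hT₂⟩ := (hw z₂ (Multiset.mem_toFinset.1 (Finset.mem_coe.1 hz₂))).2
    have he' : w z₁ = w z₂ := he
    obtain ⟨c, hcc⟩ := TrfM_dim T hT (w z₁) v₁ v₂ hv₁ hT₁ (by rw [he', hT₂])
    have h1 : z₂ • v₂ = z₁ • v₂ := by
      rw [← hS₂, ← hcc, map_smul, hS₁, smul_comm]
    have h2 : (z₁ - z₂) • v₂ = 0 := by rw [sub_smul, h1, sub_self]
    rcases smul_eq_zero.1 h2 with h3 | h3
    · exact sub_eq_zero.1 h3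
    · exact absurd h3 hv₂

private theorem TrfM_le' {F K : Type} [Field F] [Field K] [Algebra F K] {d : ℕ}
    (A B : Matrix (Fin d) (Fin d) F) (hc : A * B = B * A)
    (hA : A.charpoly.Separable) (hB : B.charpoly.Separable) :
    Multiset.card (B.charpoly.map (algebraMap F K)).roots ≤
      Multiset.card (A.charpoly.map (algebraMap F K)).roots := by
  have hA' := hA.map (f := algebraMap F K)
  have hB' := hB.map (f := algebraMap F K)
  rw [← Matrix.charpoly_map] at hA' hB' ⊢
  rw [← Matrix.charpoly_map]
  have h := TrfM_le (Matrix.toLin' (A.map (algebraMap F K))) (Matrix.toLin' (B.map (algebraMap F K))) ?_ ?_ ?_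
  · rwa [Matrix.charpoly_toLin', Matrix.charpoly_toLin'] at h
  · have h2 : A.map (algebraMap F K) * B.map (algebraMap F K) =
        B.map (algebraMap F K) * A.map (algebraMap F K) := by
      rw [← Matrix.map_mul, hc, Matrix.map_mul]
    have h3 := congrArg Matrix.toLin' h2
    rwa [Matrix.toLin'_mul, Matrix.toLin'_mul] at h3
  · rwa [Matrix.charpoly_toLin']
  · rwa [Matrix.charpoly_toLin']

theorem trfM {F K : Type} [Field F] [Field K] [Algebra F K] {d : ℕ} (A B : Matrix (Fin d) (Fin d) F) (hc : A * B = B * A)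
    (hA : A.charpoly.Separable) (hB : B.charpoly.Separable) :
    Multiset.card (A.charpoly.map (algebraMap F K)).roots = Multiset.card (B.charpoly.map (algebraMap F K)).roots :=
  le_antisymm (TrfM_le' B A hc.symm hB hA) (TrfM_le' A B hc hA hB)

end Pool.Agent.Lib.MP_06b9d2_trp
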