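import Pool.Agent.Lib.MP_06b9d2_trp.Aff

/-!
Module TRP-Zoom. The pieces for all classes modulo `3 ^ j`, `j ≤ R + 1`.

`dgn` (`j ≤ R`): `r ≠ s`. If `r` or `s` is not in the class: `Pc_off`. Otherwise `cut_ex` (`key_iff`) gives `i` with `min < 3 ^ j i + a ≤ max`; `relP` (`min j R = j`): `3 ^ (j + 1) ∣ 3 ^ j T r s - M r s`, and `3 ^ (j + 1) ∣ M r s` (`cut` if `s < r`, `dn` if `r < s`), so `3 ^ (j + 1) ∣ 3 ^ j T r s`, `3 ∣ T r s`.
`zoom`: induction on `j`. `j = 0`: `key N 0 r = 0` for all `r` (`Int.emod_one`); `E = 1`, `T = MX N M`, `h = 0`. Step (`j + 1 ≤ R + 1`, so `j ≤ R`): let `key N (j + 1) s0 = z'`, `z = key N j s0`; `P` for `z` by induction; `stp` with `cl' r = (key N (j + 1) r = z')`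
(`cl' r → key N j r = z`: `key_iff`, `3 ^ j ∣ 3 ^ (j + 1)`), `t = T s0 s0`; `hd`: `dgn`; `h1`: `aff`: `3 ^ (j + 1) ∣ 3 ^ j (T s s - T s0 s0) - (uu N s - uu N s0)` and `3 ^ (j + 1) ∣ uu N s - uu N s0` (`key_iff`); `h0`: if `3 ∣ T s s - T s0 s0` then `3 ^ (j + 1) ∣ uu N s - uu N s0` in `Z3`, so in `ℤ`
(`PadicInt.norm_int_le_pow_iff_dvd` / `PadicInt.norm_le_pow_iff_mem_span_pow`; please make it a lemma `int_dvd`), so `cl' s`.
`int_dvd`: `(3 : Z3) ^ n ∣ (x : Z3) ↔ (3 : ℤ) ^ n ∣ x` for `x : ℤ`.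
-/

namespace Pool.Agent.Lib.MP_06b9d2_trp

theorem int_dvd (n : ℕ) (x : ℤ) : (3 : Z3) ^ n ∣ (x : Z3) ↔ (3 : ℤ) ^ n ∣ x := by
  have h1 : ‖((x : ℤ) : ℤ_[3])‖ ≤ ((3 : ℕ) : ℝ) ^ (-(n : ℤ)) ↔ (((3 : ℕ) ^ n : ℕ) : ℤ) ∣ x := by
    have h0 := @PadicInt.norm_int_le_pow_iff_dvd 3 _ x n
    push_cast at h0 ⊢
    exact h0
  have h2 := PadicInt.norm_le_pow_iff_mem_span_pow (p := 3) (x : ℤ_[3]) n
  rw [Ideal.mem_span_singleton] at h2
  have h3 := h2.symm.trans h1
  push_cast at h3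
  exact h3

variable {N R a c : ℕ} {M : ℕ → ℕ → ℤ} {S : Set (Matrix (Fin (N + 1)) (Fin (N + 1)) Z3)}

private theorem Zoom_ne : (3 : Z3) ≠ 0 := by exact_mod_cast (show (3 : ℕ) ≠ 0 by norm_num)

private theorem Zoom_cancel (j : ℕ) (x : Z3) (h : (3 : Z3) ^ (j + 1) ∣ 3 ^ j * x) : (3 : Z3) ∣ x := by
  rw [pow_succ] at h
  exact (mul_dvd_mul_iff_left (pow_ne_zero j Zoom_ne)).mp h

theorem dgn (C : Ctx N R a c M S) {j : ℕ} (hj : j ≤ R) {z : ℤ} {E T : Matrix (Fin (N + 1)) (Fin (N + 1)) Z3} {h : Z3}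
    (P : Pc S (MX N M) j (fun r => key N j r = z) E T h) (r s : Fin (N + 1)) (hrs : r ≠ s) : (3 : Z3) ∣ T r s := by
  obtain ⟨ho1, ho2⟩ := Pc_off C.alg C.mem P
  by_cases hr : key N j r = z
  · by_cases hs : key N j s = z
    · apply Zoom_cancel j
      have hk : (3 : ℤ) ^ j ∣ uu N r - uu N s := (key_iff N j r s).mp (by rw [hr, hs])
      have hr2 := r.2
      have hs2 := s.2
      rcases lt_or_gt_of_ne (fun hh => hrs (Fin.ext hh) : (r : ℕ) ≠ (s : ℕ)) with hlt | hlt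
      · obtain ⟨i, hi1, hi2⟩ := cut_ex C.fct.hN C.fct.ha j hj (r : ℕ) (s : ℕ) hlt (by omega) hk
        have h1 := (relP C (by omega : j ≤ R + 1) P r s hr hs i (by rwa [min_eq_left hj]) (by rwa [min_eq_left hj])).2
        have h2 := (int_dvd (j + 1) _).mpr (dn C.fct j hj i (r : ℕ) (s : ℕ) hi1 hi2 (by omega))
        have h3 := dvd_add h1 h2
        rwa [sub_add_cancel] at h3
      · have hk' : (3 : ℤ) ^ j ∣ uu N s - uu N r := by
          rw [← dvd_neg, neg_sub]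
          exact hk
        obtain ⟨i, hi1, hi2⟩ := cut_ex C.fct.hN C.fct.ha j hj (s : ℕ) (r : ℕ) hlt (by omega) hk'
        have h1 := (relP C (by omega : j ≤ R + 1) P s r hs hr i (by rwa [min_eq_left hj]) (by rwa [min_eq_left hj])).1
        have h2 := (int_dvd (j + 1) _).mpr (C.fct.cut j hj i (s : ℕ) (r : ℕ) hi1 hi2 (by omega))
        have h3 := dvd_add h1 h2
        rwa [sub_add_cancel] at h3
    · exact ho1 r s hs
  · exact ho2 r s hr

theorem zoom (C : Ctx N R a c M S) (j : ℕ) (hj : j ≤ R + 1) (z : ℤ) (hz : ∃ s : Fin (N + 1), key N j s = z) :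
    ∃ (E T : Matrix (Fin (N + 1)) (Fin (N + 1)) Z3) (h : Z3), Pc S (MX N M) j (fun r => key N j r = z) E T h := by
  induction j generalizing z with
  | zero =>
    obtain ⟨s, hs⟩ := hz
    have hk : ∀ r : Fin (N + 1), key N 0 r = 0 := by
      intro r
      unfold key
      rw [pow_zero, Int.emod_one]
    have hz0 : z = 0 := by rw [← hs, hk]
    subst hz0
    refine ⟨1, MX N M, 0, C.alg.one, one_mul _, ?_, ?_, ?_⟩
    · intro r s _
      rw [Matrix.one_apply, sub_self]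
      exact dvd_zero _
    · intro r s h
      exact absurd (hk s) h
    · rw [zero_smul, sub_zero, mul_one, pow_zero, one_smul]
  | succ j ih =>
    obtain ⟨s0, hs0⟩ := hz
    obtain ⟨E, T, h, P⟩ := ih (by omega) (key N j s0) ⟨s0, rfl⟩
    have hcl : ∀ r, key N (j + 1) r = z → key N j r = key N j s0 := by
      intro r hr
      rw [key_iff]
      have h1 : (3 : ℤ) ^ (j + 1) ∣ uu N r - uu N s0 := (key_iff N (j + 1) r s0).mp (by rw [hr, hs0])
      exact (pow_dvd_pow _ (Nat.le_succ j)).trans h1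
    obtain ⟨E', T', P'⟩ := stp C.alg C.mem P (fun r => key N (j + 1) r = z) hcl (T s0 s0)
      (fun r s hrs => dgn C (by omega) P r s hrs)
      (by
        intro s hs
        apply Zoom_cancel j
        have h1 := aff C (by omega : j ≤ R + 1) P s0 s rfl (hcl s hs)
        have h2 : (3 : ℤ) ^ (j + 1) ∣ uu N s - uu N s0 := (key_iff N (j + 1) s s0).mp (by rw [hs, hs0])
        have h3 := dvd_add h1 ((int_dvd (j + 1) _).mpr h2)
        rwa [sub_add_cancel] at h3)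
      (by
        intro s hs hns hd
        apply hns
        have h1 := aff C (by omega : j ≤ R + 1) P s0 s rfl hs
        have h2 : (3 : Z3) ^ (j + 1) ∣ 3 ^ j * (T s s - T s0 s0) := by
          rw [pow_succ]
          exact mul_dvd_mul_left _ hd
        have h3 := dvd_sub h2 h1
        rw [sub_sub_cancel] at h3
        have h4 := (int_dvd (j + 1) _).mp h3
        have h5 := (key_iff N (j + 1) s s0).mpr h4
        change key N (j + 1) s = z
        rw [h5, hs0])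
    exact ⟨E', T', _, P'⟩

end Pool.Agent.Lib.MP_06b9d2_trp
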